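import Pool.Agent.H98.HVB.ASD

/-!
# ASA: masses and simple facts on `toMS`

`n = x W`, `h = c/8`.
* `as_sum`: `K (n mu) + 2 R (n h/R) = n (1 - 2h) + 2 n h` (`mu_K`; `Fintype.sum_sum_type`).
* `as_MA`: `n mu = W x (1-2h)/K`, `x/K ≤ (K+3)/K`, `K ≥ 0.9 x ≥ 1e17`, so `(1 + 3/K)(1 - c/4) ≤ 1 - c/5` (`1/K ≤ 1/(0.9 x) ≤ 1.2e-8 c²`).
* `as_be`: `n h/R = W h x/R`; `R ≤ c x/64` and `R ≥ (P - 129)/128 ≥ (2 c x - 129)/128`: `8 ≤ h x/R ≤ 8.01` (so `8 W ≤ be ≤ 9 W`).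
* `as_card`: `K + 2 R ≤ x + c x ≤ 2 x ≤ n` (`W ≥ 2`).  `as_J`: `J + 1 = K + P + 1 ≤ x + 2.001 c x ≤ 2 x`.
* `as_sum_one`: tight-tight: definition of `Om` (`Om_pos`, `x > 0`); tight-slack: `q_row`, `tau ≠ 0`; slack-slack: `#AA` terms, `#AA > 0` (`AA_lo`).  Use `sum_fin`, `Fintype.sum_option`.
* `as_nonneg`: `w_nonneg`, `ws_nonneg`, `Om_pos`; `q ≥ 0` by `q_lo`, `q_off`; `qs ≥ 0` by `q0s_lo`; `tau > 0`.
* `as_pi_le`: `W/n = 1/x`.  tight-tight: `w ≤ 1/Db ≤ 1.1` (`w_le_b`, `Db_lo`), `Om ≥ 0.99`; tight-slack: `q_hi`, `tau_lo`: `(1+60c)/(0.75 x) ≤ 3/x`; slack-slack: `1/#AA ≤ 1.1/x`.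
* `as_star_le`: `ws ≤ sS/(1-2h) ≤ 2.1`; `qs ≤ sS (1+50c)/x ≤ 2.1/x`, `tau ≥ 3/4`.
* `as_sup`: definitions, `q_off`, `AA`.
* `as_low`: `q_lo`, `q0s_lo`, `tau_hi`, `tau > 0`.
* `as_mid`: the number of middle blocks of `i` is at least `#MM i b b` (any `b`; `MM_lo`) `≥ 0.9 x ≥ x/2`.
* `as_hub`: `hub_lo`, `hub_s`: at least `R - 6` classes, `(R - 6) n h/R ≥ n c/10` (`R ≥ 1000`, `h = c/8`).
-/

set_option autoImplicit false
set_option linter.unusedVariables false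

namespace Pool.Agent.H98.HVB

open Finset Pool.Agent.H2.HV

namespace Par

variable {T : Par} {n W S z : ℕ} {c : ℝ}

theorem ASA_n (hr : Rel T n W S z c) : (0:ℝ) < n ∧ (0:ℝ) < W ∧ (n : ℝ) = T.x * W ∧ (1000:ℝ) ≤ W := by
  have h1 : (1000:ℝ) ≤ W := by exact_mod_cast hr.hW
  have h2 : (1000:ℝ) ≤ n := by exact_mod_cast hr.hn
  have h3 : (0:ℝ) < W := by linarith
  refine ⟨by linarith, h3, ?_, h1⟩
  rw [hr.hx]
  field_simp

theorem as_pos (hT : T.Ok) (hr : Rel T n W S z c) (hR : 0 < T.R) (k) : 0 < (T.toMS hR n).M k := by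
  obtain ⟨n0, W0, hn, hW⟩ := ASA_n hr
  have hR' : (0:ℝ) < T.R := by exact_mod_cast hR
  rcases k with k | k
  · change 0 < (n : ℝ) * T.mu
    exact mul_pos n0 (mu_pos hT)
  · change 0 < (n : ℝ) * T.h / T.R
    exact div_pos (mul_pos n0 (h_pos hT)) hR'

theorem as_sum (hT : T.Ok) (hr : Rel T n W S z c) (hR : 0 < T.R) :
    ∑ k, (T.toMS hR n).M k = n := by
  have hR' : (0:ℝ) < T.R := by exact_mod_cast hR
  rw [Fintype.sum_sum_type]
  have h1 : ∀ a : Fin T.K, (T.toMS hR n).M (Sum.inl a) = n * T.mu := fun a => rfl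
  have h2 : ∀ b : Bool × Fin T.R, (T.toMS hR n).M (Sum.inr b) = n * T.h / T.R := fun b => rfl
  rw [Finset.sum_congr rfl fun a _ => h1 a, Finset.sum_congr rfl fun b _ => h2 b,
    Finset.sum_const, Finset.sum_const, Finset.card_univ, Finset.card_univ, Fintype.card_prod,
    Fintype.card_fin, Fintype.card_fin, Fintype.card_bool, nsmul_eq_mul, nsmul_eq_mul]
  push_cast
  have h3 := mu_K hT
  have h4 : (2 : ℝ) * T.R * (n * T.h / T.R) = 2 * n * T.h := by field_simp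
  rw [h4]
  linear_combination (n : ℝ) * h3

theorem as_MA (hT : T.Ok) (hr : Rel T n W S z c) (hR : 0 < T.R) (a) :
    (T.toMS hR n).M (Sum.inl a) ≤ W * (1 - c / 5) := by
  obtain ⟨n0, W0, hn, hW⟩ := ASA_n hr
  change (n : ℝ) * T.mu ≤ W * (1 - c / 5)
  rw [← hr.hc, hn]
  have h1 := K_lo hT
  have h2 := cx_ge hT
  have h3 := x_ge hT
  have c0 := hT.c0
  have c1 := hT.c1
  have hK : (0:ℝ) < T.K := by linarith
  have h4 : T.x * T.mu ≤ 1 - T.c / 5 := by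
    have h5 : T.x * T.mu = T.x * (1 - 2 * T.h) / T.K := by
      unfold mu
      ring
    have hh : T.h = T.c / 8 := rfl
    rw [h5, div_le_iff₀ hK, hh]
    have h6 : T.c * (T.x - 3) ≤ T.c * T.K := mul_le_mul_of_nonneg_left h1 c0.le
    have h7 : 0 ≤ 1 - 2 * (T.c / 8) := by linarith
    have h8 : T.x * (1 - 2 * (T.c / 8)) ≤ (T.K + 3) * (1 - 2 * (T.c / 8)) :=
      mul_le_mul_of_nonneg_right (by linarith) h7
    nlinarith
  have h9 := mul_le_mul_of_nonneg_left h4 W0.le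
  linarith

theorem as_be (hT : T.Ok) (hr : Rel T n W S z c) (hR : 0 < T.R) :
    8 * (W : ℝ) ≤ (T.toMS hR n).be ∧ (T.toMS hR n).be ≤ 9 * W := by
  obtain ⟨n0, W0, hn, hW⟩ := ASA_n hr
  have hR' : (0:ℝ) < T.R := by exact_mod_cast hR
  change 8 * (W : ℝ) ≤ (n : ℝ) * T.h / T.R ∧ (n : ℝ) * T.h / T.R ≤ 9 * W
  have h1 := R_hi hT
  have h2 := cx_ge hT
  have h3 := hT.R2
  have h3' : (T.P : ℝ) ≤ 128 * T.R + 129 := by exact_mod_cast h3
  have h4 := hT.P1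
  have hh : T.h = T.c / 8 := rfl
  rw [le_div_iff₀ hR', div_le_iff₀ hR', hn, hh]
  constructor
  · have h5 : 8 * (T.R : ℝ) ≤ T.x * (T.c / 8) := by linarith
    have h6 := mul_le_mul_of_nonneg_left h5 W0.le
    linarith
  · have h5 : T.x * (T.c / 8) ≤ 9 * T.R := by linarith
    have h6 := mul_le_mul_of_nonneg_left h5 W0.le
    linarith

theorem as_card (hT : T.Ok) (hr : Rel T n W S z c) :
    Fintype.card (Fin T.K) + Fintype.card (Bool × Fin T.R) ≤ n := by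
  obtain ⟨n0, W0, hn, hW⟩ := ASA_n hr
  rw [Fintype.card_prod, Fintype.card_fin, Fintype.card_fin, Fintype.card_bool]
  have h1 := R_hi hT
  have h2 := K_hi hT
  have h3 := x_ge hT
  have c0 := hT.c0
  have c1 := hT.c1
  have h4 : ((T.K + 2 * T.R : ℕ) : ℝ) ≤ n := by
    push_cast
    rw [hn]
    have h5 : T.c * T.x ≤ T.x := by nlinarith
    have h6 : T.x * 1000 ≤ T.x * W := mul_le_mul_of_nonneg_left hW (by linarith)
    linarith
  exact_mod_cast h4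

theorem as_J (hT : T.Ok) (hr : Rel T n W S z c) :
    (Fintype.card (Fin T.J) : ℝ) + 1 ≤ 2 / ((W : ℝ) / n) := by
  obtain ⟨n0, W0, hn, hW⟩ := ASA_n hr
  rw [Fintype.card_fin]
  have hJ : (T.J : ℝ) = T.K + T.P := by
    unfold J
    push_cast
    ring
  have h5 : 2 / ((W : ℝ) / n) = 2 * T.x := by
    rw [hr.hx]
    field_simp
  rw [h5, hJ]
  have h2 := K_hi hT
  have h3 := x_ge hT
  have h4 := hT.P2
  have c0 := hT.c0
  have c1 := hT.c1
  have h6 : T.c * T.x ≤ 1 / 10 ^ 5 * T.x := mul_le_mul_of_nonneg_right c1 (by linarith)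
  linarith

end Par

end Pool.Agent.H98.HVB
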