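import Pool.Agent.H98.HVB.ASD

/-!
# ASB: sums and signs of `pi`

See the header of `ASA.lean` (`as_sum_one`, `as_nonneg`, `as_sup`).
* `as_symm`: cases; `Om_symm`, `Finset.inter_comm`, `AA b b' = AA b' b`.
* `as_sum_one`: tight-tight: definition of `Om` (`Om_pos`, `x > 0`); tight-slack: `q_row`, `tau ≠ 0` (`tau_lo`); slack-slack: `#AA` terms, `#AA > 0` (`AA_lo`).  Use `sum_fin`, `Fintype.sum_option`.
* `as_nonneg`: `w_nonneg`, `ws_nonneg`, `Om_pos`; `q ≥ 0` by `q_lo`, `q_off`; `qs ≥ 0` by `q0s_lo`; `tau > 0`.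
* `as_sup`: definitions, `q_off`, `AA`; `elT` is a match on the option, `mem_E`.
-/

set_option autoImplicit false
set_option linter.unusedVariables false

namespace Pool.Agent.H98.HVB

open Finset Pool.Agent.H2.HV

namespace Par

variable {T : Par} {n W S z : ℕ} {c : ℝ}

theorem ASB_AA_symm (i i' : ℕ) (t : Option (Fin T.J)) : T.piAA i i' t = T.piAA i' i t := by
  cases t with
  | none => simp only [piAA, Om_symm i i']
  | some j => simp only [piAA, Om_symm i i', Finset.inter_comm (T.E i) (T.E i')]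

theorem ASB_A_symm (b b' : Bool × Fin T.R) : T.AA b b' = T.AA b' b := by
  unfold AA
  congr 1
  funext j
  exact propext and_comm

theorem ASB_BB_symm (b b' : Bool × Fin T.R) (t : Option (Fin T.J)) :
    T.piBB b b' t = T.piBB b' b t := by
  cases t with
  | none => rfl
  | some j => simp only [piBB, ASB_A_symm b b']

theorem ASB_x (hT : T.Ok) : 0 < T.x := lt_of_lt_of_le (by norm_num) (x_ge hT)

theorem ASB_tau (hT : T.Ok) (i : ℕ) (b : Bool × Fin T.R) : 0 < T.tau i b :=
  lt_of_lt_of_le (by norm_num) (tau_lo hT i b)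

theorem ASB_qs (hT : T.Ok) {i : ℕ} (hi : i < T.K) (b : Bool × Fin T.R) : 0 ≤ T.qs i b := by
  unfold qs
  split_ifs
  · refine le_trans ?_ (q0s_lo hT hi)
    have h1 := hT.c1
    have h2 := hT.s0
    have h3 : 0 ≤ 1 - 90 * T.c := by linarith
    have h4 : 0 ≤ T.sS := by linarith
    exact div_nonneg (mul_nonneg h4 h3) (ASB_x hT).le
  · exact le_rfl

theorem ASB_AA_nonneg (hT : T.Ok) (i i' : Fin T.K) (t : Option (Fin T.J)) :
    0 ≤ T.piAA i i' t := by
  have h1 : 0 < T.x * T.Om i i' := mul_pos (ASB_x hT) (Om_pos hT i.2 i'.2)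
  cases t with
  | none => exact div_nonneg (ws_nonneg hT) h1.le
  | some j =>
    simp only [piAA]
    split_ifs
    · exact div_nonneg (w_nonneg hT j.2) h1.le
    · exact le_rfl

theorem ASB_AB_nonneg (hT : T.Ok) (i : Fin T.K) (b : Bool × Fin T.R) (t : Option (Fin T.J)) :
    0 ≤ T.piAB i b t := by
  have h1 := ASB_tau hT i b
  cases t with
  | none => exact div_nonneg (ASB_qs hT i.2 b) h1.le
  | some j =>
    simp only [piAB]
    split_ifs
    · refine div_nonneg ?_ h1.le
      by_cases h2 : T.av b j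
      · exact le_trans (div_nonneg (by norm_num) (ASB_x hT).le) (q_lo hT i.2 j.2 h2)
      · rw [q_off (i : ℕ) h2]
    · exact le_rfl

theorem ASB_BB_nonneg (b b' : Bool × Fin T.R) (t : Option (Fin T.J)) : 0 ≤ T.piBB b b' t := by
  cases t with
  | none => exact le_rfl
  | some j =>
    simp only [piBB]
    split_ifs
    · positivity
    · exact le_rfl

theorem ASB_E_sub (i : ℕ) : T.E i ⊆ range T.J := Finset.filter_subset _ _

theorem ASB_AA_sum (hT : T.Ok) (i i' : Fin T.K) : ∑ t, T.piAA i i' t = 1 := by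
  have hx := ASB_x hT
  have h1 : 0 < T.x * T.Om i i' := mul_pos hx (Om_pos hT i.2 i'.2)
  rw [Fintype.sum_option]
  simp only [piAA]
  rw [sum_fin (T.E i ∩ T.E i') (Finset.inter_subset_left.trans (ASB_E_sub _))
    (fun j => T.w j / (T.x * T.Om i i')), ← Finset.sum_div, ← add_div]
  have h2 : T.x * T.Om i i' = ∑ j ∈ T.E i ∩ T.E i', T.w j + T.ws := by
    unfold Om
    field_simp
  rw [add_comm, ← h2]
  exact div_self h1.ne'

theorem ASB_AB_sum (hT : T.Ok) (i : Fin T.K) (b : Bool × Fin T.R) :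
    ∑ t, T.piAB i b t = 1 := by
  have h1 := ASB_tau hT i b
  rw [Fintype.sum_option]
  simp only [piAB]
  rw [sum_fin (T.E i) (ASB_E_sub _) (fun j => T.q i b j / T.tau i b), ← Finset.sum_div,
    ← add_div, add_comm, q_row hT i.2 b]
  exact div_self h1.ne'

theorem ASB_BB_sum (hT : T.Ok) (b b' : Bool × Fin T.R) : ∑ t, T.piBB b b' t = 1 := by
  rw [Fintype.sum_option]
  simp only [piBB]
  rw [sum_fin (T.AA b b') (Finset.filter_subset _ _) (fun _ => ((T.AA b b').card : ℝ)⁻¹),
    Finset.sum_const, nsmul_eq_mul, zero_add]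
  have h1 := AA_lo hT b b'
  have h2 := hT.c1
  have h3 : 0 < T.x * (1 - 0.3 * T.c) := mul_pos (ASB_x hT) (by norm_num at h2 ⊢; linarith)
  exact mul_inv_cancel₀ (lt_of_lt_of_le h3 h1).ne'

theorem ASB_AB_sup (i : Fin T.K) (b : Bool × Fin T.R) (t : Option (Fin T.J))
    (h : ∀ j, t = some j → ¬ (¬ T.zone i j ∧ T.av b j)) (h0 : t = none → b.1 ≠ true) :
    T.piAB i b t = 0 := by
  cases t with
  | none =>
    simp only [piAB, qs]
    rw [if_neg (h0 rfl), zero_div]
  | some j =>
    simp only [piAB]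
    split_ifs with h1
    · rw [q_off (i : ℕ) (fun h2 => h j rfl ⟨mem_E.1 h1, h2⟩), zero_div]
    · rfl

theorem as_symm (hR : 0 < T.R) (k k' t) : (T.toMS hR n).pi k k' t = (T.toMS hR n).pi k' k t := by
  rcases k with i | b <;> rcases k' with i' | b'
  · exact ASB_AA_symm i i' t
  · rfl
  · rfl
  · exact ASB_BB_symm b b' t

theorem as_nonneg (hT : T.Ok) (hR : 0 < T.R) (k k' t) : 0 ≤ (T.toMS hR n).pi k k' t := by
  rcases k with i | b <;> rcases k' with i' | b'
  · exact ASB_AA_nonneg hT i i' t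
  · exact ASB_AB_nonneg hT i b' t
  · exact ASB_AB_nonneg hT i' b t
  · exact ASB_BB_nonneg b b' t

theorem as_sum_one (hT : T.Ok) (hR : 0 < T.R) (k k') : ∑ t, (T.toMS hR n).pi k k' t = 1 := by
  rcases k with i | b <;> rcases k' with i' | b'
  · exact ASB_AA_sum hT i i'
  · exact ASB_AB_sum hT i b'
  · exact ASB_AB_sum hT i' b
  · exact ASB_BB_sum hT b b'

theorem as_sup (hT : T.Ok) (hR : 0 < T.R) (k k' t)
    (h : ¬ ((T.toMS hR n).elT k t ∧ (T.toMS hR n).elT k' t)) : (T.toMS hR n).pi k k' t = 0 := by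
  rcases k with i | b <;> rcases k' with i' | b'
  · cases t with
    | none => exact absurd ⟨trivial, trivial⟩ h
    | some j =>
      show (if (j : ℕ) ∈ T.E i ∩ T.E i' then T.w j / (T.x * T.Om i i') else 0) = 0
      rw [if_neg]
      intro h1
      rw [Finset.mem_inter] at h1
      exact h ⟨mem_E.1 h1.1, mem_E.1 h1.2⟩
  · refine ASB_AB_sup i b' t (fun j hj h1 => ?_) (fun h0 h1 => ?_)
    · subst hj
      exact h ⟨h1.1, h1.2⟩
    · subst h0
      exact h ⟨trivial, h1⟩
  · refine ASB_AB_sup i' b t (fun j hj h1 => ?_) (fun h0 h1 => ?_)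
    · subst hj
      exact h ⟨h1.2, h1.1⟩
    · subst h0
      exact h ⟨h1, trivial⟩
  · cases t with
    | none => rfl
    | some j =>
      show (if (j : ℕ) ∈ T.AA b b' then ((T.AA b b').card : ℝ)⁻¹ else 0) = 0
      rw [if_neg]
      intro h1
      have h2 := (Finset.mem_filter.1 h1).2
      exact h ⟨h2.1, h2.2⟩

end Par

end Pool.Agent.H98.HVB
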