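import Pool.Agent.H98.HVB.ASD

/-!
# ASC: bounds for `pi`, middle blocks, hubs

`W/n = 1/x` (`hr.hx`).
* `as_pi_le`: tight-tight: `w ≤ 1/Db ≤ 1.1` (`w_le_b`, `sg_pos`, `Db_lo`), `Om ≥ 0.99` (`Om_ge`): `≤ 1.2/x`; tight-slack: `q_hi`, `tau_lo`: `(1+60c)/(0.75 x) ≤ 3/x` (and `q ≥ 0`); slack-slack: `1/#AA ≤ 1.1/x` (`AA_lo`).
* `as_star_le`: `ws ≤ sS/(1-2h) ≤ 2.1`, `Om ≥ 0.99`; `qs ≤ sS (1+50c)/x ≤ 2.1/x`, `tau ≥ 3/4`.
* `as_low`: blocks: `q_lo`, `0 < tau ≤ 1`: `≥ 0.7/x`; star: `q0s_lo`: `≥ 0.99 (1 - 90c)/x`.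
* `as_mid`: the number of middle blocks of `i` is at least `#MM i b b` (any `b`, `MM_lo`) `≥ 0.9 x ≥ x/2`.
* `as_hub`: `t = some j0`: `hub_lo`; `t = none`: `hub_s`: at least `R - 6` classes, `(R - 6) (n h/R) ≥ n c/10` (`R ≥ 1000`, `h = c/8`).
-/

set_option autoImplicit false
set_option linter.unusedVariables false

namespace Pool.Agent.H98.HVB

open Finset Pool.Agent.H2.HV

namespace Par

variable {T : Par} {n W S z : ℕ} {c : ℝ}

theorem ASC_inv (hr : Rel T n W S z c) : (W : ℝ) / n = 1 / T.x := by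
  rw [hr.hx, one_div_div]

theorem ASC_x (hT : T.Ok) : 0 < T.x := lt_of_lt_of_le (by norm_num) (x_ge hT)

theorem ASC_Om (hT : T.Ok) {i i' : ℕ} (hi : i < T.K) (hi' : i' < T.K) :
    99 / 100 ≤ T.Om i i' := by
  have h1 := Om_ge hT hi hi'
  have hc0 := hT.c0
  have hc1 := hT.c1
  nlinarith

theorem ASC_count {B : Type*} [Fintype B] (P : B → Prop) (s : Finset B) (h : ∀ b ∈ s, P b) :
    (s.card : ℝ) ≤ ∑ b, Pool.Agent.H2.HV.ind (P b) := by
  have h1 : (s.card : ℝ) = ∑ b ∈ s, Pool.Agent.H2.HV.ind (P b) := by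
    rw [Finset.sum_congr rfl (fun b hb => ind_pos (h b hb)), Finset.sum_const, nsmul_eq_mul,
      mul_one]
  rw [h1]
  exact Finset.sum_le_univ_sum_of_nonneg fun b => Pool.Agent.H2.HV.ind_nonneg _

theorem as_pi_le (hT : T.Ok) (hr : Rel T n W S z c) (hR : 0 < T.R) (k k' j) :
    (T.toMS hR n).pi k k' (some j) ≤ 3 * ((W : ℝ) / n) := by
  have hx := ASC_x hT
  have hc0 := hT.c0
  have hc1 := hT.c1
  have hpos : (0 : ℝ) ≤ 3 * (1 / T.x) := by positivity
  rw [ASC_inv hr]
  have hAB : ∀ (i : Fin T.K) (b : Bool × Fin T.R), T.piAB i b (some j) ≤ 3 * (1 / T.x) := by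
    intro i b
    unfold piAB
    simp only
    split_ifs with h
    · have h1 := q_hi hT i.2 j.2 b
      have h2 := tau_lo hT i b
      rw [div_le_iff₀ (by linarith)]
      refine h1.trans ?_
      rw [div_le_iff₀ hx]
      have e : 3 * (1 / T.x) * T.tau i b * T.x = 3 * T.tau i b := by field_simp
      rw [e]
      linarith
    · exact hpos
  rcases k with i | b <;> rcases k' with i' | b'
  · show T.piAA i i' (some j) ≤ _
    unfold piAA
    simp only
    split_ifs with h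
    · have hO := ASC_Om hT i.2 i'.2
      rw [div_le_iff₀ (mul_pos hx (by linarith))]
      have e : 3 * (1 / T.x) * (T.x * T.Om i i') = 3 * T.Om i i' := by field_simp
      rw [e]
      have h1 := w_le_b hT j.2
      have h2 := sg_pos hT
      have h3 := Db_lo hT
      nlinarith
    · exact hpos
  · exact hAB i b'
  · exact hAB i' b
  · show T.piBB b b' (some j) ≤ _
    unfold piBB
    simp only
    split_ifs with h
    · have h1 := AA_lo hT b b'
      have h2 : T.x / 3 ≤ ((T.AA b b').card : ℝ) := by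
        refine le_trans ?_ h1
        nlinarith
      have e : 3 * (1 / T.x) = (T.x / 3)⁻¹ := by field_simp
      rw [e]
      exact inv_anti₀ (by positivity) h2
    · exact hpos

theorem as_star_le (hT : T.Ok) (hr : Rel T n W S z c) (hR : 0 < T.R) (k k') :
    (T.toMS hR n).pi k k' none ≤ 6 * ((W : ℝ) / n) := by
  have hx := ASC_x hT
  have hc0 := hT.c0
  have hc1 := hT.c1
  have hpos : (0 : ℝ) ≤ 6 * (1 / T.x) := by positivity
  rw [ASC_inv hr]
  have hAB : ∀ (i : Fin T.K) (b : Bool × Fin T.R), T.piAB i b none ≤ 6 * (1 / T.x) := by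
    intro i b
    show T.qs i b / T.tau i b ≤ _
    unfold qs
    have h2 := tau_lo hT i b
    split_ifs with h
    · have h1 := q0s_hi hT i.2
      rw [div_le_iff₀ (by linarith)]
      refine h1.trans ?_
      rw [div_le_iff₀ hx]
      have e : 6 * (1 / T.x) * T.tau i b * T.x = 6 * T.tau i b := by field_simp
      rw [e]
      have h3 := hT.s1
      have h4 := hT.s0
      nlinarith
    · rw [zero_div]
      exact hpos
  rcases k with i | b <;> rcases k' with i' | b'
  · show T.ws / (T.x * T.Om i i') ≤ _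
    have hO := ASC_Om hT i.2 i'.2
    rw [div_le_iff₀ (mul_pos hx (by linarith))]
    have e : 6 * (1 / T.x) * (T.x * T.Om i i') = 6 * T.Om i i' := by field_simp
    rw [e]
    have h1 := Db_ws hT
    have h3 := Db_lo hT
    have h4 := ws_nonneg hT
    nlinarith
  · exact hAB i b'
  · exact hAB i' b
  · exact hpos

theorem as_low (hT : T.Ok) (hr : Rel T n W S z c) (hR : 0 < T.R) (a b t)
    (h1 : (T.toMS hR n).elT (Sum.inl a) t) (h2 : (T.toMS hR n).elT (Sum.inr b) t) :
    ((W : ℝ) / n) / 3 ≤ (T.toMS hR n).pi (Sum.inl a) (Sum.inr b) t := by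
  have hx := ASC_x hT
  have hc0 := hT.c0
  have hc1 := hT.c1
  rw [ASC_inv hr]
  have h3 := tau_lo hT a b
  have h4 := tau_hi hT a b
  show 1 / T.x / 3 ≤ T.piAB a b t
  cases t with
  | none =>
    have h5 : b.1 = true := h2
    show _ ≤ T.qs a b / T.tau a b
    unfold qs
    rw [if_pos h5]
    have h6 := q0s_lo hT a.2
    have h7 := hT.s0
    rw [le_div_iff₀ (by linarith)]
    refine le_trans ?_ h6
    rw [le_div_iff₀ hx]
    have e : 1 / T.x / 3 * T.tau a b * T.x = T.tau a b / 3 := by field_simp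
    rw [e]
    nlinarith
  | some j =>
    have h5 : (j : ℕ) ∈ T.E a := mem_E.2 h1
    have h6 : T.av b j := h2
    unfold piAB
    simp only
    rw [if_pos h5, le_div_iff₀ (by linarith)]
    refine le_trans ?_ (q_lo hT a.2 j.2 h6)
    rw [le_div_iff₀ hx]
    have e : 1 / T.x / 3 * T.tau a b * T.x = T.tau a b / 3 := by field_simp
    rw [e]
    linarith

theorem as_mid (hT : T.Ok) (hr : Rel T n W S z c) (hR : 0 < T.R) (a) :
    1 / (2 * ((W : ℝ) / n)) ≤ ∑ j, Pool.Agent.H2.HV.ind ((T.toMS hR n).mid a j) := by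
  have hx := ASC_x hT
  have hc0 := hT.c0
  have hc1 := hT.c1
  rw [ASC_inv hr]
  obtain ⟨b, -⟩ := exists_isU hT a
  have h1 := MM_lo hT a.2 b b
  have hsub : T.MM a b b ⊆ range T.J := by
    intro j hj
    unfold MM E at hj
    rw [mem_filter, mem_filter] at hj
    exact hj.1.1
  have h2 : ((T.MM a b b).card : ℝ) ≤ ∑ j, Pool.Agent.H2.HV.ind ((T.toMS hR n).mid a j) := by
    have h3 := sum_fin (T.MM a b b) hsub (fun _ => (1 : ℝ))
    rw [Finset.sum_const, nsmul_eq_mul, mul_one] at h3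
    rw [← h3]
    refine Finset.sum_le_sum fun j _ => ?_
    split_ifs with h4
    · rw [ind_pos]
      unfold MM at h4
      rw [mem_filter] at h4
      exact ⟨mem_E.1 h4.1, h4.2.1, h4.2.2.1⟩
    · exact Pool.Agent.H2.HV.ind_nonneg _
  have e : 1 / (2 * (1 / T.x)) = T.x / 2 := by field_simp
  rw [e]
  refine le_trans ?_ (h1.trans h2)
  nlinarith

theorem as_hub (hT : T.Ok) (hr : Rel T n W S z c) (hR : 0 < T.R) (a t j)
    (h1 : (T.toMS hR n).elT (Sum.inl a) t) (h2 : (T.toMS hR n).mid a j) :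
    n * c / 10 ≤ ∑ b, Pool.Agent.H2.HV.ind ((T.toMS hR n).elT (Sum.inr b) t ∧
      (T.toMS hR n).el (Sum.inr b) j) * (T.toMS hR n).be := by
  obtain ⟨-, h3, h4⟩ := h2
  have key : (T.R : ℝ) ≤ (∑ b, Pool.Agent.H2.HV.ind ((T.toMS hR n).elT (Sum.inr b) t ∧
      (T.toMS hR n).el (Sum.inr b) j)) + 6 := by
    cases t with
    | none =>
      have h5 := hub_s hT h3 h4
      have h6 := ASC_count (fun b => (T.toMS hR n).elT (Sum.inr b) none ∧
        (T.toMS hR n).el (Sum.inr b) j)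
        ((univ : Finset (Bool × Fin T.R)).filter (fun b => b.1 = true ∧ T.av b j))
        (fun b hb => (mem_filter.1 hb).2)
      have h7 : (T.R : ℝ) ≤ (((univ : Finset (Bool × Fin T.R)).filter
        (fun b => b.1 = true ∧ T.av b j)).card : ℝ) + 3 := by exact_mod_cast h5
      linarith
    | some j0 =>
      have h5 := hub_lo hT j0.2 h3 h4
      have h6 := ASC_count (fun b => (T.toMS hR n).elT (Sum.inr b) (some j0) ∧
        (T.toMS hR n).el (Sum.inr b) j)
        ((univ : Finset (Bool × Fin T.R)).filter (fun b => T.av b j0 ∧ T.av b j))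
        (fun b hb => (mem_filter.1 hb).2)
      have h7 : (T.R : ℝ) ≤ (((univ : Finset (Bool × Fin T.R)).filter
        (fun b => T.av b j0 ∧ T.av b j)).card : ℝ) + 6 := by exact_mod_cast h5
      linarith
  rw [← Finset.sum_mul]
  have hbe : (T.toMS hR n).be = n * T.h / T.R := rfl
  have hR1 : (1000 : ℝ) ≤ T.R := by exact_mod_cast R_pos hT
  have hn : (1000 : ℝ) ≤ n := by exact_mod_cast hr.hn
  have hc0 := hT.c0
  rw [hbe, ← hr.hc]
  have hh : T.h = T.c / 8 := rfl
  rw [hh]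
  have h8 : (T.R : ℝ) - 6 ≤ ∑ b, Pool.Agent.H2.HV.ind ((T.toMS hR n).elT (Sum.inr b) t ∧
      (T.toMS hR n).el (Sum.inr b) j) := by linarith
  refine le_trans ?_ (mul_le_mul_of_nonneg_right h8 (by positivity))
  have e : ((T.R : ℝ) - 6) * (n * (T.c / 8) / T.R) = ((T.R : ℝ) - 6) * (n * T.c) / (8 * T.R) := by
    field_simp
  rw [e, div_le_div_iff₀ (by norm_num) (by positivity)]
  have h9 : 0 < (n : ℝ) * T.c := by positivity
  nlinarith

end Par

end Pool.Agent.H98.HVB
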