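import Pool.Agent.H98.HVB.QQF
import Pool.Agent.H2.HV.Defs

/-!
# ASD: the mean-field schedule as an element of `MS` (definition and basic facts)
-/

set_option autoImplicit false
set_option linter.unusedVariables false

namespace Pool.Agent.H98.HVB

open Finset Pool.Agent.H2.HV

namespace Par

variable (T : Par)

/-- the unit of the tight class `i` -/
def un (hR : 0 < T.R) (i : Fin T.K) : Bool × Fin T.R :=
  (decide (2 * (i : ℕ) < T.K), ⟨(i : ℕ) % T.R, Nat.mod_lt _ hR⟩)

noncomputable section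

/-- tight - slack -/
def piAB (i : ℕ) (b : Bool × Fin T.R) : Option (Fin T.J) → ℝ
  | none => T.qs i b / T.tau i b
  | some j => if (j : ℕ) ∈ T.E i then T.q i b j / T.tau i b else 0

/-- tight - tight -/
def piAA (i i' : ℕ) : Option (Fin T.J) → ℝ
  | none => T.ws / (T.x * T.Om i i')
  | some j => if (j : ℕ) ∈ T.E i ∩ T.E i' then T.w j / (T.x * T.Om i i') else 0

/-- slack - slack -/
def piBB (b b' : Bool × Fin T.R) : Option (Fin T.J) → ℝ
  | none => 0
  | some j => if (j : ℕ) ∈ T.AA b b' then ((T.AA b b').card : ℝ)⁻¹ else 0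

/-- the mean-field schedule; `n` is the degree -/
def toMS (hR : 0 < T.R) (n : ℕ) : MS (Fin T.K) (Bool × Fin T.R) (Fin T.J) where
  M := Sum.elim (fun _ => n * T.mu) (fun _ => n * T.h / T.R)
  be := n * T.h / T.R
  el := Sum.elim (fun i j => ¬ T.zone i j) (fun b j => T.av b j)
  st := Sum.elim (fun _ => True) (fun b => b.1 = true)
  pi := fun k k' => match k, k' with
    | Sum.inl i, Sum.inl i' => T.piAA i i'
    | Sum.inl i, Sum.inr b => T.piAB i b
    | Sum.inr b, Sum.inl i => T.piAB i b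
    | Sum.inr b, Sum.inr b' => T.piBB b b'
  un := T.un hR
  mid := fun i j => ¬ T.zone i j ∧ T.jL ≤ j ∧ (j : ℕ) + T.jL < T.J

end

variable {T}

theorem isU_un (hR : 0 < T.R) (i : Fin T.K) (b : Bool × Fin T.R) :
    T.isU i b ↔ b = T.un hR i := by
  unfold isU un
  rw [Prod.ext_iff, Fin.ext_iff]

theorem mem_E {i : ℕ} {j : Fin T.J} : (j : ℕ) ∈ T.E i ↔ ¬ T.zone i j := by
  unfold E
  rw [mem_filter, mem_range]
  exact ⟨fun h => h.2, fun h => ⟨j.2, h⟩⟩

/-- sums over the blocks as sums over `Fin J` -/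
theorem sum_fin (Q : Finset ℕ) (hQ : Q ⊆ range T.J) (f : ℕ → ℝ) :
    ∑ j : Fin T.J, (if (j : ℕ) ∈ Q then f j else 0) = ∑ j ∈ Q, f j := by
  rw [Fin.sum_univ_eq_sum_range (fun j => if j ∈ Q then f j else 0) T.J, ← sum_filter]
  congr 1
  ext j
  rw [mem_filter, mem_range]
  exact ⟨fun h => h.2, fun h => ⟨mem_range.1 (hQ h), h⟩⟩

theorem sum_finK (Q : Finset ℕ) (hQ : Q ⊆ range T.K) (f : ℕ → ℝ) :
    ∑ i : Fin T.K, (if (i : ℕ) ∈ Q then f i else 0) = ∑ i ∈ Q, f i := by
  rw [Fin.sum_univ_eq_sum_range (fun j => if j ∈ Q then f j else 0) T.K, ← sum_filter]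
  congr 1
  ext j
  rw [mem_filter, mem_range]
  exact ⟨fun h => h.2, fun h => ⟨mem_range.1 (hQ h), h⟩⟩

/-- the relation between the parameters and the original numbers -/
structure Rel (T : Par) (n W S z : ℕ) (c : ℝ) : Prop where
  hc : T.c = c
  hx : T.x = n / W
  hs : T.sS = ((S : ℝ) - 1) / W
  hz : T.zz = ((z : ℝ) + 1) / W
  hW : 1000 ≤ W
  hn : 1000 ≤ n

end Par

end Pool.Agent.H98.HVB
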