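import Pool.Agent.H98.HVB.ASD

/-!
# ASL: loads

`Lam z k t = ∑_{k'} M k' (tau z k k' * pi k k' t)` (`MS.Lam`), the sum over `Fin K ⊕ (Bool × Fin R)` (`Fintype.sum_sum_type`).  `n = x W`.
`MS.tau z (inl a) (inl a') = 1`, `MS.tau z (inr b) (inr b') = 1` (`zp` fails), `MS.tau z (inl a) (inr b) = T.tau a b` (both orders): `zp` holds iff `b = un a` iff `isU a b` (`isU_un`), and
`(z+1)/be = (zz W)/(n h/R) = zz R/(h x) = zeta`.  (`as_tau`)
* `as_tight_blk`: `inl a`, `some j`, `¬ zone a j`: `∑_{a'} n mu [j ∈ E a'] w j/(x Om a a') + ∑_b (n h/R) q a b j = W (w j mu ∑_{i' ∈ act j} 1/Om + nd a j) = W` (`q_col`, definition of `nd`; `T.tau * (q/T.tau) = q`,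
  `tau_lo`; `j ∈ E a' ↔ a' ∈ act j`; `sum_finK`).
* `as_tight_star`: `∑ n mu ws/(x Om) + ∑_b (n h/R) qs a b = W (ws mu ∑_{i' < K} 1/Om + nds a) = W sS = S - 1` (`qs_col`).
* `as_slack_blk`: `inr b`, `some j`, `av b j`: `∑_a n mu (tau pi) = n mu ∑_{a ∈ act j} q a b j ≤ W ((1-c)(1 + c/1e5) + 0.567 c)` (`q_load`, `n/x = W`), and
  `∑_{b'} (n h/R) [j ∈ AA b b']/#AA ≤ 2 R (n h/R)/(x (1 - 0.3c)) = W (c/4)/(1 - 0.3 c) ≤ 0.2501 c W` (`AA_lo`).  Total `≤ W (1 - c/10)`.
* `as_slack_star`: `inr b`, `none`, `b.1 = true`: `n mu ∑_a q0s a ≤ W sS th = (S-1)(1-c) ≤ (S-1)(1-c/10)` (`load0s`), and the slack-slack part is `0`.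
-/

set_option autoImplicit false
set_option linter.unusedVariables false

namespace Pool.Agent.H98.HVB

open Finset Pool.Agent.H2.HV

namespace Par

variable {T : Par} {n W S z : ℕ} {c : ℝ}

theorem ASL_zp (hR : 0 < T.R) (a b) :
    ((T.toMS hR n).zp (Sum.inl a) (Sum.inr b) ↔ T.isU a b) ∧
      ((T.toMS hR n).zp (Sum.inr b) (Sum.inl a) ↔ T.isU a b) := by
  have hun : (T.toMS hR n).un = T.un hR := rfl
  refine ⟨?_, ?_⟩
  · rw [isU_un hR a b]
    unfold MS.zp
    rw [hun]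
    constructor
    · rintro ⟨a', h | h⟩
      · have h1 := Sum.inl.inj h.1
        have h2 := Sum.inr.inj h.2
        rw [h1]
        exact h2
      · exact absurd h.1 Sum.inr_ne_inl
    · intro h
      exact ⟨a, Or.inl ⟨rfl, by rw [h]⟩⟩
  · rw [isU_un hR a b]
    unfold MS.zp
    rw [hun]
    constructor
    · rintro ⟨a', h | h⟩
      · exact absurd h.1 Sum.inr_ne_inl
      · have h1 := Sum.inl.inj h.1
        have h2 := Sum.inr.inj h.2
        rw [h1]
        exact h2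
    · intro h
      exact ⟨a, Or.inr ⟨rfl, by rw [h]⟩⟩

theorem ASL_zpA (hR : 0 < T.R) (a a') : ¬ (T.toMS hR n).zp (Sum.inl a) (Sum.inl a') := by
  rintro ⟨x, h | h⟩
  · exact absurd h.2 Sum.inl_ne_inr
  · exact absurd h.2 Sum.inl_ne_inr

theorem ASL_zpB (hR : 0 < T.R) (b b') : ¬ (T.toMS hR n).zp (Sum.inr b) (Sum.inr b') := by
  rintro ⟨x, h | h⟩
  · exact absurd h.1 Sum.inr_ne_inl
  · exact absurd h.1 Sum.inr_ne_inl

theorem ASL_tauA (hR : 0 < T.R) (a a') : (T.toMS hR n).tau z (Sum.inl a) (Sum.inl a') = 1 := by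
  unfold MS.tau
  rw [ind_neg (ASL_zpA hR a a'), zero_mul, sub_zero]

theorem ASL_tauB (hR : 0 < T.R) (b b') : (T.toMS hR n).tau z (Sum.inr b) (Sum.inr b') = 1 := by
  unfold MS.tau
  rw [ind_neg (ASL_zpB hR b b'), zero_mul, sub_zero]

theorem ASL_pos (hT : T.Ok) (hr : Rel T n W S z c) : (0 : ℝ) < W ∧ (0 : ℝ) < n ∧ 0 < T.h ∧
    0 < T.x ∧ (n : ℝ) / T.x = W := by
  have hW : (0 : ℝ) < W := by
    have := hr.hW
    exact_mod_cast (by omega : 0 < W)
  have hn : (0 : ℝ) < n := by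
    have := hr.hn
    exact_mod_cast (by omega : 0 < n)
  refine ⟨hW, hn, h_pos hT, ?_, ?_⟩
  · rw [hr.hx]
    positivity
  · rw [hr.hx]
    field_simp

theorem ASL_zeta (hT : T.Ok) (hr : Rel T n W S z c) (hR : 0 < T.R) :
    ((z : ℝ) + 1) / (n * T.h / T.R) = T.zeta := by
  obtain ⟨hW, hn, hh, hx, -⟩ := ASL_pos hT hr
  have hR' : (0 : ℝ) < T.R := by exact_mod_cast hR
  unfold zeta
  rw [hr.hz, hr.hx]
  field_simp

theorem ASL_be (hR : 0 < T.R) : (T.toMS hR n).be = n * T.h / T.R := rfl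

theorem as_tau (hT : T.Ok) (hr : Rel T n W S z c) (hR : 0 < T.R) (a b) :
    (T.toMS hR n).tau z (Sum.inl a) (Sum.inr b) = T.tau a b ∧
      (T.toMS hR n).tau z (Sum.inr b) (Sum.inl a) = T.tau a b := by
  obtain ⟨h1, h2⟩ := ASL_zp (T := T) (n := n) hR a b
  unfold MS.tau tau
  rw [ASL_be, ASL_zeta hT hr hR, ind_congr h1, ind_congr h2]
  by_cases h : T.isU a b
  · rw [ind_pos h, if_pos h, one_mul]
    exact ⟨rfl, rfl⟩
  · rw [ind_neg h, if_neg h, zero_mul, sub_zero]
    exact ⟨rfl, rfl⟩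

theorem ASL_act {i : Fin T.K} {j : ℕ} (hj : j < T.J) : (i : ℕ) ∈ T.act j ↔ j ∈ T.E i := by
  unfold act E
  rw [mem_filter, mem_filter, mem_range, mem_range]
  exact ⟨fun h => ⟨hj, h.2⟩, fun h => ⟨i.2, h.2⟩⟩

theorem ASL_act_sub (j : ℕ) : T.act j ⊆ range T.K := filter_subset _ _

theorem ASL_LamA (hT : T.Ok) (hr : Rel T n W S z c) (hR : 0 < T.R) (a t) :
    (T.toMS hR n).Lam z (Sum.inl a) t = ∑ a' : Fin T.K, n * T.mu * T.piAA a a' t +
      ∑ b, n * T.h / T.R * (T.tau a b * T.piAB a b t) := by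
  unfold MS.Lam
  rw [Fintype.sum_sum_type]
  congr 1
  · refine sum_congr rfl fun a' _ => ?_
    rw [ASL_tauA, one_mul]
    rfl
  · refine sum_congr rfl fun b _ => ?_
    rw [(as_tau hT hr hR a b).1]
    rfl

theorem ASL_LamB (hT : T.Ok) (hr : Rel T n W S z c) (hR : 0 < T.R) (b t) :
    (T.toMS hR n).Lam z (Sum.inr b) t = ∑ a : Fin T.K, n * T.mu * (T.tau a b * T.piAB a b t) +
      ∑ b', n * T.h / T.R * T.piBB b b' t := by
  unfold MS.Lam
  rw [Fintype.sum_sum_type]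
  congr 1
  · refine sum_congr rfl fun a _ => ?_
    rw [(as_tau hT hr hR a b).2]
    rfl
  · refine sum_congr rfl fun b' _ => ?_
    rw [ASL_tauB, one_mul]
    rfl

theorem ASL_tau_mul (hT : T.Ok) (i : ℕ) (b : Bool × Fin T.R) (y : ℝ) :
    T.tau i b * (y / T.tau i b) = y := by
  have h := tau_lo hT i b
  exact mul_div_cancel₀ y (by linarith : T.tau i b ≠ 0)

theorem as_tight (hT : T.Ok) (hr : Rel T n W S z c) (hR : 0 < T.R) (a t)
    (h : (T.toMS hR n).elT (Sum.inl a) t) :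
    (T.toMS hR n).Lam z (Sum.inl a) t = cap W S t := by
  obtain ⟨hW, hn, hh, hx, hnx⟩ := ASL_pos hT hr
  have hR' : (0 : ℝ) < T.R := by exact_mod_cast hR
  rw [ASL_LamA hT hr hR]
  cases t with
  | none =>
    have h1 : ∑ a' : Fin T.K, n * T.mu * T.piAA a a' none =
        n / T.x * (T.ws * T.mu * ∑ i' ∈ range T.K, (T.Om a i')⁻¹) := by
      rw [← Fin.sum_univ_eq_sum_range (fun i' => (T.Om a i')⁻¹), mul_sum, mul_sum]
      refine sum_congr rfl fun a' _ => ?_
      show n * T.mu * (T.ws / (T.x * T.Om a a')) = _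
      rw [div_eq_mul_inv, mul_inv]
      ring
    have h2 : ∑ b, n * T.h / T.R * (T.tau a b * T.piAB a b none) = n / T.x * T.nds a := by
      have h3 : ∀ b : Bool × Fin T.R, n * T.h / T.R * (T.tau a b * T.piAB a b none) =
          n * T.h / T.R * T.qs a b := by
        intro b
        congr 1
        exact ASL_tau_mul hT a b (T.qs a b)
      rw [sum_congr rfl fun b _ => h3 b, ← mul_sum, qs_col hT]
      field_simp
    rw [h1, h2, hnx, ← mul_add]
    unfold nds
    rw [add_sub_cancel, hr.hs]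
    show (W : ℝ) * (((S : ℝ) - 1) / W) = (S : ℝ) - 1
    exact mul_div_cancel₀ _ hW.ne'
  | some j =>
    have hj : (j : ℕ) ∈ T.E a := mem_E.2 h
    have h1 : ∑ a' : Fin T.K, n * T.mu * T.piAA a a' (some j) =
        n / T.x * (T.w j * T.mu * ∑ i' ∈ T.act j, (T.Om a i')⁻¹) := by
      rw [← sum_finK (T.act j) (ASL_act_sub _) (fun i' => (T.Om a i')⁻¹), mul_sum, mul_sum]
      refine sum_congr rfl fun a' _ => ?_
      show n * T.mu * (if (j : ℕ) ∈ T.E a ∩ T.E a' then T.w j / (T.x * T.Om a a') else 0) = _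
      by_cases h2 : (j : ℕ) ∈ T.E a'
      · rw [if_pos (mem_inter.2 ⟨hj, h2⟩), if_pos ((ASL_act j.2).2 h2), div_eq_mul_inv, mul_inv]
        ring
      · rw [if_neg (fun h3 => h2 (mem_inter.1 h3).2), if_neg (fun h3 => h2 ((ASL_act j.2).1 h3))]
        ring
    have h2 : ∑ b, n * T.h / T.R * (T.tau a b * T.piAB a b (some j)) = n / T.x * T.nd a j := by
      have h3 : ∀ b : Bool × Fin T.R, n * T.h / T.R * (T.tau a b * T.piAB a b (some j)) =
          n * T.h / T.R * T.q a b j := by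
        intro b
        congr 1
        show T.tau a b * (if (j : ℕ) ∈ T.E a then T.q a b j / T.tau a b else 0) = _
        rw [if_pos hj]
        exact ASL_tau_mul hT a b (T.q a b j)
      rw [sum_congr rfl fun b _ => h3 b, ← mul_sum, q_col hT a.2 j.2]
      field_simp
    rw [h1, h2, hnx, ← mul_add]
    unfold nd
    rw [add_sub_cancel, mul_one]
    rfl

theorem as_slack (hT : T.Ok) (hr : Rel T n W S z c) (hR : 0 < T.R) (b t)
    (h : (T.toMS hR n).elT (Sum.inr b) t) :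
    (T.toMS hR n).Lam z (Sum.inr b) t ≤ cap W S t * (1 - c / 10) := by
  obtain ⟨hW, hn, hh, hx, hnx⟩ := ASL_pos hT hr
  have hR' : (0 : ℝ) < T.R := by exact_mod_cast hR
  have hmu := mu_pos hT
  have hc0 := hT.c0
  have hc1 := hT.c1
  have hcc := hr.hc
  rw [ASL_LamB hT hr hR]
  cases t with
  | none =>
    have hb : b.1 = true := h
    have h1 : ∑ a : Fin T.K, n * T.mu * (T.tau a b * T.piAB a b none) =
        n * (T.mu * ∑ i ∈ range T.K, T.q0s i) := by
      rw [← Fin.sum_univ_eq_sum_range (fun i => T.q0s i), mul_sum, mul_sum]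
      refine sum_congr rfl fun a _ => ?_
      have h2 : T.tau a b * T.piAB a b none = T.qs a b := ASL_tau_mul hT a b (T.qs a b)
      rw [h2]
      unfold qs
      rw [if_pos hb, mul_assoc]
    have h2 : ∑ b', n * T.h / T.R * T.piBB b b' none = 0 := by
      refine sum_eq_zero fun b' _ => ?_
      show n * T.h / T.R * 0 = 0
      rw [mul_zero]
    have h3 := mul_le_mul_of_nonneg_left (load0s hT) hn.le
    rw [h1, h2, add_zero]
    refine h3.trans ?_
    have h4 : (n : ℝ) * (T.sS * T.th / T.x) = n / T.x * (T.sS * T.th) := by ring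
    have hS : (W : ℝ) * T.sS = (S : ℝ) - 1 := by
      rw [hr.hs]
      exact mul_div_cancel₀ _ hW.ne'
    rw [h4, hnx, ← mul_assoc, hS]
    show ((S : ℝ) - 1) * T.th ≤ ((S : ℝ) - 1) * (1 - c / 10)
    have h5 : 0 ≤ (S : ℝ) - 1 := by
      rw [← hS]
      exact mul_nonneg hW.le (by linarith [hT.s0])
    refine mul_le_mul_of_nonneg_left ?_ h5
    unfold th
    rw [← hcc]
    linarith
  | some j =>
    have hb : T.av b j := h
    have h1 : ∑ a : Fin T.K, n * T.mu * (T.tau a b * T.piAB a b (some j)) =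
        n * (T.mu * ∑ i ∈ T.act j, T.q i b j) := by
      rw [← sum_finK (T.act j) (ASL_act_sub _) (fun i => T.q i b j), mul_sum, mul_sum]
      refine sum_congr rfl fun a _ => ?_
      have h2 : T.tau a b * T.piAB a b (some j) =
          if (a : ℕ) ∈ T.act j then T.q a b j else 0 := by
        show T.tau a b * (if (j : ℕ) ∈ T.E a then T.q a b j / T.tau a b else 0) = _
        by_cases h2 : (j : ℕ) ∈ T.E a
        · rw [if_pos h2, if_pos ((ASL_act j.2).2 h2)]
          exact ASL_tau_mul hT a b (T.q a b j)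
        · rw [if_neg h2, if_neg (fun h3 => h2 ((ASL_act j.2).1 h3)), mul_zero]
      rw [h2, mul_assoc]
    have h2 : ∑ b', n * T.h / T.R * T.piBB b b' (some j) ≤
        n / T.x * (2 * T.h / (1 - 0.3 * T.c)) := by
      have hp : 0 < 1 - 0.3 * T.c := by norm_num at hc1 ⊢; linarith
      have h3 : ∀ b' ∈ (univ : Finset (Bool × Fin T.R)), n * T.h / T.R * T.piBB b b' (some j) ≤
          n * T.h / T.R * (T.x * (1 - 0.3 * T.c))⁻¹ := by
        intro b' _
        refine mul_le_mul_of_nonneg_left ?_ (by positivity)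
        show (if (j : ℕ) ∈ T.AA b b' then ((T.AA b b').card : ℝ)⁻¹ else 0) ≤ _
        split_ifs
        · exact inv_anti₀ (mul_pos hx hp) (AA_lo hT b b')
        · exact inv_nonneg.2 (mul_pos hx hp).le
      refine (sum_le_sum h3).trans (le_of_eq ?_)
      rw [sum_const, card_univ, Fintype.card_prod, Fintype.card_bool, Fintype.card_fin,
        nsmul_eq_mul]
      push_cast
      rw [mul_inv]
      field_simp
    have h3 := mul_le_mul_of_nonneg_left (q_load hT j.2 hb) hn.le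
    rw [h1]
    refine (add_le_add h3 h2).trans ?_
    have h4 : (n : ℝ) * ((T.th * (1 + T.c / 10 ^ 5) + 0.567 * T.c) / T.x) =
        n / T.x * (T.th * (1 + T.c / 10 ^ 5) + 0.567 * T.c) := by ring
    rw [h4, hnx, ← mul_add]
    show _ ≤ (W : ℝ) * (1 - c / 10)
    refine mul_le_mul_of_nonneg_left ?_ hW.le
    rw [← hcc]
    have h5 : 2 * T.h / (1 - 0.3 * T.c) ≤ 0.2501 * T.c := by
      have hp : 0 < 1 - 0.3 * T.c := by norm_num at hc1 ⊢; linarith
      rw [div_le_iff₀ hp]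
      have hh8 : T.h = T.c / 8 := rfl
      rw [hh8]
      norm_num at hc1 ⊢
      nlinarith
    have h6 : T.th * (1 + T.c / 10 ^ 5) ≤ 1 - T.c + T.c / 10 ^ 5 := by
      unfold th
      have : 0 ≤ T.c * (T.c / 10 ^ 5) := by positivity
      nlinarith
    norm_num at h5 h6 ⊢
    linarith

end Par

end Pool.Agent.H98.HVB
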