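import Pool.Agent.H98.HVB.ASA
import Pool.Agent.H98.HVB.ASB
import Pool.Agent.H98.HVB.ASC
import Pool.Agent.H98.HVB.ASL

/-!
# ASF: the schedule is good (assembly)
-/

set_option autoImplicit false
set_option linter.unusedVariables false

namespace Pool.Agent.H98.HVB

open Finset Pool.Agent.H2.HV

namespace Par

variable {T : Par} {n W S z : ℕ} {c : ℝ}

theorem toMS_ok (hT : T.Ok) (hr : Rel T n W S z c) (hR : 0 < T.R) :
    (T.toMS hR n).Ok n W S z c where
  M_pos := as_pos hT hr hR
  M_sum := as_sum hT hr hR
  M_A := as_MA hT hr hR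
  M_B := fun b => rfl
  be_lo := by
    have h := (as_be hT hr hR).1
    have hW : (0 : ℝ) ≤ W := Nat.cast_nonneg W
    linarith
  be_hi := (as_be hT hr hR).2
  symm := as_symm hR
  nonneg := as_nonneg hT hR
  sum_one := as_sum_one hT hR
  pi_le := as_pi_le hT hr hR
  pi_star_le := as_star_le hT hr hR
  sup := as_sup hT hR
  st_A := fun a => trivial
  tight := as_tight hT hr hR
  slack := as_slack hT hr hR
  low := as_low hT hr hR
  mid_el := fun a j h => h.1
  mid_card := as_mid hT hr hR
  hub := as_hub hT hr hR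
  card_le := as_card hT hr
  cardJ := as_J hT hr

end Par

end Pool.Agent.H98.HVB
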