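import Pool.Agent.H98.HVB.PAR

/-!
# CBA: units and excluded blocks

* `isU_unique`, `exists_isU`: the unit of `i` is `(decide (2 i < K), i % R)`.
* `card_U`: the `i < K` with `i % R = r` are at most `K / R + 1` (`Nat.count_modEq_card` or the injection `i ↦ i / R` into `range (K / R + 1)`).
* `exc_card`: `exc b` is contained in the union over `i` in this set of `{i, i + P - 1, i + P}`, so `#exc ≤ 3 (K/R + 1)`, `K/R ≤ x · 65/(c x) = 65/c` (`K_hi`, `R_lo`), `3 (65/c + 1) ≤ 200/c`.
* `en_disj`: if `i ≠ i'`, `en i j`, `en i' j`, then `|i - i'| ∈ {1, P - 1, P}`; but `i ≡ i' mod R`, `R ≥ 1000`, `P = 128 R + t` with `2 ≤ t ≤ 129` (`R1`, `R2`), so `1`, `P - 1`, `P` are not divisible by `R`.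
* `bad_card`: if `j ∈ exc b` then `b` is the unit of one of the three numbers `i` with `en i j`, i.e. `i ∈ {j, j + 1 - P, j - P}`; so at most three `b`.
-/

set_option autoImplicit false
set_option linter.unusedVariables false

namespace Pool.Agent.H98.HVB

open Finset

namespace Par

variable {T : Par}

theorem isU_unique {i : ℕ} {b b' : Bool × Fin T.R} (h : T.isU i b) (h' : T.isU i b') : b = b' := by
  obtain ⟨h1, h2⟩ := h
  obtain ⟨h3, h4⟩ := h'
  exact Prod.ext (h1.trans h3.symm) (Fin.ext (h2.trans h4.symm))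

theorem exists_isU (hT : T.Ok) (i : ℕ) : ∃ b, T.isU i b := by
  have hR := R_pos hT
  exact ⟨(decide (2 * i < T.K), ⟨i % T.R, Nat.mod_lt _ (by omega)⟩), rfl, rfl⟩

theorem card_U (hT : T.Ok) (b : Bool × Fin T.R) :
    (((range T.K).filter (fun i => T.isU i b)).card : ℝ) ≤ T.K / T.R + 1 := by
  have hR := R_pos hT
  have h1 : ((range T.K).filter (fun i => T.isU i b)).card ≤ (range (T.K / T.R + 1)).card := by
    refine card_le_card_of_injOn (fun i => i / T.R) ?_ ?_
    · intro i hi
      rw [coe_filter] at hi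
      obtain ⟨hi1, -⟩ := hi
      rw [Finset.mem_range] at hi1
      rw [coe_range, Set.mem_Iio]
      exact Nat.lt_succ_of_le (Nat.div_le_div_right hi1.le)
    · intro i hi i' hi' hii
      rw [coe_filter] at hi hi'
      obtain ⟨-, -, h2⟩ := hi
      obtain ⟨-, -, h3⟩ := hi'
      have h4 : i / T.R = i' / T.R := hii
      rw [← Nat.div_add_mod i T.R, ← Nat.div_add_mod i' T.R, h4, ← h2, ← h3]
  rw [card_range] at h1
  calc (((range T.K).filter (fun i => T.isU i b)).card : ℝ) ≤ ((T.K / T.R + 1 : ℕ) : ℝ) := by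
        exact_mod_cast h1
    _ = ((T.K / T.R : ℕ) : ℝ) + 1 := by push_cast; ring
    _ ≤ T.K / T.R + 1 := by
        have := Nat.cast_div_le (m := T.K) (n := T.R) (α := ℝ)
        linarith

theorem exc_card (hT : T.Ok) (b : Bool × Fin T.R) : ((T.exc b).card : ℝ) ≤ 200 / T.c := by
  have hc := hT.c0
  have hx := x_ge hT
  have hsub : T.exc b ⊆ ((range T.K).filter (fun i => T.isU i b)).biUnion
      (fun i => ({i, i + T.P - 1, i + T.P} : Finset ℕ)) := by
    intro j hj
    unfold exc at hj
    rw [mem_filter] at hj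
    obtain ⟨-, i, hi, hU, he⟩ := hj
    rw [mem_biUnion]
    refine ⟨i, mem_filter.mpr ⟨hi, hU⟩, ?_⟩
    simp only [mem_insert, mem_singleton]
    rcases he with h | h | h
    · exact Or.inl h
    · exact Or.inr (Or.inl (by omega))
    · exact Or.inr (Or.inr h)
  have h1 : (T.exc b).card ≤ ((range T.K).filter (fun i => T.isU i b)).card * 3 :=
    (card_le_card hsub).trans (card_biUnion_le_card_mul _ _ _ fun i _ => card_le_three)
  have h2 := card_U hT b
  have hRlo := R_lo hT
  have hK := K_hi hT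
  have hcx : 0 < T.c * T.x := mul_pos hc (by linarith)
  have hRpos : (0 : ℝ) < T.R := lt_of_lt_of_le (by positivity) hRlo
  have h3 : (T.K : ℝ) / T.R ≤ 65 / T.c := by
    rw [div_le_div_iff₀ hRpos hc]
    have h4 : T.c * T.x ≤ 65 * T.R := by linarith
    have h5 : (T.K : ℝ) * T.c ≤ T.x * T.c := mul_le_mul_of_nonneg_right (by linarith) hc.le
    linarith
  have h6 : ((T.exc b).card : ℝ) ≤ (((range T.K).filter (fun i => T.isU i b)).card : ℝ) * 3 := by
    exact_mod_cast h1
  have h7 : (3 : ℝ) ≤ 5 / T.c := by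
    rw [le_div_iff₀ hc]
    have := hT.c1
    linarith
  have h8 : 200 / T.c = 3 * (65 / T.c) + 5 / T.c := by
    field_simp
    norm_num
  rw [h8]
  linarith

theorem CBA_nd (hT : T.Ok) {m : ℕ} (hm : T.R ∣ m) (h : m = 1 ∨ m + 1 = T.P ∨ m = T.P) : False := by
  have hR := R_pos hT
  have h1 := hT.R1
  have h2 := hT.R2
  obtain ⟨q, rfl⟩ := hm
  rcases h with h | h | h
  · have := Nat.le_of_dvd (by norm_num) (Dvd.intro q h)
    omega
  · rcases le_or_gt q 128 with hq | hq
    · have := Nat.mul_le_mul_left T.R hq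
      omega
    · have := Nat.mul_le_mul_left T.R (show 129 ≤ q from hq)
      omega
  · rcases le_or_gt q 128 with hq | hq
    · have := Nat.mul_le_mul_left T.R hq
      omega
    · have := Nat.mul_le_mul_left T.R (show 129 ≤ q from hq)
      omega

theorem CBA_dvd {i i' R m : ℕ} (h : i % R = i' % R) (hm : i = i' + m) : R ∣ m := by
  have h1 : i' ≡ i [MOD R] := h.symm
  have h2 := (Nat.modEq_iff_dvd' (by omega : i' ≤ i)).mp h1
  have h3 : i - i' = m := by omega
  rwa [h3] at h2

theorem CBA_aux (hT : T.Ok) {i i' j : ℕ} (h : i % T.R = i' % T.R) (hlt : i' < i)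
    (hj : T.en i j) (hj' : T.en i' j) : False := by
  have hd : T.R ∣ i - i' := CBA_dvd (m := i - i') h (by omega)
  refine CBA_nd hT hd ?_
  rcases hj with h1 | h1 | h1 <;> rcases hj' with h2 | h2 | h2 <;> omega

theorem en_disj (hT : T.Ok) {i i' j : ℕ} {b : Bool × Fin T.R} (h : T.isU i b) (h' : T.isU i' b)
    (hj : T.en i j) (hj' : T.en i' j) : i = i' := by
  have hmod : i % T.R = i' % T.R := h.2.symm.trans h'.2
  rcases lt_trichotomy i i' with hlt | heq | hlt
  · exact (CBA_aux hT hmod.symm hlt hj' hj).elim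
  · exact heq
  · exact (CBA_aux hT hmod hlt hj hj').elim

theorem bad_card (hT : T.Ok) (j : ℕ) :
    ((univ : Finset (Bool × Fin T.R)).filter (fun b => j ∈ T.exc b)).card ≤ 3 := by
  classical
  have hR := R_pos hT
  have hsub : (univ : Finset (Bool × Fin T.R)).filter (fun b => j ∈ T.exc b) ⊆
      ({j, j + 1 - T.P, j - T.P} : Finset ℕ).image (fun i =>
        ((decide (2 * i < T.K), ⟨i % T.R, Nat.mod_lt _ (by omega)⟩) : Bool × Fin T.R)) := by
    intro b hb
    rw [mem_filter] at hb
    obtain ⟨-, hb⟩ := hb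
    unfold exc at hb
    rw [mem_filter] at hb
    obtain ⟨-, i, hi, hU, he⟩ := hb
    rw [mem_image]
    refine ⟨i, ?_, isU_unique (i := i) ⟨rfl, rfl⟩ hU⟩
    simp only [mem_insert, mem_singleton]
    rcases he with h | h | h
    · exact Or.inl h.symm
    · exact Or.inr (Or.inl (by omega))
    · exact Or.inr (Or.inr (by omega))
  exact (card_le_card hsub).trans (card_image_le.trans card_le_three)

end Par

end Pool.Agent.H98.HVB
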