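import Pool.Agent.H98.HVB.PAR

/-!
# CNT: counting classes and zones

`zn j = {i < K : i ≤ j ≤ i + P}`, `Z i = {j < K + P : i ≤ j ≤ i + P}`.
* `card_Z`: for `i < K` it is the interval `[i, i+P]`, `i + P < K + P`.  `card_E`: complement in `range (K+P)`.
* `card_act_add`: filter and its complement.  `card_zn_le`: `zn j ⊆ [j - P, j]` (at most `P + 1` numbers).
* `card_zn_pos`: `i = j` if `j < K`, else `i = K - 1`.  `card_zn_lo`: `zn j ⊆ [0, j]`.  `card_zn_hi`: `zn j ⊆ [j - P, K - 1]`.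
* `sum_zn`: double counting of pairs `(i, j)`, `i < K`, `j < J`, `zone i j` (`Finset.sum_card_bipartiteAbove_eq_sum_card_bipartiteBelow` or `Finset.sum_comm`).
* `sum_d`: `∑ (P + 1 - cnt j) = (K + P)(P + 1) - K (P + 1) = P (P + 1)`.
* `d_nonneg`, `d_le`: from `card_zn_le`, `card_zn_pos`, `k > 0` (`k_pos`).
* `swap`: exchange the sums: `∑_{i ∈ Q} ∑_{j ∈ Z i} f j = ∑_{j < J} #(Q ∩ zn j) f j`.
* `sum_d_zone`: `swap` with `f = d`, `#(Q ∩ zn j) ≤ P + 1`, `sum_d`.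
* `sum_sq`: `∑_{i,i' ∈ Q} #(Z i ∩ Z i') = ∑_{j<J} #(Q ∩ zn j)^2 ≤ (P+1) ∑_j #(zn j) = (P+1) K (P+1)`.
* `sum_one`: `∑_{i' ∈ Q} #(Z i ∩ Z i') = ∑_{j ∈ Z i} #(Q ∩ zn j) ≤ (P+1)(P+1)`.
-/

set_option autoImplicit false
set_option linter.unusedVariables false

namespace Pool.Agent.H98.HVB

open Finset

namespace Par

variable {T : Par}

theorem CNT_mem_Z {i j : ℕ} : j ∈ T.Z i ↔ j < T.J ∧ i ≤ j ∧ j ≤ i + T.P := by
  have h : j ∈ T.Z i ↔ j ∈ range T.J ∧ T.zone i j := by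
    unfold Z
    exact Finset.mem_filter
  rw [h, Finset.mem_range]
  exact Iff.rfl

theorem CNT_mem_zn {i j : ℕ} : i ∈ T.zn j ↔ i < T.K ∧ i ≤ j ∧ j ≤ i + T.P := by
  have h : i ∈ T.zn j ↔ i ∈ range T.K ∧ T.zone i j := by
    unfold zn
    exact Finset.mem_filter
  rw [h, Finset.mem_range]
  exact Iff.rfl

theorem CNT_Z_eq {i : ℕ} (hi : i < T.K) : T.Z i = Finset.Icc i (i + T.P) := by
  ext j
  rw [CNT_mem_Z, Finset.mem_Icc]
  unfold J
  omega

theorem card_Z {i : ℕ} (hi : i < T.K) : (T.Z i).card = T.P + 1 := by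
  rw [CNT_Z_eq hi, Nat.card_Icc]
  omega

theorem card_E (hT : T.Ok) {i : ℕ} (hi : i < T.K) : (T.E i).card = T.K - 1 := by
  have h1 := Finset.card_filter_add_card_filter_not (s := range T.J) (fun j => T.zone i j)
  rw [Finset.card_range] at h1
  have h2 : (T.Z i).card + (T.E i).card = T.J := h1
  rw [card_Z hi] at h2
  unfold J at h2
  omega

theorem card_act_add (j : ℕ) : (T.act j).card + (T.zn j).card = T.K := by
  have h1 := Finset.card_filter_add_card_filter_not (s := range T.K) (fun i => T.zone i j)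
  rw [Finset.card_range] at h1
  have h2 : (T.zn j).card + (T.act j).card = T.K := h1
  omega

theorem card_zn_le (j : ℕ) : (T.zn j).card ≤ T.P + 1 := by
  have h1 : T.zn j ⊆ Finset.Icc (j - T.P) j := by
    intro i hi
    rw [CNT_mem_zn] at hi
    rw [Finset.mem_Icc]
    omega
  have h2 := Finset.card_le_card h1
  rw [Nat.card_Icc] at h2
  omega

theorem card_zn_pos (hT : T.Ok) {j : ℕ} (hj : j < T.J) : 1 ≤ (T.zn j).card := by
  have hK := PK hT
  unfold J at hj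
  rw [Nat.succ_le_iff, Finset.card_pos]
  by_cases h : j < T.K
  · exact ⟨j, CNT_mem_zn.2 ⟨h, le_refl _, by omega⟩⟩
  · exact ⟨T.K - 1, CNT_mem_zn.2 ⟨by omega, by omega, by omega⟩⟩

theorem card_zn_lo (j : ℕ) : (T.zn j).card ≤ j + 1 := by
  have h1 : T.zn j ⊆ range (j + 1) := by
    intro i hi
    rw [CNT_mem_zn] at hi
    rw [Finset.mem_range]
    omega
  have h2 := Finset.card_le_card h1
  rwa [Finset.card_range] at h2

theorem card_zn_hi {j : ℕ} (hj : j < T.J) : (T.zn j).card + j ≤ T.J := by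
  have h1 : T.zn j ⊆ Finset.Ico (j - T.P) T.K := by
    intro i hi
    rw [CNT_mem_zn] at hi
    rw [Finset.mem_Ico]
    omega
  have h2 := Finset.card_le_card h1
  rw [Nat.card_Ico] at h2
  unfold J at hj ⊢
  omega

theorem k_le_act (j : ℕ) : T.k ≤ (T.act j).card := by
  have h1 : ((T.act j).card : ℝ) + ((T.zn j).card : ℝ) = T.K := by
    exact_mod_cast card_act_add j
  have h2 : ((T.zn j).card : ℝ) ≤ (T.P : ℝ) + 1 := by exact_mod_cast card_zn_le j
  unfold k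
  linarith

theorem sum_zn : ∑ j ∈ range T.J, (T.zn j).card = T.K * (T.P + 1) := by
  have h1 : ∀ j, (T.zn j).card = ∑ i ∈ range T.K, if T.zone i j then 1 else 0 := by
    intro j
    unfold zn
    rw [Finset.card_filter]
  rw [Finset.sum_congr rfl fun j _ => h1 j, Finset.sum_comm]
  have h2 : ∀ i ∈ range T.K, (∑ j ∈ range T.J, if T.zone i j then 1 else 0) = T.P + 1 := by
    intro i hi
    rw [← card_Z (Finset.mem_range.1 hi)]
    unfold Z
    rw [Finset.card_filter]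
  rw [Finset.sum_congr rfl h2, Finset.sum_const, Finset.card_range, smul_eq_mul]

theorem sum_d (hT : T.Ok) : ∑ j ∈ range T.J, T.d j = T.P * (T.P + 1) / T.k := by
  unfold d
  rw [← Finset.sum_div, Finset.sum_sub_distrib, Finset.sum_const, Finset.card_range, nsmul_eq_mul]
  have h1 : ∑ j ∈ range T.J, ((T.zn j).card : ℝ) = T.K * (T.P + 1) := by
    exact_mod_cast congrArg (fun x : ℕ => (x : ℝ)) (sum_zn (T := T))
  rw [h1]
  congr 1
  unfold J
  push_cast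
  ring

theorem CNT_k0 (hT : T.Ok) : 0 < T.k := lt_of_lt_of_le (by positivity) (k_pos hT)

theorem d_nonneg (hT : T.Ok) (j : ℕ) : 0 ≤ T.d j := by
  have h2 : ((T.zn j).card : ℝ) ≤ (T.P : ℝ) + 1 := by exact_mod_cast card_zn_le j
  exact div_nonneg (by linarith) (CNT_k0 hT).le

theorem d_le (hT : T.Ok) {j : ℕ} (hj : j < T.J) : T.d j ≤ T.P / T.k := by
  have h2 : (1 : ℝ) ≤ ((T.zn j).card : ℝ) := by exact_mod_cast card_zn_pos hT hj
  exact div_le_div_of_nonneg_right (by linarith) (CNT_k0 hT).le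

theorem CNT_inter {Q : Finset ℕ} (hQ : Q ⊆ range T.K) (j : ℕ) :
    Q ∩ T.zn j = Q.filter (fun i => T.zone i j) := by
  ext i
  unfold zn
  rw [Finset.mem_inter, Finset.mem_filter, Finset.mem_filter]
  exact ⟨fun h => ⟨h.1, h.2.2⟩, fun h => ⟨h.1, hQ h.1, h.2⟩⟩

theorem swap {Q : Finset ℕ} (hQ : Q ⊆ range T.K) (f : ℕ → ℝ) :
    ∑ i ∈ Q, ∑ j ∈ T.Z i, f j = ∑ j ∈ range T.J, ((Q ∩ T.zn j).card : ℝ) * f j := by
  have h1 : ∀ i ∈ Q, ∑ j ∈ T.Z i, f j = ∑ j ∈ range T.J, if T.zone i j then f j else 0 := by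
    intro i _
    unfold Z
    rw [Finset.sum_filter]
  rw [Finset.sum_congr rfl h1, Finset.sum_comm]
  refine Finset.sum_congr rfl fun j _ => ?_
  rw [CNT_inter hQ, ← Finset.sum_filter, Finset.sum_const, nsmul_eq_mul]

theorem CNT_card {Q : Finset ℕ} (j : ℕ) : ((Q ∩ T.zn j).card : ℝ) ≤ (T.P : ℝ) + 1 := by
  have h1 : (Q ∩ T.zn j).card ≤ T.P + 1 :=
    (Finset.card_le_card Finset.inter_subset_right).trans (card_zn_le j)
  exact_mod_cast h1

theorem sum_d_zone (hT : T.Ok) {Q : Finset ℕ} (hQ : Q ⊆ range T.K) :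
    ∑ i ∈ Q, ∑ j ∈ T.Z i, T.d j ≤ (T.P + 1) * (T.P * (T.P + 1) / T.k) := by
  rw [swap hQ, ← sum_d hT, Finset.mul_sum]
  exact Finset.sum_le_sum fun j _ => mul_le_mul_of_nonneg_right (CNT_card j) (d_nonneg hT j)

theorem CNT_one {Q : Finset ℕ} (hQ : Q ⊆ range T.K) (i : ℕ) :
    ∑ i' ∈ Q, ((T.Z i ∩ T.Z i').card : ℝ) = ∑ j ∈ T.Z i, ((Q ∩ T.zn j).card : ℝ) := by
  have h1 : ∀ i' ∈ Q, ((T.Z i ∩ T.Z i').card : ℝ) =
      ∑ j ∈ T.Z i', if j ∈ T.Z i then (1 : ℝ) else 0 := by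
    intro i' _
    rw [Finset.sum_boole, Finset.inter_comm, Finset.filter_mem_eq_inter]
  rw [Finset.sum_congr rfl h1, swap hQ]
  have h2 : ∀ j ∈ range T.J, ((Q ∩ T.zn j).card : ℝ) * (if j ∈ T.Z i then (1 : ℝ) else 0) =
      if j ∈ T.Z i then ((Q ∩ T.zn j).card : ℝ) else 0 := by
    intro j _
    rw [mul_ite, mul_one, mul_zero]
  rw [Finset.sum_congr rfl h2, ← Finset.sum_filter, Finset.filter_mem_eq_inter]
  have h3 : range T.J ∩ T.Z i = T.Z i := by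
    refine Finset.inter_eq_right.2 ?_
    unfold Z
    exact Finset.filter_subset _ _
  rw [h3]

theorem sum_sq {Q : Finset ℕ} (hQ : Q ⊆ range T.K) :
    ∑ i ∈ Q, ∑ i' ∈ Q, ((T.Z i ∩ T.Z i').card : ℝ) ≤ T.K * (T.P + 1) ^ 2 := by
  rw [Finset.sum_congr rfl fun i _ => CNT_one hQ i, swap hQ]
  have h1 : ∀ j ∈ range T.J, ((Q ∩ T.zn j).card : ℝ) * ((Q ∩ T.zn j).card : ℝ) ≤
      ((T.P : ℝ) + 1) * ((T.zn j).card : ℝ) := by
    intro j _
    refine mul_le_mul (CNT_card j) ?_ (Nat.cast_nonneg _) (by positivity)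
    exact_mod_cast Finset.card_le_card Finset.inter_subset_right
  refine (Finset.sum_le_sum h1).trans (le_of_eq ?_)
  have h2 : ∑ j ∈ range T.J, ((T.zn j).card : ℝ) = T.K * (T.P + 1) := by
    exact_mod_cast congrArg (fun x : ℕ => (x : ℝ)) (sum_zn (T := T))
  rw [← Finset.mul_sum, h2]
  ring

theorem sum_one {Q : Finset ℕ} (hQ : Q ⊆ range T.K) {i : ℕ} (hi : i < T.K) :
    ∑ i' ∈ Q, ((T.Z i ∩ T.Z i').card : ℝ) ≤ (T.P + 1) ^ 2 := by
  rw [CNT_one hQ i]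
  refine (Finset.sum_le_sum fun j _ => CNT_card j).trans (le_of_eq ?_)
  rw [Finset.sum_const, card_Z hi, nsmul_eq_mul]
  push_cast
  ring

end Par

end Pool.Agent.H98.HVB
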