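import Pool.Agent.H98.HVB.CBA
import Pool.Agent.H98.HVB.CNT

/-!
# CBB: numbers of available slack classes and blocks

* `sd_one`: for `j < J` at least one side is available; both iff `s j = 2` (`jL_J`).
* `BB_lo`, `BB_hi`: the number of `b` with `sd b.1 j` is `s j * R` (`R` for every available side); at most three of them are excluded (`bad_card`).
* `mid_card`: the blocks `j` with `jL ≤ j`, `j + jL < J`, `j` not in the zone of `i`: at least `J - 2 jL - (P + 1) = K - 1 - 2 jL`; minus `exc b`, `exc b'` (`exc_card`: `≤ 200/c` each,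
  `400/c ≤ 4e-6 c x` since `c² x ≥ 1e8`): `x - 4 - 2.2552 c x - 4e-6 c x ≥ x (1 - 2.3 c)`.
* `AA_lo`: without the zone: `J - 2 jL - 400/c ≥ x - 3 + 2 c x - 2.2552 c x - 4e-6 c x ≥ x (1 - 0.3 c)` (`P1`).
* `hub_lo`: some side `σ` is available at `j0` (`sd_one`), it is available at `j` (`j` is in the middle); the `R` classes of this side minus at most `3 + 3` excluded at `j0` or `j`.
* `hub_s`: the `R` classes of the side `true` minus at most three.
-/

set_option autoImplicit false
set_option linter.unusedVariables false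

namespace Pool.Agent.H98.HVB

open Finset

namespace Par

variable {T : Par}

theorem CBB_t (j : ℕ) : T.sd true j ↔ j + T.jL < T.J := by
  unfold sd
  rw [if_pos rfl]

theorem CBB_f (j : ℕ) : T.sd false j ↔ T.jL ≤ j := by
  unfold sd
  rw [if_neg (by simp)]

theorem CBB_mid {j : ℕ} (h1 : T.jL ≤ j) (h2 : j + T.jL < T.J) (s : Bool) : T.sd s j := by
  cases s
  · exact (CBB_f j).2 h1
  · exact (CBB_t j).2 h2

theorem sd_one (hT : T.Ok) {j : ℕ} (hj : j < T.J) : T.sd true j ∨ T.sd false j := by
  rw [CBB_t, CBB_f]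
  have h := jL_J hT
  omega

theorem sd_two (hT : T.Ok) {j : ℕ} (hj : j < T.J) : (T.sd true j ∧ T.sd false j) ↔ T.s j = 2 := by
  rw [CBB_t, CBB_f]
  unfold s
  constructor
  · rintro ⟨h1, h2⟩
    rw [if_pos ⟨h2, h1⟩]
  · intro h
    by_contra hc
    rw [if_neg (fun h3 => hc ⟨h3.2, h3.1⟩)] at h
    norm_num at h

theorem CBB_side (hT : T.Ok) {j : ℕ} (hj : j < T.J) :
    ((((univ : Finset (Bool × Fin T.R)).filter (fun b => T.sd b.1 j)).card : ℕ) : ℝ) =
      T.s j * T.R := by
  have h1 : ((univ : Finset (Bool × Fin T.R)).filter (fun b => T.sd b.1 j)) =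
      ((univ : Finset Bool).filter (fun s => T.sd s j)) ×ˢ (univ : Finset (Fin T.R)) := by
    ext b
    simp
  rw [h1, card_product, card_univ, Fintype.card_fin]
  push_cast
  congr 1
  have h2 := sd_one hT hj
  have h3 := sd_two hT hj
  by_cases ht : T.sd true j
  · by_cases hf : T.sd false j
    · rw [h3.1 ⟨ht, hf⟩]
      have h4 : ((univ : Finset Bool).filter (fun s => T.sd s j)) = univ := by
        ext s
        cases s <;> simp [ht, hf]
      rw [h4]
      simp
    · have h5 : T.s j = 1 := by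
        unfold s
        rw [if_neg]
        intro h6
        exact hf ((CBB_f j).2 h6.1)
      have h4 : ((univ : Finset Bool).filter (fun s => T.sd s j)) = {true} := by
        ext s
        cases s <;> simp [ht, hf]
      rw [h4, h5]
      simp
  · have hf : T.sd false j := h2.resolve_left ht
    have h5 : T.s j = 1 := by
      unfold s
      rw [if_neg]
      intro h6
      exact ht ((CBB_t j).2 h6.2)
    have h4 : ((univ : Finset Bool).filter (fun s => T.sd s j)) = {false} := by
      ext s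
      cases s <;> simp [ht, hf]
    rw [h4, h5]
    simp

theorem BB_lo (hT : T.Ok) {j : ℕ} (hj : j < T.J) : T.s j * T.R - 3 ≤ ((T.BB j).card : ℝ) := by
  classical
  rw [← CBB_side hT hj]
  have h1 : ((univ : Finset (Bool × Fin T.R)).filter (fun b => T.sd b.1 j)) ⊆
      T.BB j ∪ (univ : Finset (Bool × Fin T.R)).filter (fun b => j ∈ T.exc b) := by
    intro b hb
    rw [mem_filter] at hb
    rw [mem_union, mem_filter, BB, mem_filter]
    by_cases h : j ∈ T.exc b
    · exact Or.inr ⟨mem_univ _, h⟩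
    · exact Or.inl ⟨mem_univ _, hb.2, h⟩
  have h2 := (card_le_card h1).trans (card_union_le _ _)
  have h3 := bad_card hT j
  have h4 : (((univ : Finset (Bool × Fin T.R)).filter (fun b => T.sd b.1 j)).card : ℝ) ≤
      (T.BB j).card + 3 := by
    exact_mod_cast h2.trans (Nat.add_le_add_left h3 _)
  linarith

theorem BB_hi (hT : T.Ok) {j : ℕ} (hj : j < T.J) : ((T.BB j).card : ℝ) ≤ T.s j * T.R := by
  rw [← CBB_side hT hj]
  have h1 : T.BB j ⊆ ((univ : Finset (Bool × Fin T.R)).filter (fun b => T.sd b.1 j)) := by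
    intro b hb
    rw [BB, mem_filter] at hb
    rw [mem_filter]
    exact ⟨mem_univ _, hb.2.1⟩
  exact_mod_cast card_le_card h1

theorem CBB_num (hT : T.Ok) : 400 / T.c ≤ 4 / 10 ^ 6 * (T.c * T.x) := by
  have hc := hT.c0
  rw [div_le_iff₀ hc]
  have h1 := hT.x1
  nlinarith

theorem CBB_ico (hT : T.Ok) : ((Ico T.jL (T.J - T.jL)).card : ℝ) = T.K + T.P - 2 * T.jL := by
  have h := jL_J hT
  rw [Nat.card_Ico]
  have h1 : T.J - T.jL - T.jL = T.K + T.P - (T.jL + T.jL) := by
    unfold J
    omega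
  have h2 : T.jL + T.jL ≤ T.K + T.P := by
    unfold J at h
    omega
  rw [h1, Nat.cast_sub h2]
  push_cast
  ring

theorem CBB_av {b : Bool × Fin T.R} {j : ℕ} (h1 : T.jL ≤ j) (h2 : j + T.jL < T.J)
    (h3 : j ∉ T.exc b) : T.av b j := ⟨CBB_mid h1 h2 b.1, h3⟩

theorem MM_lo (hT : T.Ok) {i : ℕ} (hi : i < T.K) (b b' : Bool × Fin T.R) :
    T.x * (1 - 2.3 * T.c) ≤ ((T.MM i b b').card : ℝ) := by
  classical
  have h1 : Ico T.jL (T.J - T.jL) ⊆ T.MM i b b' ∪ (T.Z i ∪ (T.exc b ∪ T.exc b')) := by
    intro j hj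
    rw [mem_Ico] at hj
    have hj2 : j + T.jL < T.J := by omega
    simp only [mem_union]
    by_cases hz : T.zone i j
    · refine Or.inr (Or.inl ?_)
      rw [Z, mem_filter, mem_range]
      exact ⟨by omega, hz⟩
    · by_cases hb : j ∈ T.exc b
      · exact Or.inr (Or.inr (Or.inl hb))
      · by_cases hb' : j ∈ T.exc b'
        · exact Or.inr (Or.inr (Or.inr hb'))
        · refine Or.inl ?_
          rw [MM, mem_filter, E, mem_filter, mem_range]
          exact ⟨⟨by omega, hz⟩, hj.1, hj2, CBB_av hj.1 hj2 hb, CBB_av hj.1 hj2 hb'⟩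
  have h2 := (card_le_card h1).trans ((card_union_le _ _).trans (Nat.add_le_add_left
    ((card_union_le _ _).trans (Nat.add_le_add_left (card_union_le _ _) _)) _))
  rw [card_Z hi] at h2
  have h3 : ((Ico T.jL (T.J - T.jL)).card : ℝ) ≤
      (T.MM i b b').card + ((T.P + 1) + ((T.exc b).card + (T.exc b').card)) := by
    exact_mod_cast h2
  rw [CBB_ico hT] at h3
  have h4 := exc_card hT b
  have h5 := exc_card hT b'
  have h6 := CBB_num hT
  have h7 := K_lo hT
  have h8 := jL_hi hT
  have h9 := cx_ge hT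
  have h10 : 400 / T.c = 200 / T.c + 200 / T.c := by ring
  linarith

theorem AA_lo (hT : T.Ok) (b b' : Bool × Fin T.R) :
    T.x * (1 - 0.3 * T.c) ≤ ((T.AA b b').card : ℝ) := by
  classical
  have h1 : Ico T.jL (T.J - T.jL) ⊆ T.AA b b' ∪ (T.exc b ∪ T.exc b') := by
    intro j hj
    rw [mem_Ico] at hj
    have hj2 : j + T.jL < T.J := by omega
    simp only [mem_union]
    by_cases hb : j ∈ T.exc b
    · exact Or.inr (Or.inl hb)
    · by_cases hb' : j ∈ T.exc b'
      · exact Or.inr (Or.inr hb')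
      · refine Or.inl ?_
        rw [AA, mem_filter, mem_range]
        exact ⟨by omega, CBB_av hj.1 hj2 hb, CBB_av hj.1 hj2 hb'⟩
  have h2 := (card_le_card h1).trans ((card_union_le _ _).trans
    (Nat.add_le_add_left (card_union_le _ _) _))
  have h3 : ((Ico T.jL (T.J - T.jL)).card : ℝ) ≤
      (T.AA b b').card + ((T.exc b).card + (T.exc b').card) := by
    exact_mod_cast h2
  rw [CBB_ico hT] at h3
  have h4 := exc_card hT b
  have h5 := exc_card hT b'
  have h6 := CBB_num hT
  have h7 := K_lo hT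
  have h8 := jL_hi hT
  have h9 := cx_ge hT
  have h11 := hT.P1
  have h10 : 400 / T.c = 200 / T.c + 200 / T.c := by ring
  linarith

theorem CBB_cardS (s : Bool) :
    ((univ : Finset (Bool × Fin T.R)).filter (fun b => b.1 = s)).card = T.R := by
  have h1 : ((univ : Finset (Bool × Fin T.R)).filter (fun b => b.1 = s)) =
      ({s} : Finset Bool) ×ˢ (univ : Finset (Fin T.R)) := by
    ext b
    rw [mem_filter, mem_product, mem_singleton]
    exact ⟨fun h => ⟨h.2, mem_univ _⟩, fun h => ⟨mem_univ _, h.1⟩⟩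
  rw [h1, card_product, card_univ, Fintype.card_fin, card_singleton, one_mul]

theorem hub_lo (hT : T.Ok) {j0 j : ℕ} (hj0 : j0 < T.J) (h1 : T.jL ≤ j) (h2 : j + T.jL < T.J) :
    T.R ≤ ((univ : Finset (Bool × Fin T.R)).filter (fun b => T.av b j0 ∧ T.av b j)).card + 6 := by
  classical
  obtain ⟨σ, hσ⟩ : ∃ σ, T.sd σ j0 := by
    rcases sd_one hT hj0 with h | h
    · exact ⟨true, h⟩
    · exact ⟨false, h⟩
  have h3 : ((univ : Finset (Bool × Fin T.R)).filter (fun b => b.1 = σ)) ⊆
      ((univ : Finset (Bool × Fin T.R)).filter (fun b => T.av b j0 ∧ T.av b j)) ∪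
      ((univ : Finset (Bool × Fin T.R)).filter (fun b => j0 ∈ T.exc b) ∪
      (univ : Finset (Bool × Fin T.R)).filter (fun b => j ∈ T.exc b)) := by
    intro b hb
    rw [mem_filter] at hb
    simp only [mem_union]
    by_cases hb0 : j0 ∈ T.exc b
    · exact Or.inr (Or.inl (by rw [mem_filter]; exact ⟨mem_univ _, hb0⟩))
    · by_cases hb1 : j ∈ T.exc b
      · exact Or.inr (Or.inr (by rw [mem_filter]; exact ⟨mem_univ _, hb1⟩))
      · refine Or.inl ?_
        rw [mem_filter]
        refine ⟨mem_univ _, ⟨?_, hb0⟩, CBB_av h1 h2 hb1⟩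
        rw [hb.2]
        exact hσ
  have h4 := (card_le_card h3).trans ((card_union_le _ _).trans
    (Nat.add_le_add_left (card_union_le _ _) _))
  rw [CBB_cardS] at h4
  have h5 := bad_card hT j0
  have h6 := bad_card hT j
  omega

theorem hub_s (hT : T.Ok) {j : ℕ} (h1 : T.jL ≤ j) (h2 : j + T.jL < T.J) :
    T.R ≤ ((univ : Finset (Bool × Fin T.R)).filter (fun b => b.1 = true ∧ T.av b j)).card + 3 := by
  classical
  have h3 : ((univ : Finset (Bool × Fin T.R)).filter (fun b => b.1 = true)) ⊆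
      ((univ : Finset (Bool × Fin T.R)).filter (fun b => b.1 = true ∧ T.av b j)) ∪
      (univ : Finset (Bool × Fin T.R)).filter (fun b => j ∈ T.exc b) := by
    intro b hb
    rw [mem_filter] at hb
    simp only [mem_union]
    by_cases hb1 : j ∈ T.exc b
    · exact Or.inr (by rw [mem_filter]; exact ⟨mem_univ _, hb1⟩)
    · refine Or.inl ?_
      rw [mem_filter]
      exact ⟨mem_univ _, hb.2, CBB_av h1 h2 hb1⟩
  have h4 := (card_le_card h3).trans (card_union_le _ _)
  rw [CBB_cardS] at h4
  have h6 := bad_card hT j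
  omega

end Par

end Pool.Agent.H98.HVB
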