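import Pool.Agent.H98.HVB.RHO

/-!
# COR: the correction

* `MM_comm`: definition.  `cor_col`: `∑_b ∑_{b'} (e b - e b')/(2R) m(b,b')` with `m` symmetric is `0` (exchange `b` and `b'`).
* `cor_row`: `∑_{j ∈ E i}` of the `b'` term is `(e b - e b')/(2R)` (`MM ⊆ E i`, `#MM > 0` by `MM_lo`), and `∑_{b'} (e b - e b')/(2R) = e b` (`sum_e`, `card (Bool × Fin R) = 2R`).
* `cor_av`: if `¬ av b j` then `j ∉ MM i b b'`.
* `cor_hi`, `cor_lo`: let `m = 1/(x(1 - 2.3c))` (`MM_lo`), so every factor `1[j ∈ MM]/#MM ∈ [0, m]`.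
  `e b - e b' = (tau b - tau b') - (rho b - rho b')`, `tau b - tau b' ≤ zeta 1[b' = unit]`, `≥ - zeta 1[b = unit]`.
  Upper bound: `∑_{b'} max(0, e b - e b') ≤ zeta + R (c/1000) + R (1.129 c)` (`R` classes `b'` of the same side: `rho_same`; `R` of the other side: `rho_diff`), so
  `cor ≤ m (0.13/R + 0.565 c) ≤ 0.567 c/x` (`R ≥ c x/65`: `0.13/R ≤ 8.5/(c x) ≤ 1e-7 c`; `1/(1-2.3c) ≤ 1 + 2.4 c`).
  Lower bound for `¬ isU i b`: the same with signs.  Lower bound in general: `e b - e b' ≥ - 1/4 - 1.129 c`, so `cor ≥ - m (1/4 + 1.129 c) ≥ -0.27/x`.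
-/

set_option autoImplicit false
set_option linter.unusedVariables false

namespace Pool.Agent.H98.HVB

open Finset

namespace Par

variable {T : Par}

theorem MM_comm (i : ℕ) (b b' : Bool × Fin T.R) : T.MM i b b' = T.MM i b' b := by
  unfold MM
  ext j
  simp only [Finset.mem_filter]
  tauto

theorem cor_col (hT : T.Ok) (i j : ℕ) : ∑ b, T.cor i b j = 0 := by
  have h1 : ∑ b, T.cor i b j = - ∑ b, T.cor i b j := by
    conv_lhs => unfold cor
    rw [Finset.sum_comm, ← Finset.sum_neg_distrib]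
    refine Finset.sum_congr rfl fun b _ => ?_
    unfold cor
    rw [← Finset.sum_neg_distrib]
    refine Finset.sum_congr rfl fun b' _ => ?_
    rw [MM_comm i b' b]
    ring
  linarith

theorem COR_MM_sub (i : ℕ) (b b' : Bool × Fin T.R) : T.MM i b b' ⊆ T.E i := by
  unfold MM
  exact Finset.filter_subset _ _

theorem COR_m_pos (hT : T.Ok) : 0 < T.x * (1 - 2.3 * T.c) := by
  have h1 := x_ge hT
  have h2 := hT.c1
  have h3 : 0 < T.x := by linarith [show (0:ℝ) < 10 ^ 18 by norm_num]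
  have h4 : 0 < 1 - 2.3 * T.c := by
    have : T.c ≤ 1 / 10 ^ 5 := h2
    norm_num at this ⊢
    linarith
  positivity

theorem COR_MM_pos (hT : T.Ok) {i : ℕ} (hi : i < T.K) (b b' : Bool × Fin T.R) :
    0 < ((T.MM i b b').card : ℝ) := lt_of_lt_of_le (COR_m_pos hT) (MM_lo hT hi b b')

theorem COR_R_pos (hT : T.Ok) : 0 < (T.R : ℝ) := by
  have := R_pos hT
  have h : 0 < T.R := by omega
  exact_mod_cast h

theorem COR_sum_const (a : ℝ) : ∑ _b' : Bool × Fin T.R, a = 2 * T.R * a := by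
  rw [Finset.sum_const, Finset.card_univ, Fintype.card_prod, Fintype.card_bool, Fintype.card_fin,
    nsmul_eq_mul]
  push_cast
  ring

theorem cor_row (hT : T.Ok) {i : ℕ} (hi : i < T.K) (b : Bool × Fin T.R) :
    ∑ j ∈ T.E i, T.cor i b j = T.e i b := by
  unfold cor
  rw [Finset.sum_comm]
  have h1 : ∀ b' : Bool × Fin T.R, ∑ j ∈ T.E i, (T.e i b - T.e i b') / (2 * T.R) *
      (if j ∈ T.MM i b b' then ((T.MM i b b').card : ℝ)⁻¹ else 0) =
      (T.e i b - T.e i b') / (2 * T.R) := by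
    intro b'
    rw [← Finset.mul_sum, Finset.sum_ite_mem, Finset.inter_eq_right.mpr (COR_MM_sub i b b'),
      Finset.sum_const, nsmul_eq_mul, mul_inv_cancel₀ (COR_MM_pos hT hi b b').ne', mul_one]
  rw [Finset.sum_congr rfl (fun b' _ => h1 b'), ← Finset.sum_div, Finset.sum_sub_distrib,
    sum_e hT hi, COR_sum_const, sub_zero]
  have := COR_R_pos hT
  field_simp

theorem cor_av (i : ℕ) {b : Bool × Fin T.R} {j : ℕ} (h : ¬ T.av b j) : T.cor i b j = 0 := by
  unfold cor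
  apply Finset.sum_eq_zero
  intro b' _
  rw [if_neg, mul_zero]
  intro hj
  unfold MM at hj
  rw [Finset.mem_filter] at hj
  exact h hj.2.2.2.1

theorem COR_up (hT : T.Ok) {i : ℕ} (hi : i < T.K) (b : Bool × Fin T.R) (j : ℕ) (s : ℝ)
    (g : Bool × Fin T.R → ℝ) (hg0 : ∀ b', 0 ≤ g b')
    (hg : ∀ b', s * (T.e i b - T.e i b') ≤ g b') :
    s * T.cor i b j ≤ (∑ b', g b') / (2 * T.R) * (T.x * (1 - 2.3 * T.c))⁻¹ := by
  unfold cor
  rw [Finset.mul_sum, Finset.sum_div, Finset.sum_mul]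
  apply Finset.sum_le_sum
  intro b' _
  have hR := COR_R_pos hT
  have hm := COR_m_pos hT
  set t : ℝ := if j ∈ T.MM i b b' then ((T.MM i b b').card : ℝ)⁻¹ else 0 with ht
  have ht0 : 0 ≤ t := by
    rw [ht]; split_ifs
    · positivity
    · exact le_refl _
  have ht1 : t ≤ (T.x * (1 - 2.3 * T.c))⁻¹ := by
    rw [ht]; split_ifs
    · exact inv_anti₀ hm (MM_lo hT hi b b')
    · exact (inv_pos.mpr hm).le
  calc s * ((T.e i b - T.e i b') / (2 * T.R) * t) = (s * (T.e i b - T.e i b')) / (2 * T.R) * t := by ring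
    _ ≤ g b' / (2 * T.R) * t := by
        apply mul_le_mul_of_nonneg_right _ ht0
        apply div_le_div_of_nonneg_right (hg b') (by positivity)
    _ ≤ g b' / (2 * T.R) * (T.x * (1 - 2.3 * T.c))⁻¹ := by
        apply mul_le_mul_of_nonneg_left ht1
        have := hg0 b'
        positivity

/-- the bound for the difference of the rows -/
noncomputable def COR_D (T : Par) (b b' : Bool × Fin T.R) : ℝ := if b'.1 = b.1 then T.c / 1000 else 1.129 * T.c

theorem COR_D_nonneg (hT : T.Ok) (b b' : Bool × Fin T.R) : 0 ≤ COR_D T b b' := by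
  have := hT.c0
  unfold COR_D
  split_ifs <;> positivity

theorem COR_D_abs (hT : T.Ok) {i : ℕ} (hi : i < T.K) (b b' : Bool × Fin T.R) :
    |T.rho i b - T.rho i b'| ≤ COR_D T b b' := by
  unfold COR_D
  split_ifs with h
  · exact rho_same hT hi h.symm
  · exact rho_diff hT hi b b'

theorem COR_D_sum (b : Bool × Fin T.R) : ∑ b', COR_D T b b' = T.R * (T.c / 1000) + T.R * (1.129 * T.c) := by
  unfold COR_D
  rw [Fintype.sum_prod_type, Fintype.sum_bool]
  rcases b with ⟨b1, b2⟩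
  cases b1 <;> simp <;> ring

theorem COR_tau_le (hT : T.Ok) (i : ℕ) (b : Bool × Fin T.R) : T.tau i b ≤ 1 := by
  have := zeta_pos hT
  unfold tau
  split_ifs <;> linarith

theorem COR_tau_ge (hT : T.Ok) (i : ℕ) (b : Bool × Fin T.R) : 1 - T.zeta ≤ T.tau i b := by
  have := zeta_pos hT
  unfold tau
  split_ifs <;> linarith

theorem COR_unit_sum (hT : T.Ok) (i : ℕ) :
    ∑ b' : Bool × Fin T.R, (if T.isU i b' then T.zeta else 0) ≤ T.zeta := by
  have hz := zeta_pos hT
  rw [← Finset.sum_filter, Finset.sum_const, nsmul_eq_mul]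
  have h1 : (Finset.univ.filter (fun b' : Bool × Fin T.R => T.isU i b')).card ≤ 1 := by
    rw [Finset.card_le_one]
    intro a ha b hb
    rw [Finset.mem_filter] at ha hb
    exact isU_unique ha.2 hb.2
  have h2 : ((Finset.univ.filter (fun b' : Bool × Fin T.R => T.isU i b')).card : ℝ) ≤ 1 := by
    exact_mod_cast h1
  nlinarith

/-- `1 / R` is negligible -/
theorem COR_R_inv (hT : T.Ok) : (1 / 4 : ℝ) / (2 * T.R) ≤ 1 / 10 ^ 6 * T.c := by
  have h1 := R_lo hT
  have h2 := hT.x1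
  have hc := hT.c0
  have hR := COR_R_pos hT
  rw [div_le_iff₀ (by positivity)]
  have h3 : T.c * T.c * T.x / 65 ≤ T.c * T.R := by
    have := mul_le_mul_of_nonneg_left h1 hc.le
    calc T.c * T.c * T.x / 65 = T.c * (T.c * T.x / 65) := by ring
      _ ≤ _ := this
  have h4 : 10 ^ 8 ≤ T.c * T.c * T.x := by
    calc (10:ℝ) ^ 8 ≤ T.c ^ 2 * T.x := h2
      _ = T.c * T.c * T.x := by ring
  have h5 : (10 : ℝ) ^ 8 / 65 ≤ T.c * T.R := by linarith
  have h6 : (1 / 4 : ℝ) ≤ 1 / 10 ^ 6 * (2 * (10 ^ 8 / 65)) := by norm_num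
  calc (1 / 4 : ℝ) ≤ 1 / 10 ^ 6 * (2 * (10 ^ 8 / 65)) := h6
    _ ≤ 1 / 10 ^ 6 * (2 * (T.c * T.R)) := by
        have : (0:ℝ) < 1 / 10 ^ 6 := by norm_num
        nlinarith
    _ = 1 / 10 ^ 6 * T.c * (2 * T.R) := by ring

theorem COR_final (hT : T.Ok) {y A : ℝ} (hA : A * (1 - 2.3 * T.c) ≥ y) :
    y * (T.x * (1 - 2.3 * T.c))⁻¹ ≤ A / T.x := by
  have hm := COR_m_pos hT
  have hx : 0 < T.x := by
    have := x_ge hT
    linarith [show (0:ℝ) < 10 ^ 18 by norm_num]
  rw [← div_eq_mul_inv, div_le_div_iff₀ hm hx]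
  have := mul_le_mul_of_nonneg_right hA hx.le
  calc y * T.x ≤ A * (1 - 2.3 * T.c) * T.x := this
    _ = A * (T.x * (1 - 2.3 * T.c)) := by ring

theorem cor_hi (hT : T.Ok) {i : ℕ} (hi : i < T.K) (b : Bool × Fin T.R) (j : ℕ) :
    T.cor i b j ≤ 0.567 * T.c / T.x := by
  have hc := hT.c0
  have hc1 : T.c ≤ 1 / 10 ^ 5 := hT.c1
  have hz := zeta_pos hT
  have hz1 := zeta_le hT
  have hR := COR_R_pos hT
  have h1 := COR_up hT hi b j 1 (fun b' => (if T.isU i b' then T.zeta else 0) + COR_D T b b')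
    (by
      intro b'
      have := COR_D_nonneg hT b b'
      split_ifs <;> linarith)
    (by
      intro b'
      have h2 := (abs_le.mp (COR_D_abs hT hi b b')).1
      have h3 := COR_tau_le hT i b
      have h4 : 1 - (if T.isU i b' then T.zeta else 0) ≤ T.tau i b' := by
        unfold tau
        split_ifs <;> linarith
      unfold e
      linarith)
  rw [one_mul] at h1
  refine h1.trans ?_
  have h5 : (∑ b', ((if T.isU i b' then T.zeta else 0) + COR_D T b b')) / (2 * T.R) ≤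
      1 / 10 ^ 6 * T.c + 0.565 * T.c := by
    rw [Finset.sum_add_distrib, COR_D_sum, add_div]
    apply add_le_add
    · refine le_trans ?_ (COR_R_inv hT)
      apply div_le_div_of_nonneg_right _ (by positivity)
      exact (COR_unit_sum hT i).trans hz1
    · rw [div_le_iff₀ (by positivity)]
      nlinarith
  refine le_trans (mul_le_mul_of_nonneg_right h5 (inv_pos.mpr (COR_m_pos hT)).le) ?_
  apply COR_final hT
  have h6 : T.c * T.c ≤ 1 / 10 ^ 5 * T.c := mul_le_mul_of_nonneg_right hc1 hc.le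
  norm_num at h6 ⊢
  nlinarith

theorem cor_lo (hT : T.Ok) {i : ℕ} (hi : i < T.K) {b : Bool × Fin T.R} (hb : ¬ T.isU i b) (j : ℕ) :
    -(0.567 * T.c / T.x) ≤ T.cor i b j := by
  have hc := hT.c0
  have hc1 : T.c ≤ 1 / 10 ^ 5 := hT.c1
  have hR := COR_R_pos hT
  have h1 := COR_up hT hi b j (-1) (fun b' => COR_D T b b') (COR_D_nonneg hT b)
    (by
      intro b'
      have h2 := (abs_le.mp (COR_D_abs hT hi b b')).2
      have h3 := COR_tau_le hT i b'
      have h4 : T.tau i b = 1 := by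
        unfold tau
        rw [if_neg hb]
      unfold e
      linarith)
  have h5 : (∑ b', COR_D T b b') / (2 * T.R) ≤ 0.565 * T.c := by
    rw [COR_D_sum, div_le_iff₀ (by positivity)]
    nlinarith
  have h7 := h1.trans (mul_le_mul_of_nonneg_right h5 (inv_pos.mpr (COR_m_pos hT)).le)
  have h8 : 0.565 * T.c * (T.x * (1 - 2.3 * T.c))⁻¹ ≤ 0.567 * T.c / T.x := by
    apply COR_final hT
    have h6 : T.c * T.c ≤ 1 / 10 ^ 5 * T.c := mul_le_mul_of_nonneg_right hc1 hc.le
    norm_num at h6 ⊢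
    nlinarith
  linarith

theorem cor_lo_u (hT : T.Ok) {i : ℕ} (hi : i < T.K) (b : Bool × Fin T.R) (j : ℕ) :
    -(0.27 / T.x) ≤ T.cor i b j := by
  have hc := hT.c0
  have hc1 : T.c ≤ 1 / 10 ^ 5 := hT.c1
  have hz1 := zeta_le hT
  have hR := COR_R_pos hT
  have h1 := COR_up hT hi b j (-1) (fun _ => 1 / 4 + 1.129 * T.c) (by intro b'; positivity)
    (by
      intro b'
      have h2 := (abs_le.mp (rho_diff hT hi b b')).2
      have h3 := COR_tau_le hT i b'
      have h4 := COR_tau_ge hT i b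
      unfold e
      linarith)
  rw [COR_sum_const] at h1
  have h5 : 2 * (T.R : ℝ) * (1 / 4 + 1.129 * T.c) / (2 * T.R) = 1 / 4 + 1.129 * T.c := by
    field_simp
  rw [h5] at h1
  have h8 : (1 / 4 + 1.129 * T.c) * (T.x * (1 - 2.3 * T.c))⁻¹ ≤ 0.27 / T.x := by
    apply COR_final hT
    norm_num at hc1 ⊢
    nlinarith
  linarith

end Par

end Pool.Agent.H98.HVB
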