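import Mathlib

/-!
# HVB (MP_b8729f_co): the mean-field schedule, part B of the project of helper2

Paper: section 2 of /team-store/H2_b8729f_HV.md, in normalised form.  All quantities are divided by `W`;
`x = n / W`, `sS = (S-1)/W`, `zz = (z+1)/W`, `c = p / n`, `h = c / 8`, `th = 1 - c`.
Tight classes are the `i < K`, blocks the `j < K + P`, the zone of `i` is `i ≤ j ≤ i + P`.
Slack classes are `(side, r)`, `side = true` is `H`, `side = false` is `L`, `r < R`.
-/

set_option autoImplicit false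
set_option linter.unusedVariables false

namespace Pool.Agent.H98.HVB

open Finset

/-- The parameters. -/
structure Par where
  K : ℕ
  P : ℕ
  jL : ℕ
  R : ℕ
  c : ℝ
  x : ℝ
  sS : ℝ
  zz : ℝ

/-- The numerical conditions on the parameters. -/
structure Par.Ok (T : Par) : Prop where
  c0 : 0 < T.c
  c1 : T.c ≤ 1 / 10 ^ 5
  x1 : 10 ^ 8 ≤ T.c ^ 2 * T.x
  xK : T.x = T.K - 1 + T.sS + T.zz
  s0 : 99 / 100 ≤ T.sS
  s1 : T.sS ≤ 2
  z0 : 1 ≤ T.zz
  z1 : T.zz ≤ 2
  sz : 2 ≤ T.sS + T.zz
  P1 : 2 * T.c * T.x ≤ T.P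
  P2 : (T.P : ℝ) ≤ 2 * T.c * T.x + 1
  j1 : (T.jL : ℝ) ≤ 1.1275 * T.c * T.x + 3
  R1 : 128 * T.R + 2 ≤ T.P
  R2 : T.P ≤ 128 * T.R + 129

namespace Par

variable (T : Par)

/-- number of blocks -/
def J : ℕ := T.K + T.P

/-- the zone of the tight class `i` -/
def zone (i j : ℕ) : Prop := i ≤ j ∧ j ≤ i + T.P

instance (i j : ℕ) : Decidable (T.zone i j) := by unfold zone; infer_instance

/-- tight classes whose zone contains `j` -/
def zn (j : ℕ) : Finset ℕ := (range T.K).filter (fun i => T.zone i j)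

/-- tight classes for which `j` is fully available -/
def act (j : ℕ) : Finset ℕ := (range T.K).filter (fun i => ¬ T.zone i j)

/-- blocks of the zone of `i` -/
def Z (i : ℕ) : Finset ℕ := (range T.J).filter (fun j => T.zone i j)

/-- fully available blocks of `i` -/
def E (i : ℕ) : Finset ℕ := (range T.J).filter (fun j => ¬ T.zone i j)

noncomputable section

def h : ℝ := T.c / 8
def th : ℝ := 1 - T.c
/-- mass of a tight class divided by `n` -/
def mu : ℝ := (1 - 2 * T.h) / T.K
def k : ℝ := T.K - T.P - 1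
/-- fraction of tight vertices which are active at `j` -/
def D (j : ℕ) : ℝ := T.mu * (T.act j).card
def Db : ℝ := T.mu * T.k
def sg : ℝ := T.h * T.th / T.Db
/-- `D j = Db (1 + d j)` -/
def d (j : ℕ) : ℝ := (T.P + 1 - (T.zn j).card) / T.k
/-- number of sides available at `j` -/
def s (j : ℕ) : ℝ := if T.jL ≤ j ∧ j + T.jL < T.J then 2 else 1
def N (j : ℕ) : ℝ := T.s j * T.h * T.th / T.D j
def w (j : ℕ) : ℝ := (1 - T.N j) / T.D j
def ws : ℝ := T.sS * (1 - T.h * T.th / (1 - 2 * T.h)) / (1 - 2 * T.h)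
def Om (i i' : ℕ) : ℝ := (∑ j ∈ T.E i ∩ T.E i', T.w j + T.ws) / T.x
/-- what the slack classes have to supply to a vertex of class `i` in block `j`, divided by `W` -/
def nd (i j : ℕ) : ℝ := 1 - T.w j * T.mu * ∑ i' ∈ T.act j, (T.Om i i')⁻¹
/-- the same for the star -/
def nds (i : ℕ) : ℝ := T.sS - T.ws * T.mu * ∑ i' ∈ range T.K, (T.Om i i')⁻¹

/-- `b` is the unit of `i` -/
def isU (i : ℕ) (b : Bool × Fin T.R) : Prop := b.1 = decide (2 * i < T.K) ∧ (b.2 : ℕ) = i % T.R

instance (i : ℕ) (b : Bool × Fin T.R) : Decidable (T.isU i b) := by unfold isU; infer_instance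

/-- `j` is an end block of the zone of `i` -/
def en (i j : ℕ) : Prop := j = i ∨ j + 1 = i + T.P ∨ j = i + T.P

instance (i j : ℕ) : Decidable (T.en i j) := by unfold en; infer_instance

/-- blocks excluded for the slack class `b` -/
def exc (b : Bool × Fin T.R) : Finset ℕ :=
  (range T.J).filter (fun j => ∃ i ∈ range T.K, T.isU i b ∧ T.en i j)

/-- the block `j` is available for the side -/
def sd (b : Bool) (j : ℕ) : Prop := if b = true then j + T.jL < T.J else T.jL ≤ j

instance (b : Bool) (j : ℕ) : Decidable (T.sd b j) := by unfold sd; infer_instance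

/-- the block `j` is available for `b` -/
def av (b : Bool × Fin T.R) (j : ℕ) : Prop := T.sd b.1 j ∧ j ∉ T.exc b

instance (b : Bool × Fin T.R) (j : ℕ) : Decidable (T.av b j) := by unfold av; infer_instance

/-- slack classes available at `j` -/
def BB (j : ℕ) : Finset (Bool × Fin T.R) := univ.filter (fun b => T.av b j)

/-- first version of the distribution of the edges from class `i` to a slack class -/
def q0 (i j : ℕ) : ℝ := T.nd i j * T.R / (T.h * T.x * (T.BB j).card)
def q0s (i : ℕ) : ℝ := T.nds i / (T.h * T.x)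
/-- `(z+1)/β` -/
def zeta : ℝ := T.zz * T.R / (T.h * T.x)
def tau (i : ℕ) (b : Bool × Fin T.R) : ℝ := if T.isU i b then 1 - T.zeta else 1
/-- `q0` restricted to the available blocks -/
def q1 (i : ℕ) (b : Bool × Fin T.R) (j : ℕ) : ℝ := if T.av b j then T.q0 i j else 0
/-- star part -/
def qs (i : ℕ) (b : Bool × Fin T.R) : ℝ := if b.1 = true then T.q0s i else 0
def rho (i : ℕ) (b : Bool × Fin T.R) : ℝ := ∑ j ∈ T.E i, T.q1 i b j + T.qs i b
def e (i : ℕ) (b : Bool × Fin T.R) : ℝ := T.tau i b - T.rho i b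
/-- blocks used for the correction -/
def MM (i : ℕ) (b b' : Bool × Fin T.R) : Finset ℕ :=
  (T.E i).filter (fun j => T.jL ≤ j ∧ j + T.jL < T.J ∧ T.av b j ∧ T.av b' j)
def cor (i : ℕ) (b : Bool × Fin T.R) (j : ℕ) : ℝ :=
  ∑ b', (T.e i b - T.e i b') / (2 * T.R) * (if j ∈ T.MM i b b' then ((T.MM i b b').card : ℝ)⁻¹ else 0)
/-- distribution of the edges from class `i` to the slack class `b` (times `tau i b`) -/
def q (i : ℕ) (b : Bool × Fin T.R) (j : ℕ) : ℝ := T.q1 i b j + T.cor i b j
/-- blocks available for two slack classes -/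
def AA (b b' : Bool × Fin T.R) : Finset ℕ := (range T.J).filter (fun j => T.av b j ∧ T.av b' j)

end

end Par

end Pool.Agent.H98.HVB
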