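import Pool.Agent.H98.HVB.OMG

/-!
# NDA: what the slack classes have to supply

* `Om_pos`: `Om_ge` (`10 c² < 1`).
* `inv_row_ge`: Cauchy: `(#Q)² ≤ (∑ Om) (∑ 1/Om)` (`Finset.sum_mul_sq_le_sq_mul_sq`, or `Finset.inner_mul_le_norm_mul_norm`, or `div_add_div_same, ...`), `Om_row`, `1/(1+5c²) ≥ 1 - 5c²`.
* `inv_row_le`: termwise `1/Om ≤ 1/(1-10c²) ≤ 1 + 11 c²`.
* `inv_sum_ge`: Cauchy over the pairs in `Q × Q`: `(#Q)^4 ≤ (∑∑ Om)(∑∑ 1/Om) ≤ (#Q)² ∑∑ 1/Om` (`Om_sum`).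
* `nd_lo`, `nd_hi`: `Q = act j`, `#Q ≥ k` (`k_le_act`), `w j mu #Q = w j D j = 1 - N j ∈ [0, 1]` (`wD`, `N_nonneg`, `N_le`, `w_nonneg`).
* `nd_sum`: `mu ∑_{i ∈ act j} nd i j = D j - w j mu² ∑∑ 1/Om ≤ D j - w j (D j)² = D j N j = s j h th`.
* `nds_*`: the same with `Q = range K`, `mu K = 1 - 2h`, `ws (1-2h) = sS (1 - h th/(1-2h))`, `#Q = K ≥ k`.
* `nd_tot`: `∑_{j ∈ E i} w j ∑_{i' ∈ act j} 1/Om i i' = ∑_{i' < K} (1/Om i i') ∑_{j ∈ E i ∩ E i'} w j` (for `j < J`: `i' ∈ act j ↔ i' < K ∧ j ∈ E i'`), and by definition of `Om`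
`∑_{j ∈ E i ∩ E i'} w j + ws = x Om i i'`; so the sum is `(K - 1) + sS - mu K x = (K - 1) + sS - (1 - 2h) x = 2 h x - zz` (`card_E`, `xK`).
-/

set_option autoImplicit false
set_option linter.unusedVariables false

namespace Pool.Agent.H98.HVB

open Finset

namespace Par

variable {T : Par}

private theorem NDA_c2 (hT : T.Ok) : 0 < T.c ^ 2 ∧ T.c ^ 2 ≤ 1 / 10 ^ 10 := by
  have h1 := hT.c0
  have h2 := hT.c1
  refine ⟨by positivity, ?_⟩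
  have h3 : T.c ^ 2 ≤ (1 / 10 ^ 5) ^ 2 := by
    exact pow_le_pow_left₀ h1.le h2 2
  refine h3.trans ?_
  norm_num

private theorem NDA_tan (a m : ℝ) (ha : 0 < a) (hm : 0 < m) : 2 / m - a / m ^ 2 ≤ a⁻¹ := by
  have h : a⁻¹ - (2 / m - a / m ^ 2) = (a - m) ^ 2 / (a * m ^ 2) := by
    field_simp
    ring
  have h2 : 0 ≤ (a - m) ^ 2 / (a * m ^ 2) := by positivity
  linarith

private theorem NDA_act (j : ℕ) : T.act j ⊆ range T.K := Finset.filter_subset _ _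

theorem Om_pos (hT : T.Ok) {i i' : ℕ} (hi : i < T.K) (hi' : i' < T.K) : 0 < T.Om i i' := by
  have h1 := Om_ge hT hi hi'
  obtain ⟨h2, h3⟩ := NDA_c2 hT
  have h4 : 10 * T.c ^ 2 ≤ 1 / 10 := by
    have : (1 : ℝ) / 10 ^ 10 ≤ 1 / 100 := by norm_num
    linarith
  linarith

theorem inv_row_ge (hT : T.Ok) {Q : Finset ℕ} (hQ : Q ⊆ range T.K) (hk : T.k ≤ Q.card) {i : ℕ}
    (hi : i < T.K) : (Q.card : ℝ) * (1 - 5 * T.c ^ 2) ≤ ∑ i' ∈ Q, (T.Om i i')⁻¹ := by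
  obtain ⟨h2, h3⟩ := NDA_c2 hT
  have h1 := Om_row hT hQ hk hi
  obtain ⟨m, hm⟩ : ∃ m : ℝ, m = 1 + 5 * T.c ^ 2 := ⟨_, rfl⟩
  have hm0 : 0 < m := by rw [hm]; positivity
  rw [← hm] at h1
  have h4 : ∑ i' ∈ Q, (2 / m - T.Om i i' / m ^ 2) ≤ ∑ i' ∈ Q, (T.Om i i')⁻¹ :=
    Finset.sum_le_sum fun i' hi' => NDA_tan _ _ (Om_pos hT hi (mem_range.1 (hQ hi'))) hm0
  rw [Finset.sum_sub_distrib, Finset.sum_const, nsmul_eq_mul, ← Finset.sum_div] at h4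
  have h5 : (∑ i' ∈ Q, T.Om i i') / m ^ 2 ≤ (Q.card : ℝ) * m / m ^ 2 :=
    div_le_div_of_nonneg_right h1 (by positivity)
  have h6 : (Q.card : ℝ) * m / m ^ 2 = (Q.card : ℝ) * (1 / m) := by
    field_simp
  have h7 : (Q.card : ℝ) * (2 / m) = 2 * ((Q.card : ℝ) * (1 / m)) := by ring
  have h8 : 1 - 5 * T.c ^ 2 ≤ 1 / m := by
    rw [le_div_iff₀ hm0, hm]
    nlinarith
  have h9 : (Q.card : ℝ) * (1 - 5 * T.c ^ 2) ≤ (Q.card : ℝ) * (1 / m) :=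
    mul_le_mul_of_nonneg_left h8 (Nat.cast_nonneg _)
  linarith

theorem inv_row_le (hT : T.Ok) {Q : Finset ℕ} (hQ : Q ⊆ range T.K) {i : ℕ}
    (hi : i < T.K) : ∑ i' ∈ Q, (T.Om i i')⁻¹ ≤ (Q.card : ℝ) * (1 + 11 * T.c ^ 2) := by
  obtain ⟨h2, h3⟩ := NDA_c2 hT
  have h4 : ∀ i' ∈ Q, (T.Om i i')⁻¹ ≤ 1 + 11 * T.c ^ 2 := by
    intro i' hi'
    have h5 := Om_pos hT hi (mem_range.1 (hQ hi'))
    have h6 := Om_ge hT hi (mem_range.1 (hQ hi'))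
    rw [inv_le_iff_one_le_mul₀ h5]
    have h7 : (1 + 11 * T.c ^ 2) * (1 - 10 * T.c ^ 2) ≤ (1 + 11 * T.c ^ 2) * T.Om i i' :=
      mul_le_mul_of_nonneg_left h6 (by positivity)
    have h8 : 1 ≤ (1 + 11 * T.c ^ 2) * (1 - 10 * T.c ^ 2) := by
      have h9 : T.c ^ 2 ≤ 1 / 110 := by
        refine h3.trans ?_
        norm_num
      nlinarith
    linarith
  have h5 := Finset.sum_le_sum h4
  rwa [Finset.sum_const, nsmul_eq_mul] at h5

theorem inv_sum_ge (hT : T.Ok) {Q : Finset ℕ} (hQ : Q ⊆ range T.K) (hk : T.k ≤ Q.card) :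
    (Q.card : ℝ) ^ 2 ≤ ∑ i ∈ Q, ∑ i' ∈ Q, (T.Om i i')⁻¹ := by
  have h1 := Om_sum hT hQ hk
  have h4 : ∑ i ∈ Q, ∑ i' ∈ Q, (2 - T.Om i i') ≤ ∑ i ∈ Q, ∑ i' ∈ Q, (T.Om i i')⁻¹ := by
    refine Finset.sum_le_sum fun i hi => Finset.sum_le_sum fun i' hi' => ?_
    have h5 := NDA_tan (T.Om i i') 1 (Om_pos hT (mem_range.1 (hQ hi)) (mem_range.1 (hQ hi')))
      one_pos
    have h6 : (2 : ℝ) / 1 - T.Om i i' / 1 ^ 2 = 2 - T.Om i i' := by ring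
    rwa [h6] at h5
  have h7 : ∑ i ∈ Q, ∑ i' ∈ Q, (2 - T.Om i i') =
      2 * (Q.card : ℝ) ^ 2 - ∑ i ∈ Q, ∑ i' ∈ Q, T.Om i i' := by
    simp only [Finset.sum_sub_distrib, Finset.sum_const, nsmul_eq_mul]
    ring
  linarith

private theorem NDA_mu (hT : T.Ok) (j : ℕ) (hj : j < T.J) : 0 ≤ T.w j * T.mu :=
  mul_nonneg (w_nonneg hT hj) (mu_pos hT).le

theorem nd_lo (hT : T.Ok) {i j : ℕ} (hi : i < T.K) (hj : j < T.J) :
    T.N j - 11 * T.c ^ 2 ≤ T.nd i j := by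
  obtain ⟨h2, h3⟩ := NDA_c2 hT
  have h1 := inv_row_le hT (NDA_act j) hi
  have h4 := mul_le_mul_of_nonneg_left h1 (NDA_mu hT j hj)
  have h5 := wD hT j
  have h6 : T.w j * T.mu * (((T.act j).card : ℝ) * (1 + 11 * T.c ^ 2)) =
      (1 - T.N j) * (1 + 11 * T.c ^ 2) := by
    rw [← h5]
    unfold D
    ring
  rw [h6] at h4
  have h7 := N_nonneg hT j
  unfold nd
  nlinarith [mul_nonneg h7 h2.le]

theorem nd_hi (hT : T.Ok) {i j : ℕ} (hi : i < T.K) (hj : j < T.J) :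
    T.nd i j ≤ T.N j + 5 * T.c ^ 2 := by
  obtain ⟨h2, h3⟩ := NDA_c2 hT
  have h1 := inv_row_ge hT (NDA_act j) (k_le_act j) hi
  have h4 := mul_le_mul_of_nonneg_left h1 (NDA_mu hT j hj)
  have h5 := wD hT j
  have h6 : T.w j * T.mu * (((T.act j).card : ℝ) * (1 - 5 * T.c ^ 2)) =
      (1 - T.N j) * (1 - 5 * T.c ^ 2) := by
    rw [← h5]
    unfold D
    ring
  rw [h6] at h4
  have h7 := N_nonneg hT j
  unfold nd
  nlinarith [mul_nonneg h7 h2.le]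

theorem nd_sum (hT : T.Ok) {j : ℕ} (hj : j < T.J) :
    T.mu * ∑ i ∈ T.act j, T.nd i j ≤ T.s j * T.h * T.th := by
  have h1 := inv_sum_ge hT (NDA_act j) (k_le_act j)
  have h2 : ∑ i ∈ T.act j, T.nd i j = ((T.act j).card : ℝ) -
      T.w j * T.mu * ∑ i ∈ T.act j, ∑ i' ∈ T.act j, (T.Om i i')⁻¹ := by
    unfold nd
    rw [Finset.sum_sub_distrib, Finset.sum_const, nsmul_eq_mul, mul_one, Finset.mul_sum]
  have h3 := mul_le_mul_of_nonneg_left h1 (mul_nonneg (mu_pos hT).le (NDA_mu hT j hj))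
  have h4 : T.s j * T.h * T.th = T.D j * (1 - T.w j * T.D j) := by
    rw [wD hT j]
    have h5 := (D_pos hT j).ne'
    unfold N
    field_simp
    ring
  rw [h2, h4]
  have h6 : T.D j * (1 - T.w j * T.D j) = T.mu * ((T.act j).card : ℝ) -
      T.mu * (T.w j * T.mu) * ((T.act j).card : ℝ) ^ 2 := by
    unfold D
    ring
  rw [h6]
  linarith

private theorem NDA_h (hT : T.Ok) : 0 < 1 - 2 * T.h := by
  have h1 := hT.c1
  have h2 : T.h = T.c / 8 := rfl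
  have h3 : T.c ≤ 1 := by
    refine h1.trans ?_
    norm_num
  rw [h2]
  linarith

private theorem NDA_ws (hT : T.Ok) :
    T.ws * (1 - 2 * T.h) = T.sS * (1 - T.h * T.th / (1 - 2 * T.h)) := by
  have h1 := (NDA_h hT).ne'
  unfold ws
  rw [div_mul_cancel₀ _ h1]

private theorem NDA_N (hT : T.Ok) : 0 ≤ T.h * T.th / (1 - 2 * T.h) :=
  div_nonneg (mul_nonneg (h_pos hT).le (th_pos hT).le) (NDA_h hT).le

private theorem NDA_wm (hT : T.Ok) : 0 ≤ T.ws * T.mu := mul_nonneg (ws_nonneg hT) (mu_pos hT).le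

private theorem NDA_s (hT : T.Ok) : 0 < T.sS := lt_of_lt_of_le (by norm_num) hT.s0

theorem nds_lo (hT : T.Ok) {i : ℕ} (hi : i < T.K) :
    T.sS * (T.h * T.th / (1 - 2 * T.h) - 11 * T.c ^ 2) ≤ T.nds i := by
  obtain ⟨h2, h3⟩ := NDA_c2 hT
  have h1 := inv_row_le hT (Finset.Subset.refl (range T.K)) hi
  rw [card_range] at h1
  have h4 := mul_le_mul_of_nonneg_left h1 (NDA_wm hT)
  have h5 := NDA_ws hT
  have h6 : T.ws * T.mu * ((T.K : ℝ) * (1 + 11 * T.c ^ 2)) =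
      T.sS * (1 - T.h * T.th / (1 - 2 * T.h)) * (1 + 11 * T.c ^ 2) := by
    rw [← h5, ← mu_K hT]
    ring
  rw [h6] at h4
  have h7 := NDA_N hT
  have h8 := NDA_s hT
  have h9 : T.nds i = T.sS - T.ws * T.mu * ∑ i' ∈ range T.K, (T.Om i i')⁻¹ := rfl
  rw [h9]
  obtain ⟨y, hy⟩ : ∃ y : ℝ, y = T.h * T.th / (1 - 2 * T.h) := ⟨_, rfl⟩
  rw [← hy] at h4 h7 ⊢
  have h10 : 0 ≤ T.sS * (y * T.c ^ 2) := by positivity
  nlinarith

theorem nds_hi (hT : T.Ok) {i : ℕ} (hi : i < T.K) :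
    T.nds i ≤ T.sS * (T.h * T.th / (1 - 2 * T.h) + 5 * T.c ^ 2) := by
  obtain ⟨h2, h3⟩ := NDA_c2 hT
  have hk : T.k ≤ ((range T.K).card : ℝ) := by
    rw [card_range]
    exact k_hi hT
  have h1 := inv_row_ge hT (Finset.Subset.refl (range T.K)) hk hi
  rw [card_range] at h1
  have h4 := mul_le_mul_of_nonneg_left h1 (NDA_wm hT)
  have h5 := NDA_ws hT
  have h6 : T.ws * T.mu * ((T.K : ℝ) * (1 - 5 * T.c ^ 2)) =
      T.sS * (1 - T.h * T.th / (1 - 2 * T.h)) * (1 - 5 * T.c ^ 2) := by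
    rw [← h5, ← mu_K hT]
    ring
  rw [h6] at h4
  have h7 := NDA_N hT
  have h8 := NDA_s hT
  have h9 : T.nds i = T.sS - T.ws * T.mu * ∑ i' ∈ range T.K, (T.Om i i')⁻¹ := rfl
  rw [h9]
  obtain ⟨y, hy⟩ : ∃ y : ℝ, y = T.h * T.th / (1 - 2 * T.h) := ⟨_, rfl⟩
  rw [← hy] at h4 h7 ⊢
  have h10 : 0 ≤ T.sS * (y * T.c ^ 2) := by positivity
  nlinarith

theorem nds_sum (hT : T.Ok) :
    T.mu * ∑ i ∈ range T.K, T.nds i ≤ T.sS * (T.h * T.th) := by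
  have hk : T.k ≤ ((range T.K).card : ℝ) := by
    rw [card_range]
    exact k_hi hT
  have h1 := inv_sum_ge hT (Finset.Subset.refl (range T.K)) hk
  rw [card_range] at h1
  have h2 : ∑ i ∈ range T.K, T.nds i = (T.K : ℝ) * T.sS -
      T.ws * T.mu * ∑ i ∈ range T.K, ∑ i' ∈ range T.K, (T.Om i i')⁻¹ := by
    unfold nds
    rw [Finset.sum_sub_distrib, Finset.sum_const, nsmul_eq_mul, card_range, Finset.mul_sum]
  have h3 := mul_le_mul_of_nonneg_left h1 (mul_nonneg (mu_pos hT).le (NDA_wm hT))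
  have h4 : T.sS * (T.h * T.th) = (1 - 2 * T.h) * T.sS - (T.ws * (1 - 2 * T.h)) * (1 - 2 * T.h) := by
    rw [NDA_ws hT]
    have h5 : T.h * T.th / (1 - 2 * T.h) * (1 - 2 * T.h) = T.h * T.th :=
      div_mul_cancel₀ _ (NDA_h hT).ne'
    linear_combination (-T.sS) * h5
  have h6 : T.mu * (T.ws * T.mu) * (T.K : ℝ) ^ 2 =
      (T.ws * (1 - 2 * T.h)) * (1 - 2 * T.h) := by
    rw [← mu_K hT]
    ring
  have h7 : T.mu * ((T.K : ℝ) * T.sS) = (1 - 2 * T.h) * T.sS := by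
    rw [← mu_K hT]
    ring
  rw [h6] at h3
  rw [h2, h4, mul_sub, h7]
  linarith

private theorem NDA_swap (i : ℕ) (g : ℕ → ℝ) :
    ∑ j ∈ T.E i, T.w j * ∑ i' ∈ T.act j, g i' =
      ∑ i' ∈ range T.K, g i' * ∑ j ∈ T.E i ∩ T.E i', T.w j := by
  have h1 : ∀ j ∈ T.E i, T.w j * ∑ i' ∈ T.act j, g i' =
      ∑ i' ∈ range T.K, if ¬ T.zone i' j then g i' * T.w j else 0 := by
    intro j hj
    unfold act
    rw [Finset.sum_filter, Finset.mul_sum]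
    refine Finset.sum_congr rfl fun i' _ => ?_
    split_ifs <;> ring
  rw [Finset.sum_congr rfl h1, Finset.sum_comm]
  refine Finset.sum_congr rfl fun i' _ => ?_
  rw [← Finset.sum_filter, Finset.mul_sum]
  have h2 : (T.E i).filter (fun j => ¬ T.zone i' j) = T.E i ∩ T.E i' := by
    ext j
    simp only [E, Finset.mem_filter, Finset.mem_inter, Finset.mem_range]
    tauto
  rw [h2]

theorem nd_tot (hT : T.Ok) {i : ℕ} (hi : i < T.K) :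
    ∑ j ∈ T.E i, T.nd i j + T.nds i = 2 * T.h * T.x - T.zz := by
  have hx : 0 < T.x := lt_of_lt_of_le (by norm_num) (x_ge hT)
  have h1 : ∑ j ∈ T.E i, T.nd i j = ((T.E i).card : ℝ) -
      T.mu * ∑ j ∈ T.E i, T.w j * ∑ i' ∈ T.act j, (T.Om i i')⁻¹ := by
    unfold nd
    rw [Finset.sum_sub_distrib, Finset.sum_const, nsmul_eq_mul, mul_one, Finset.mul_sum]
    congr 1
    refine Finset.sum_congr rfl fun j _ => ?_
    ring
  have h2 : T.nds i = T.sS - T.mu * ∑ i' ∈ range T.K, (T.Om i i')⁻¹ * T.ws := by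
    unfold nds
    rw [← Finset.sum_mul]
    ring
  have h3 : ((T.E i).card : ℝ) = T.K - 1 := by
    have h4 := card_E hT hi
    rw [h4, Nat.cast_sub, Nat.cast_one]
    omega
  have h5 : ∑ i' ∈ range T.K, (T.Om i i')⁻¹ * (∑ j ∈ T.E i ∩ T.E i', T.w j) +
      ∑ i' ∈ range T.K, (T.Om i i')⁻¹ * T.ws = (T.K : ℝ) * T.x := by
    rw [← Finset.sum_add_distrib]
    have h6 : ∀ i' ∈ range T.K, (T.Om i i')⁻¹ * (∑ j ∈ T.E i ∩ T.E i', T.w j) +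
        (T.Om i i')⁻¹ * T.ws = T.x := by
      intro i' hi'
      have h7 := Om_pos hT hi (mem_range.1 hi')
      have h8 : ∑ j ∈ T.E i ∩ T.E i', T.w j + T.ws = T.Om i i' * T.x := by
        unfold Om
        rw [div_mul_cancel₀ _ hx.ne']
      rw [← mul_add, h8, ← mul_assoc, inv_mul_cancel₀ h7.ne', one_mul]
    rw [Finset.sum_congr rfl h6, Finset.sum_const, card_range, nsmul_eq_mul]
  rw [h1, h2, NDA_swap i (fun i' => (T.Om i i')⁻¹), h3]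
  have h9 := hT.xK
  have h10 := mu_K hT
  have h11 : T.mu * ((T.K : ℝ) * T.x) = (1 - 2 * T.h) * T.x := by
    rw [← h10]
    ring
  rw [← h5] at h11
  linarith

end Par

end Pool.Agent.H98.HVB
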