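import Pool.Agent.H98.HVB.PAR

/-!
# NUA: the main numerical inequality

Write `c = T.c`, `x = T.x`, `h = c/8`.
(1) Right side minus `2 h k`: `2 sg k - 2 h k = 2 h (th K/(1-2h) - k)`, `th/(1-2h) ≥ th (1 + 2h) = (1-c)(1+c/4) ≥ 1 - 0.75 c - 0.25 c²`, so
`th K/(1-2h) - k ≥ K (1 - 0.75 c - 0.25 c²) - (K - P - 1) = P + 1 - K (0.75 c + 0.25 c²) ≥ 2 c x - x (0.75 c + 0.25 c²) = c x (1.25 - 0.25 c)`
(`P1`, `K ≤ x`), hence `2 sg k - 2 h k ≥ c² x (0.3125 - 0.0625 c) ≥ 0.3124 c² x`.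
(2) `2 sg jL ≤ 2 h (1 + 1.5 c) (1.1276 c x) ≤ 0.282 c² x` (`sg_hi`, `jL_hi`, `h = c/8`, `c ≤ 1e-5`: `1.1276/4 = 0.2819`, `0.2819 (1+1.5e-5) ≤ 0.28191`).
(3) with `P + 1 ≤ 2.001 c x`, `k ≥ 0.999 x` (`k_lo`), `P ≤ P + 1`, `sg ≤ c/7`: `(P+1)/k ≤ 1`, `(P+1)^3/k^2 ≤ 8.1 c³ x`, `(P/k + 4 sg)(P (P+1)/k) ≤ (2.01 c + 0.6 c)(4.1 c² x) ≤ 11 c³ x`,
`2 P (P+1)^2/k^2 ≤ 16.5 c³ x`; `c³ x ≤ 1e-5 c² x`; so the sum of the last four terms and `1 + 2 sg` is at most `4 + 36e-5 c² x`.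
Total: `0.282 c² x + 0.0004 c² x + 4 ≤ 0.3124 c² x` because `c² x ≥ 1e8`.
-/

set_option autoImplicit false
set_option linter.unusedVariables false

namespace Pool.Agent.H98.HVB

open Finset

namespace Par

variable {T : Par}

/-- basic facts -/
theorem NUA_c0 (hT : T.Ok) : 0 < T.c := hT.c0

theorem NUA_kx (hT : T.Ok) : 0.9999 * T.x ≤ T.k := by
  have h1 := k_lo hT
  have h2 := hT.c1
  have h3 := x_ge hT
  have h4 : 0 < T.x := by linarith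
  nlinarith [mul_nonneg h4.le (sub_nonneg.2 h2)]

theorem NUA_y (hT : T.Ok) : T.c * (T.c ^ 2 * T.x) ≤ (T.c ^ 2 * T.x) / 10 ^ 5 := by
  have h1 := hT.x1
  have h2 := hT.c1
  have h3 : 0 ≤ T.c ^ 2 * T.x := by linarith
  have h4 := mul_le_mul_of_nonneg_right h2 h3
  linarith

theorem NUA_sg (hT : T.Ok) : 4 * T.sg ≤ 0.51 * T.c := by
  have h1 := sg_hi hT
  have h2 := hT.c1
  have h0 := hT.c0
  have h3 : T.h = T.c / 8 := rfl
  rw [h3] at h1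
  nlinarith [mul_le_mul_of_nonneg_left h2 h0.le]

/-- second order quantities -/
theorem PP_k (hT : T.Ok) : (T.P : ℝ) * (T.P + 1) / T.k ≤ 4.1 * (T.c ^ 2 * T.x) := by
  have hk := NUA_kx hT
  have hx := x_ge hT
  have hP := P_hi hT
  have hP0 : (0 : ℝ) ≤ T.P := Nat.cast_nonneg _
  have hx0 : 0 < T.x := by linarith
  have hk0 : 0 < T.k := by nlinarith
  have hc := hT.c0
  have hcx : 0 ≤ T.c * T.x := by positivity
  rw [div_le_iff₀ hk0]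
  have h1 : (T.P : ℝ) * (T.P + 1) ≤ (2.001 * (T.c * T.x)) * (2.001 * (T.c * T.x)) := by
    apply mul_le_mul (by linarith) hP (by linarith) (by positivity)
  have h2 : 4.1 * (T.c ^ 2 * T.x) * (0.9999 * T.x) ≤ 4.1 * (T.c ^ 2 * T.x) * T.k := by
    apply mul_le_mul_of_nonneg_left hk (by positivity)
  have h3 : 0 ≤ (T.c * T.x) ^ 2 := by positivity
  nlinarith

theorem P_k (hT : T.Ok) : (T.P : ℝ) / T.k ≤ 2.01 * T.c := by
  have hk := NUA_kx hT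
  have hx := x_ge hT
  have hP := P_hi hT
  have hx0 : 0 < T.x := by linarith
  have hk0 : 0 < T.k := by nlinarith
  have hc := hT.c0
  have hcx : 0 ≤ T.c * T.x := by positivity
  rw [div_le_iff₀ hk0]
  have h2 : 2.01 * T.c * (0.9999 * T.x) ≤ 2.01 * T.c * T.k := by
    apply mul_le_mul_of_nonneg_left hk (by positivity)
  nlinarith

theorem NUA_P1k (hT : T.Ok) : ((T.P : ℝ) + 1) / T.k ≤ 1 := by
  have hk := NUA_kx hT
  have hx := x_ge hT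
  have hP := P_hi hT
  have hx0 : 0 < T.x := by linarith
  have hk0 : 0 < T.k := by nlinarith
  have hc := hT.c1
  rw [div_le_iff₀ hk0]
  have h1 : T.c * T.x ≤ 1 / 10 ^ 5 * T.x := mul_le_mul_of_nonneg_right hc hx0.le
  nlinarith

theorem NUA_P1k' (hT : T.Ok) : ((T.P : ℝ) + 1) / T.k ≤ 2.0013 * T.c := by
  have hk := NUA_kx hT
  have hx := x_ge hT
  have hP := P_hi hT
  have hx0 : 0 < T.x := by linarith
  have hk0 : 0 < T.k := by nlinarith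
  have hc := hT.c0
  have hcx : 0 ≤ T.c * T.x := by positivity
  rw [div_le_iff₀ hk0]
  have h2 : 2.0013 * T.c * (0.9999 * T.x) ≤ 2.0013 * T.c * T.k := by
    apply mul_le_mul_of_nonneg_left hk (by positivity)
  nlinarith

theorem NUA_cube (hT : T.Ok) :
    ((T.P : ℝ) + 1) ^ 3 / T.k ^ 2 ≤ 8.1 * (T.c * (T.c ^ 2 * T.x)) := by
  have hk := NUA_kx hT
  have hx := x_ge hT
  have hP := P_hi hT
  have hx0 : 0 < T.x := by linarith
  have hk0 : 0 < T.k := by nlinarith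
  have hc := hT.c0
  have hcx : 0 ≤ T.c * T.x := by positivity
  have hP0 : (0 : ℝ) ≤ T.P := Nat.cast_nonneg _
  have h1 := NUA_P1k' hT
  have h0 : 0 ≤ ((T.P : ℝ) + 1) / T.k := by positivity
  have h2 : ((T.P : ℝ) + 1) ^ 3 / T.k ^ 2 =
      (((T.P : ℝ) + 1) / T.k) * (((T.P : ℝ) + 1) / T.k) * ((T.P : ℝ) + 1) := by
    field_simp
  rw [h2]
  have h3 : (((T.P : ℝ) + 1) / T.k) * (((T.P : ℝ) + 1) / T.k) ≤ (2.0013 * T.c) * (2.0013 * T.c) :=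
    mul_le_mul h1 h1 h0 (by positivity)
  have h4 : (((T.P : ℝ) + 1) / T.k) * (((T.P : ℝ) + 1) / T.k) * ((T.P : ℝ) + 1) ≤
      ((2.0013 * T.c) * (2.0013 * T.c)) * (2.001 * (T.c * T.x)) :=
    mul_le_mul h3 hP (by linarith) (by positivity)
  have h5 : 0 ≤ T.c * (T.c ^ 2 * T.x) := by positivity
  nlinarith

theorem NUA_mixed (hT : T.Ok) :
    ((T.P : ℝ) / T.k + 4 * T.sg) * (T.P * (T.P + 1) / T.k) ≤
      11 * (T.c * (T.c ^ 2 * T.x)) := by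
  have h1 := P_k hT
  have h2 := NUA_sg hT
  have h3 := PP_k hT
  have hx := x_ge hT
  have hx0 : 0 < T.x := by linarith
  have hk := NUA_kx hT
  have hk0 : 0 < T.k := by nlinarith
  have hc := hT.c0
  have hP0 : (0 : ℝ) ≤ T.P := Nat.cast_nonneg _
  have h4 : 0 ≤ (T.P : ℝ) * (T.P + 1) / T.k := by positivity
  have h5 : ((T.P : ℝ) / T.k + 4 * T.sg) * (T.P * (T.P + 1) / T.k) ≤
      (2.52 * T.c) * (4.1 * (T.c ^ 2 * T.x)) :=
    mul_le_mul (by linarith) h3 h4 (by positivity)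
  have h6 : 0 ≤ T.c * (T.c ^ 2 * T.x) := by positivity
  nlinarith

theorem NUA_last (hT : T.Ok) :
    2 * (T.P : ℝ) * (T.P + 1) ^ 2 / T.k ^ 2 ≤ 16.5 * (T.c * (T.c ^ 2 * T.x)) := by
  have h1 := NUA_P1k' hT
  have h3 := PP_k hT
  have hx := x_ge hT
  have hx0 : 0 < T.x := by linarith
  have hk := NUA_kx hT
  have hk0 : 0 < T.k := by nlinarith
  have hc := hT.c0
  have hP0 : (0 : ℝ) ≤ T.P := Nat.cast_nonneg _
  have h4 : 0 ≤ ((T.P : ℝ) + 1) / T.k := by positivity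
  have h2 : 2 * (T.P : ℝ) * (T.P + 1) ^ 2 / T.k ^ 2 =
      2 * ((((T.P : ℝ) + 1) / T.k) * (T.P * (T.P + 1) / T.k)) := by
    field_simp
  rw [h2]
  have h5 : (((T.P : ℝ) + 1) / T.k) * (T.P * (T.P + 1) / T.k) ≤
      (2.0013 * T.c) * (4.1 * (T.c ^ 2 * T.x)) :=
    mul_le_mul h1 h3 (by positivity) (by positivity)
  have h6 : 0 ≤ T.c * (T.c ^ 2 * T.x) := by positivity
  nlinarith

theorem NUA_gain (hT : T.Ok) :
    0.3124 * (T.c ^ 2 * T.x) ≤ 2 * T.sg * T.k - 2 * T.h * T.k := by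
  have h1 := sg_k hT
  have hc := hT.c0
  have hc1 := hT.c1
  have hh : T.h = T.c / 8 := rfl
  have hth : T.th = 1 - T.c := rfl
  have hK := K_hi hT
  have hx := x_ge hT
  have hx0 : 0 < T.x := by linarith
  have hkdef : T.k = T.K - T.P - 1 := rfl
  have hP := hT.P1
  have hK0 : (0 : ℝ) ≤ T.K := Nat.cast_nonneg _
  rw [hh, hth] at h1
  have h2 : (1 - 0.75 * T.c - 0.25 * T.c ^ 2) * T.K ≤ (1 - T.c) * T.K / (1 - 2 * (T.c / 8)) := by
    have h3 : 0 < 1 - 2 * (T.c / 8) := by linarith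
    rw [le_div_iff₀ h3]
    have h4 : (1 - 0.75 * T.c - 0.25 * T.c ^ 2) * (1 - 2 * (T.c / 8)) ≤ 1 - T.c := by
      have h5 : 0 ≤ T.c ^ 2 * (1 - T.c) := by
        apply mul_nonneg (by positivity) (by linarith)
      nlinarith
    calc (1 - 0.75 * T.c - 0.25 * T.c ^ 2) * T.K * (1 - 2 * (T.c / 8)) =
        ((1 - 0.75 * T.c - 0.25 * T.c ^ 2) * (1 - 2 * (T.c / 8))) * T.K := by ring
      _ ≤ (1 - T.c) * T.K := mul_le_mul_of_nonneg_right h4 hK0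
  have h6 : T.sg * T.k = T.c / 8 * ((1 - T.c) * T.K / (1 - 2 * (T.c / 8))) := by
    rw [h1]; ring
  have h7 : T.c / 8 * ((1 - 0.75 * T.c - 0.25 * T.c ^ 2) * T.K) ≤ T.sg * T.k := by
    rw [h6]
    exact mul_le_mul_of_nonneg_left h2 (by positivity)
  have h8 : (0.75 * T.c + 0.25 * T.c ^ 2) * T.K ≤ (0.75 * T.c + 0.25 * T.c ^ 2) * T.x :=
    mul_le_mul_of_nonneg_left (by linarith) (by positivity)
  have h9 : T.c * T.x * (1.25 - 0.25 * T.c) ≤ (1 - 0.75 * T.c - 0.25 * T.c ^ 2) * T.K - T.k := by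
    rw [hkdef]
    nlinarith
  have h10 : T.c / 8 * (T.c * T.x * (1.25 - 0.25 * T.c)) ≤
      T.c / 8 * ((1 - 0.75 * T.c - 0.25 * T.c ^ 2) * T.K - T.k) :=
    mul_le_mul_of_nonneg_left h9 (by positivity)
  have h11 := NUA_y hT
  have h12 : 0 ≤ T.c ^ 2 * T.x := by positivity
  rw [hh]
  nlinarith

theorem main_num (hT : T.Ok) :
    2 * T.h * T.k + 2 * T.sg * T.jL + (1 + 2 * T.sg) + ((T.P + 1) / T.k + (T.P + 1) ^ 3 / T.k ^ 2 +
      (T.P / T.k + 4 * T.sg) * (T.P * (T.P + 1) / T.k) + 2 * T.P * (T.P + 1) ^ 2 / T.k ^ 2) ≤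
      2 * T.sg * T.k := by
  have h1 := NUA_gain hT
  have h2 := NUA_last hT
  have h3 := NUA_mixed hT
  have h4 := NUA_cube hT
  have h5 := NUA_P1k hT
  have h6 := NUA_y hT
  have h7 := hT.x1
  have h8 := NUA_sg hT
  have hc := hT.c0
  have hc1 := hT.c1
  have h9 := sg_hi hT
  have h10 := jL_hi hT
  have hx := x_ge hT
  have hx0 : 0 < T.x := by linarith
  have hsg := sg_pos hT
  have hh : T.h = T.c / 8 := rfl
  have hj0 : (0 : ℝ) ≤ T.jL := Nat.cast_nonneg _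
  have h11 : T.sg * T.jL ≤ (T.h * (1 + 1.5 * T.c)) * (1.1276 * (T.c * T.x)) :=
    mul_le_mul h9 h10 hj0 (by rw [hh]; positivity)
  rw [hh] at h11
  have h12 : T.c / 8 * (1 + 1.5 * T.c) * (1.1276 * (T.c * T.x)) =
      0.14095 * (T.c ^ 2 * T.x) + 0.211425 * (T.c * (T.c ^ 2 * T.x)) := by ring
  have h13 : (0 : ℝ) ≤ T.c ^ 2 * T.x := by positivity
  linarith

end Par

end Pool.Agent.H98.HVB
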