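import Pool.Agent.H98.HVB.ASD

/-!
# NUP: the parameters from `n`, `p`, `W`

`Pn = ⌈2p/W⌉`, `zn = (Pn+1) W - 2p`, `Sn = W + (n+2p) % W`, `Jn = (n+2p)/W - 1`, `Kn = Jn - Pn`, `Rn = (Pn-2)/128`, `ln = (102 p)/800 + 2`, `jLn = ⌈(p+ln)/W⌉`.
Hypotheses: `1000 ≤ W`, `0 < p`, `10^5 p ≤ n`, `10^8 n W ≤ p²` (so `10^8 W ≤ p` etc.: `p² ≥ 10^8 n W ≥ 10^13 p W`, `p ≥ 10^13 W`).
* `g_SJ`: `n + 2p = ((n+2p)/W) W + (n+2p) % W`, the quotient is `≥ 1`.
* `g_z`: `Pn W ≥ 2p`, `Pn W < 2p + W` (ceiling).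
* `g_nK`: `(Kn - 1) W + S + z = n`, i.e. `n + W = Kn W + S + z`: from the two and `Kn + Pn = Jn` (`Pn ≤ Jn`: `Pn W ≤ 2p + W`, `(Jn + 2) W > n + 2p`, `n ≥ 3 W`).
* `mk_ok`: divide by `W`: `x = n/W`, `c x = p/W`, `c² x = p²/(n W)`.
-/

set_option autoImplicit false
set_option linter.unusedVariables false

namespace Pool.Agent.H98.HVB

open Finset

def Pn (p W : ℕ) : ℕ := (2 * p + W - 1) / W
def zn' (p W : ℕ) : ℕ := (Pn p W + 1) * W - 2 * p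
def Sn (n p W : ℕ) : ℕ := W + (n + 2 * p) % W
def Jn (n p W : ℕ) : ℕ := (n + 2 * p) / W - 1
def Kn (n p W : ℕ) : ℕ := Jn n p W - Pn p W
def Rn (p W : ℕ) : ℕ := (Pn p W - 2) / 128
def ln (p : ℕ) : ℕ := (102 * p) / 800 + 2
def jLn (p W : ℕ) : ℕ := (p + ln p + W - 1) / W

/-- The hypotheses on `n`, `p`, `W`. -/
structure Geo (n p W : ℕ) : Prop where
  hW : 1000 ≤ W
  p0 : 0 < p
  hp : 10 ^ 5 * p ≤ n
  hom : 10 ^ 8 * (n * W) ≤ p ^ 2

noncomputable def mk (n p W : ℕ) : Par where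
  K := Kn n p W
  P := Pn p W
  jL := jLn p W
  R := Rn p W
  c := p / n
  x := n / W
  sS := ((Sn n p W : ℝ) - 1) / W
  zz := ((zn' p W : ℝ) + 1) / W

variable {n p W : ℕ}

theorem g_pW (hG : Geo n p W) : 10 ^ 13 * W ≤ p := by
  have h1 := hG.hp
  have h2 := hG.hom
  have h3 := hG.p0
  have h4 : p * (10 ^ 13 * W) ≤ p * p := by
    calc p * (10 ^ 13 * W) = 10 ^ 8 * ((10 ^ 5 * p) * W) := by ring
      _ ≤ 10 ^ 8 * (n * W) := Nat.mul_le_mul_left _ (Nat.mul_le_mul_right _ h1)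
      _ ≤ p ^ 2 := h2
      _ = p * p := by ring
  exact Nat.le_of_mul_le_mul_left h4 h3

theorem NUP_n4 (hG : Geo n p W) : 10 * W ≤ n ∧ 0 < W ∧ 10 ^ 5 ≤ n := by
  have h1 := g_pW hG
  have h2 := hG.hp
  have h3 := hG.hW
  have h4 := hG.p0
  refine ⟨by omega, by omega, by omega⟩

theorem NUP_ceil (a : ℕ) {W : ℕ} (hW : 0 < W) :
    a ≤ (a + W - 1) / W * W ∧ (a + W - 1) / W * W < a + W := by
  have h1 := Nat.div_add_mod (a + W - 1) W
  have h2 := Nat.mod_lt (a + W - 1) hW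
  rw [mul_comm W] at h1
  omega

theorem g_SJ (hG : Geo n p W) : Sn n p W + Jn n p W * W = n + 2 * p := by
  obtain ⟨h1, h2, -⟩ := NUP_n4 hG
  unfold Sn Jn
  have h3 := Nat.div_add_mod (n + 2 * p) W
  have h4 : 1 ≤ (n + 2 * p) / W := by
    rw [Nat.le_div_iff_mul_le h2]
    omega
  obtain ⟨q, hq⟩ : ∃ q, (n + 2 * p) / W = q + 1 := ⟨(n + 2 * p) / W - 1, by omega⟩
  rw [hq] at h3 ⊢
  rw [Nat.add_sub_cancel]
  have h5 : W * (q + 1) = q * W + W := by ring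
  omega

theorem g_S (hG : Geo n p W) : W ≤ Sn n p W ∧ Sn n p W < 2 * W := by
  obtain ⟨h1, h2, -⟩ := NUP_n4 hG
  unfold Sn
  have h3 := Nat.mod_lt (n + 2 * p) h2
  omega

theorem g_P (hG : Geo n p W) : 2 * p ≤ Pn p W * W ∧ Pn p W * W < 2 * p + W := by
  obtain ⟨h1, h2, -⟩ := NUP_n4 hG
  exact NUP_ceil (2 * p) h2

theorem g_z (hG : Geo n p W) : zn' p W + 2 * p = (Pn p W + 1) * W ∧ W ≤ zn' p W ∧ zn' p W < 2 * W := by
  obtain ⟨h1, h2⟩ := g_P hG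
  unfold zn'
  have h3 : (Pn p W + 1) * W = Pn p W * W + W := by ring
  omega

theorem g_PJ (hG : Geo n p W) : Pn p W + 2 ≤ Jn n p W := by
  obtain ⟨h1, h2, -⟩ := NUP_n4 hG
  obtain ⟨h3, h4⟩ := g_P hG
  obtain ⟨h5, h6⟩ := g_S hG
  have h7 := g_SJ hG
  by_contra hcon
  have h8 : Jn n p W ≤ Pn p W + 1 := by omega
  have h9 : Jn n p W * W ≤ (Pn p W + 1) * W := Nat.mul_le_mul_right _ h8
  have h10 : (Pn p W + 1) * W = Pn p W * W + W := by ring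
  omega

theorem g_KP (hG : Geo n p W) : Kn n p W + Pn p W = Jn n p W := by
  have h := g_PJ hG
  unfold Kn
  omega

theorem g_nK (hG : Geo n p W) : n + W = Kn n p W * W + Sn n p W + zn' p W := by
  have h1 := g_KP hG
  have h2 := g_SJ hG
  obtain ⟨h3, -, -⟩ := g_z hG
  have h4 : Kn n p W * W + Pn p W * W = Jn n p W * W := by rw [← add_mul, h1]
  have h5 : (Pn p W + 1) * W = Pn p W * W + W := by ring
  omega

theorem NUP_P2 (hG : Geo n p W) : 2 ≤ Pn p W := by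
  obtain ⟨h1, h2, -⟩ := NUP_n4 hG
  obtain ⟨h3, h4⟩ := g_P hG
  have h5 := g_pW hG
  by_contra hcon
  have h6 : Pn p W ≤ 1 := by omega
  have h7 : Pn p W * W ≤ 1 * W := Nat.mul_le_mul_right _ h6
  omega

theorem g_R (hG : Geo n p W) : 128 * Rn p W + 2 ≤ Pn p W ∧ Pn p W ≤ 128 * Rn p W + 129 := by
  have h := NUP_P2 hG
  unfold Rn
  omega

theorem g_jL (hG : Geo n p W) : p + ln p ≤ jLn p W * W ∧ jLn p W * W < p + ln p + W := by
  obtain ⟨h1, h2, -⟩ := NUP_n4 hG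
  exact NUP_ceil (p + ln p) h2

theorem mk_J (hG : Geo n p W) : (mk n p W).J = Jn n p W := g_KP hG

theorem mk_ok (hG : Geo n p W) : (mk n p W).Ok := by
  obtain ⟨a1, a2, a3⟩ := NUP_n4 hG
  obtain ⟨b1, b2⟩ := g_P hG
  obtain ⟨c1, c2⟩ := g_S hG
  obtain ⟨d1, d2, d3⟩ := g_z hG
  obtain ⟨e1, e2⟩ := g_R hG
  obtain ⟨f1, f2⟩ := g_jL hG
  have hp0 := hG.p0
  have hWr : (1000 : ℝ) ≤ W := by exact_mod_cast hG.hW
  have hW0 : (0 : ℝ) < W := by linarith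
  have hn0 : (0 : ℝ) < n := by
    have : (10 ^ 5 : ℝ) ≤ n := by exact_mod_cast a3
    linarith
  have hpr : (0 : ℝ) < p := by exact_mod_cast hp0
  have hcx : (p : ℝ) / n * (n / W) = p / W := by field_simp
  refine ⟨?_, ?_, ?_, ?_, ?_, ?_, ?_, ?_, ?_, ?_, ?_, ?_, e1, e2⟩
  · change 0 < (p : ℝ) / n
    positivity
  · change (p : ℝ) / n ≤ 1 / 10 ^ 5
    rw [div_le_div_iff₀ hn0 (by positivity)]
    have : (10 ^ 5 : ℝ) * p ≤ n := by exact_mod_cast hG.hp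
    linarith
  · change (10 ^ 8 : ℝ) ≤ ((p : ℝ) / n) ^ 2 * (n / W)
    have h1 : ((p : ℝ) / n) ^ 2 * (n / W) = p ^ 2 / (n * W) := by field_simp
    rw [h1, le_div_iff₀ (by positivity)]
    exact_mod_cast hG.hom
  · change (n : ℝ) / W = (Kn n p W : ℝ) - 1 + ((Sn n p W : ℝ) - 1) / W + ((zn' p W : ℝ) + 1) / W
    have h1 : (n : ℝ) + W = Kn n p W * W + Sn n p W + zn' p W := by exact_mod_cast g_nK hG
    field_simp
    linarith
  · change (99 / 100 : ℝ) ≤ ((Sn n p W : ℝ) - 1) / W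
    have h1 : (W : ℝ) ≤ Sn n p W := by exact_mod_cast c1
    rw [le_div_iff₀ hW0]
    linarith
  · change ((Sn n p W : ℝ) - 1) / W ≤ 2
    have h1 : (Sn n p W : ℝ) < 2 * W := by exact_mod_cast c2
    rw [div_le_iff₀ hW0]
    linarith
  · change (1 : ℝ) ≤ ((zn' p W : ℝ) + 1) / W
    have h1 : (W : ℝ) ≤ zn' p W := by exact_mod_cast d2
    rw [le_div_iff₀ hW0]
    linarith
  · change ((zn' p W : ℝ) + 1) / W ≤ 2
    have h1 : (zn' p W : ℝ) + 1 ≤ 2 * W := by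
      have : zn' p W + 1 ≤ 2 * W := d3
      exact_mod_cast this
    rw [div_le_iff₀ hW0]
    linarith
  · change (2 : ℝ) ≤ ((Sn n p W : ℝ) - 1) / W + ((zn' p W : ℝ) + 1) / W
    have h1 : (W : ℝ) ≤ zn' p W := by exact_mod_cast d2
    have h2 : (W : ℝ) ≤ Sn n p W := by exact_mod_cast c1
    rw [← add_div, le_div_iff₀ hW0]
    linarith
  · change 2 * ((p : ℝ) / n) * (n / W) ≤ (Pn p W : ℝ)
    rw [mul_assoc, hcx]
    have h1 : (2 : ℝ) * p ≤ Pn p W * W := by exact_mod_cast b1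
    rw [← mul_div_assoc, div_le_iff₀ hW0]
    linarith
  · change (Pn p W : ℝ) ≤ 2 * ((p : ℝ) / n) * (n / W) + 1
    rw [mul_assoc, hcx]
    have h1 : (Pn p W : ℝ) * W < 2 * p + W := by exact_mod_cast b2
    have h2 : (2 * ((p : ℝ) / W) + 1) * W = 2 * p + W := by field_simp
    have h3 : (Pn p W : ℝ) * W ≤ (2 * ((p : ℝ) / W) + 1) * W := by
      rw [h2]
      exact h1.le
    exact le_of_mul_le_mul_right h3 hW0
  · change (jLn p W : ℝ) ≤ 1.1275 * ((p : ℝ) / n) * (n / W) + 3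
    rw [mul_assoc, hcx]
    have h0 : ln p ≤ 102 * p / 800 + 2 := le_rfl
    have h1 : (jLn p W : ℝ) * W < p + ln p + W := by exact_mod_cast f2
    have h4 : 800 * ln p ≤ 102 * p + 1600 := by
      unfold ln
      omega
    have h5 : (800 : ℝ) * ln p ≤ 102 * p + 1600 := by exact_mod_cast h4
    have h2 : (1.1275 * ((p : ℝ) / W) + 3) * W = 1.1275 * p + 3 * W := by field_simp
    have h3 : (jLn p W : ℝ) * W ≤ (1.1275 * ((p : ℝ) / W) + 3) * W := by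
      rw [h2]
      norm_num
      linarith
    exact le_of_mul_le_mul_right h3 hW0

theorem mk_rel (hG : Geo n p W) :
    Par.Rel (mk n p W) n W (Sn n p W) (zn' p W) ((p : ℝ) / n) := by
  obtain ⟨a1, a2, a3⟩ := NUP_n4 hG
  exact ⟨rfl, rfl, rfl, rfl, hG.hW, by omega⟩

end Pool.Agent.H98.HVB
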