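import Pool.Agent.H98.HVB.SWA

/-!
# OMG: the three facts about `Om`

`J = k + 2 P + 1`, `K = k + P + 1` (real numbers), `y := Db x ≥ (1-2h) k` (`Dbx_lo`), `y ≤ (1-2h) k + 3` (`Dbx_hi`), `y > 0`.
`Om_sum`: let `s = #Q ≥ k`.  By `Om_eq`
`y ∑_{i,i' ∈ Q} Om = s² (Db ∑ w + Db ws) - 2 s Db ∑_{i∈Q} w(Z i) + Db ∑_{i,i'} w(Z i ∩ Z i')`
`≤ s² (J - P(P+1)/k - sg (2J - 2jL) + (P/k + 4sg) P(P+1)/k + 2) - 2 s (s (P+1)(1-2sg) - P(P+1)²/k) + K (P+1)²`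
(`sum_w_ub`, `Db_ws`, `sumZ_lb`, `sumZZ_ub`).  As `s ≥ k`: `2 s P(P+1)²/k ≤ 2 s² P (P+1)²/k²`, `K (P+1)² ≤ s² K (P+1)²/k² = s² ((P+1)²/k + (P+1)³/k²)`.  So it is at most `s²` times
`(k - 1)(1 - 2sg) + 2 sg jL + 2 + (P+1)/k + (P+1)³/k² + (P/k + 4sg) P(P+1)/k + 2P(P+1)²/k²` (because `J - 2(P+1) = k - 1` and `-P(P+1)/k + (P+1)²/k = (P+1)/k`),
which is `≤ (1 - 2h) k ≤ y` by `main_num`.
`Om_row`: in the same way `y ∑_{i' ∈ Q} Om i i' ≤ s (...)` with `Z_lb`, `oneZZ_ub`: the bracket is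
`(k-1)(1-2sg) + 2 sg jL + 2 + (P+1)/k + (P/k+4sg)P(P+1)/k + P(P+1)²/k² + P(P+1)/k ≤ (1-2h)k + P(P+1)/k ≤ y + 4.1 c² x`, and `4.1 c² x ≤ 5 c² y` as `y ≥ 0.99 x`.
`Om_ge`: `y Om i i' ≥ Db ∑ w - Db w(Z i) - Db w(Z i') ≥ (k-1)(1-2sg) - P(P+1)/k + 2 sg jL` (`sum_w_lb`, `Z_ub`, `ZZ_nonneg`, `ws_nonneg`);
`y - this ≤ 3 + (1-2h)k - (k-1)(1-2sg) + P(P+1)/k ≤ 4 + 2 (sg - h) k + 4.1 c² x`, `(sg - h) k = h th K/(1-2h) - h k ≤ h (K - k) = h (P+1) ≤ 0.26 c² x` (`th ≤ 1-2h`); so `≤ 5 c² x ≤ 6 c² y`.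
`Om_le`: from `Om_ge`-type bounds is not needed.
-/

set_option autoImplicit false
set_option linter.unusedVariables false

namespace Pool.Agent.H98.HVB

open Finset

namespace Par

variable {T : Par}

theorem OMG_alg_sum (s k P K jL sg h A W B C : ℝ) (hk : 0 < k) (hs : k ≤ s) (hP : 0 ≤ P)
    (hK : K = k + P + 1)
    (hA : A ≤ (K + P) - P * (P + 1) / k - sg * (2 * (K + P) - 2 * jL) +
      (P / k + 4 * sg) * (P * (P + 1) / k))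
    (hW : W ≤ 2) (hB : s * ((P + 1) * (1 - 2 * sg)) - (P + 1) * (P * (P + 1) / k) ≤ B)
    (hC : C ≤ K * (P + 1) ^ 2)
    (hmain : 2 * h * k + 2 * sg * jL + (1 + 2 * sg) + ((P + 1) / k + (P + 1) ^ 3 / k ^ 2 +
      (P / k + 4 * sg) * (P * (P + 1) / k) + 2 * P * (P + 1) ^ 2 / k ^ 2) ≤ 2 * sg * k) :
    s ^ 2 * (A + W) - 2 * s * B + C ≤ s ^ 2 * ((1 - 2 * h) * k) := by
  obtain ⟨X, hX⟩ : ∃ X, X = P * (P + 1) / k := ⟨_, rfl⟩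
  obtain ⟨Y, hY⟩ : ∃ Y, Y = (P + 1) / k := ⟨_, rfl⟩
  obtain ⟨Z, hZ⟩ : ∃ Z, Z = (P + 1) ^ 3 / k ^ 2 := ⟨_, rfl⟩
  obtain ⟨X2, hX2⟩ : ∃ X2, X2 = P * (P + 1) ^ 2 / k ^ 2 := ⟨_, rfl⟩
  have hs0 : 0 < s := lt_of_lt_of_le hk hs
  have hk2 : k ^ 2 ≤ s ^ 2 := by nlinarith
  have hY0 : 0 ≤ Y := by rw [hY]; positivity
  have hZ0 : 0 ≤ Z := by rw [hZ]; positivity
  have hX0 : 0 ≤ X := by rw [hX]; positivity
  have hX20 : 0 ≤ X2 := by rw [hX2]; positivity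
  have e1 : (P + 1) * (P * (P + 1) / k) = k * X2 := by rw [hX2]; field_simp
  have e2 : (P + 1) ^ 2 = k * (X + Y) := by rw [hX, hY]; field_simp
  have e3 : (P + 1) ^ 3 = k ^ 2 * Z := by rw [hZ]; field_simp
  have e4 : 2 * P * (P + 1) ^ 2 / k ^ 2 = 2 * X2 := by rw [hX2]; ring
  rw [e4, ← hX, ← hY, ← hZ] at hmain
  rw [← hX] at hA
  rw [e1] at hB
  have hC' : C ≤ s ^ 2 * (X + Y + Z) := by
    have e5 : K * (P + 1) ^ 2 = k ^ 2 * (X + Y + Z) := by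
      have : K * (P + 1) ^ 2 = k * (P + 1) ^ 2 + (P + 1) ^ 3 := by rw [hK]; ring
      rw [this, e2, e3]; ring
    rw [e5] at hC
    exact hC.trans (mul_le_mul_of_nonneg_right hk2 (by positivity))
  have hB' : 2 * s ^ 2 * ((P + 1) * (1 - 2 * sg)) - 2 * s ^ 2 * X2 ≤ 2 * s * B := by
    have h1 := mul_le_mul_of_nonneg_left hB (by positivity : 0 ≤ 2 * s)
    have h2 : 2 * s * (k * X2) ≤ 2 * s ^ 2 * X2 := by
      have : 2 * s * k ≤ 2 * s * s := mul_le_mul_of_nonneg_left hs (by positivity)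
      nlinarith [mul_le_mul_of_nonneg_right this hX20]
    nlinarith
  have hA' : A + W ≤ (K + P) - X - sg * (2 * (K + P) - 2 * jL) + (P / k + 4 * sg) * X + 2 := by
    linarith
  have hA'' := mul_le_mul_of_nonneg_left hA' (sq_nonneg s)
  have hG : (K + P) - X - sg * (2 * (K + P) - 2 * jL) + (P / k + 4 * sg) * X + 2
      - 2 * ((P + 1) * (1 - 2 * sg)) + 2 * X2 + (X + Y + Z) ≤ (1 - 2 * h) * k := by
    subst hK
    linarith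
  have hG' := mul_le_mul_of_nonneg_left hG (sq_nonneg s)
  linarith

theorem OMG_alg_row (s k P K jL sg h A W B1 B C : ℝ) (hk : 0 < k) (hs : k ≤ s) (hP : 0 ≤ P)
    (hK : K = k + P + 1)
    (hA : A ≤ (K + P) - P * (P + 1) / k - sg * (2 * (K + P) - 2 * jL) +
      (P / k + 4 * sg) * (P * (P + 1) / k))
    (hW : W ≤ 2) (hB1 : (P + 1) * (1 - 2 * sg) - P * (P + 1) / k ≤ B1)
    (hB : s * ((P + 1) * (1 - 2 * sg)) - (P + 1) * (P * (P + 1) / k) ≤ B)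
    (hC : C ≤ (P + 1) ^ 2)
    (hmain : 2 * h * k + 2 * sg * jL + (1 + 2 * sg) + ((P + 1) / k + (P + 1) ^ 3 / k ^ 2 +
      (P / k + 4 * sg) * (P * (P + 1) / k) + 2 * P * (P + 1) ^ 2 / k ^ 2) ≤ 2 * sg * k) :
    s * (A + W) - s * B1 - B + C ≤ s * ((1 - 2 * h) * k + P * (P + 1) / k) := by
  obtain ⟨X, hX⟩ : ∃ X, X = P * (P + 1) / k := ⟨_, rfl⟩
  obtain ⟨Y, hY⟩ : ∃ Y, Y = (P + 1) / k := ⟨_, rfl⟩
  obtain ⟨Z, hZ⟩ : ∃ Z, Z = (P + 1) ^ 3 / k ^ 2 := ⟨_, rfl⟩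
  obtain ⟨X2, hX2⟩ : ∃ X2, X2 = P * (P + 1) ^ 2 / k ^ 2 := ⟨_, rfl⟩
  have hs0 : 0 < s := lt_of_lt_of_le hk hs
  have hY0 : 0 ≤ Y := by rw [hY]; positivity
  have hZ0 : 0 ≤ Z := by rw [hZ]; positivity
  have hX0 : 0 ≤ X := by rw [hX]; positivity
  have hX20 : 0 ≤ X2 := by rw [hX2]; positivity
  have e1 : (P + 1) * (P * (P + 1) / k) = k * X2 := by rw [hX2]; field_simp
  have e2 : (P + 1) ^ 2 = k * (X + Y) := by rw [hX, hY]; field_simp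
  have e4 : 2 * P * (P + 1) ^ 2 / k ^ 2 = 2 * X2 := by rw [hX2]; ring
  rw [e4, ← hX, ← hY, ← hZ] at hmain
  rw [e1] at hB
  rw [← hX] at hA hB1 ⊢
  rw [e2] at hC
  have hC' : C ≤ s * (X + Y) := hC.trans (mul_le_mul_of_nonneg_right hs (by positivity))
  have hB' : s * ((P + 1) * (1 - 2 * sg)) - s * X2 ≤ B := by
    have h2 : k * X2 ≤ s * X2 := mul_le_mul_of_nonneg_right hs hX20
    linarith
  have hB1' := mul_le_mul_of_nonneg_left hB1 hs0.le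
  have hA' : A + W ≤ (K + P) - X - sg * (2 * (K + P) - 2 * jL) + (P / k + 4 * sg) * X + 2 := by
    linarith
  have hA'' := mul_le_mul_of_nonneg_left hA' hs0.le
  have hG : (K + P) - X - sg * (2 * (K + P) - 2 * jL) + (P / k + 4 * sg) * X + 2
      - ((P + 1) * (1 - 2 * sg) - X) - (P + 1) * (1 - 2 * sg) + X2 + (X + Y) ≤
      (1 - 2 * h) * k + X := by
    subst hK
    linarith
  have hG' := mul_le_mul_of_nonneg_left hG hs0.le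
  linarith

theorem OMG_y (hT : T.Ok) : 0.99 * T.x ≤ T.Db * T.x := by
  have h1 := Db_lo hT
  have h2 := hT.c1
  have h3 := x_ge hT
  have h4 : (0 : ℝ) ≤ T.x := le_trans (by norm_num) h3
  apply mul_le_mul_of_nonneg_right _ h4
  norm_num at h2
  linarith

theorem OMG_x_pos (hT : T.Ok) : 0 < T.x := lt_of_lt_of_le (by norm_num) (x_ge hT)

theorem OMG_y_pos (hT : T.Ok) : 0 < T.Db * T.x := by
  have := OMG_y hT
  have := OMG_x_pos hT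
  linarith

theorem OMG_k_pos (hT : T.Ok) : 0 < T.k := lt_of_lt_of_le (by norm_num) (k_pos hT)

theorem OMG_K (T : Par) : (T.K : ℝ) = T.k + T.P + 1 := by
  unfold k
  ring

theorem OMG_J (T : Par) : (T.J : ℝ) = T.K + T.P := by
  unfold J
  push_cast
  ring

theorem Om_sum (hT : T.Ok) {Q : Finset ℕ} (hQ : Q ⊆ range T.K) (hk : T.k ≤ Q.card) :
    ∑ i ∈ Q, ∑ i' ∈ Q, T.Om i i' ≤ (Q.card : ℝ) ^ 2 := by
  have key : T.x * ∑ i ∈ Q, ∑ i' ∈ Q, T.Om i i' =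
      (Q.card : ℝ) ^ 2 * (∑ j ∈ range T.J, T.w j + T.ws) -
        2 * Q.card * ∑ i ∈ Q, ∑ j ∈ T.Z i, T.w j +
        ∑ i ∈ Q, ∑ i' ∈ Q, ∑ j ∈ T.Z i ∩ T.Z i', T.w j := by
    simp_rw [mul_sum, Om_eq hT]
    simp only [sum_add_distrib, sum_sub_distrib, sum_const, nsmul_eq_mul]
    simp only [← mul_sum]
    ring
  have key2 : (T.Db * T.x) * ∑ i ∈ Q, ∑ i' ∈ Q, T.Om i i' =
      (Q.card : ℝ) ^ 2 * (T.Db * ∑ j ∈ range T.J, T.w j + T.Db * T.ws) -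
        2 * Q.card * (T.Db * ∑ i ∈ Q, ∑ j ∈ T.Z i, T.w j) +
        T.Db * ∑ i ∈ Q, ∑ i' ∈ Q, ∑ j ∈ T.Z i ∩ T.Z i', T.w j := by
    rw [mul_assoc, key]
    ring
  have hA := sum_w_ub hT
  rw [OMG_J] at hA
  have h1 := OMG_alg_sum Q.card T.k T.P T.K T.jL T.sg T.h _ _ _ _ (OMG_k_pos hT) hk
    (Nat.cast_nonneg _) (OMG_K T) hA (Db_ws hT) (sumZ_lb hT hQ) (sumZZ_ub hT hQ) (main_num hT)
  rw [← key2] at h1
  have h2 := Dbx_lo hT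
  have h3 := mul_le_mul_of_nonneg_left h2 (sq_nonneg (Q.card : ℝ))
  have h4 := OMG_y_pos hT
  have h5 : (T.Db * T.x) * ∑ i ∈ Q, ∑ i' ∈ Q, T.Om i i' ≤ (T.Db * T.x) * (Q.card : ℝ) ^ 2 := by
    linarith
  exact le_of_mul_le_mul_left h5 h4

theorem Om_row (hT : T.Ok) {Q : Finset ℕ} (hQ : Q ⊆ range T.K) (hk : T.k ≤ Q.card) {i : ℕ}
    (hi : i < T.K) : ∑ i' ∈ Q, T.Om i i' ≤ Q.card * (1 + 5 * T.c ^ 2) := by
  have key : T.x * ∑ i' ∈ Q, T.Om i i' =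
      (Q.card : ℝ) * (∑ j ∈ range T.J, T.w j + T.ws) - Q.card * ∑ j ∈ T.Z i, T.w j -
        ∑ i' ∈ Q, ∑ j ∈ T.Z i', T.w j + ∑ i' ∈ Q, ∑ j ∈ T.Z i ∩ T.Z i', T.w j := by
    rw [mul_sum, sum_congr rfl fun i' _ => Om_eq hT i i']
    simp only [sum_add_distrib, sum_sub_distrib, sum_const, nsmul_eq_mul]
    ring
  have key2 : (T.Db * T.x) * ∑ i' ∈ Q, T.Om i i' =
      (Q.card : ℝ) * (T.Db * ∑ j ∈ range T.J, T.w j + T.Db * T.ws) -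
        Q.card * (T.Db * ∑ j ∈ T.Z i, T.w j) - T.Db * ∑ i' ∈ Q, ∑ j ∈ T.Z i', T.w j +
        T.Db * ∑ i' ∈ Q, ∑ j ∈ T.Z i ∩ T.Z i', T.w j := by
    rw [mul_assoc, key]
    ring
  have hA := sum_w_ub hT
  rw [OMG_J] at hA
  have h1 := OMG_alg_row Q.card T.k T.P T.K T.jL T.sg T.h _ _ _ _ _ (OMG_k_pos hT) hk
    (Nat.cast_nonneg _) (OMG_K T) hA (Db_ws hT) (Z_lb hT hi) (sumZ_lb hT hQ) (oneZZ_ub hT hQ hi)
    (main_num hT)
  rw [← key2] at h1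
  have h2 := Dbx_lo hT
  have h4 := OMG_y_pos hT
  have h6 := PP_k hT
  have h7 := OMG_y hT
  have hc2 : 0 ≤ T.c ^ 2 := sq_nonneg _
  have hx := OMG_x_pos hT
  have h8 : (1 - 2 * T.h) * T.k + T.P * (T.P + 1) / T.k ≤ (T.Db * T.x) * (1 + 5 * T.c ^ 2) := by
    have h9 := mul_le_mul_of_nonneg_left h7 hc2
    have h10 : 0 ≤ T.c ^ 2 * T.x := by positivity
    nlinarith
  have h3 := mul_le_mul_of_nonneg_left h8 (Nat.cast_nonneg (α := ℝ) Q.card)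
  have h5 : (T.Db * T.x) * ∑ i' ∈ Q, T.Om i i' ≤
      (T.Db * T.x) * (Q.card * (1 + 5 * T.c ^ 2)) := by
    linarith
  exact le_of_mul_le_mul_left h5 h4

theorem Om_ge (hT : T.Ok) {i i' : ℕ} (hi : i < T.K) (hi' : i' < T.K) :
    1 - 10 * T.c ^ 2 ≤ T.Om i i' := by
  have key : (T.Db * T.x) * T.Om i i' =
      T.Db * ∑ j ∈ range T.J, T.w j + T.Db * T.ws - T.Db * ∑ j ∈ T.Z i, T.w j -
        T.Db * ∑ j ∈ T.Z i', T.w j + T.Db * ∑ j ∈ T.Z i ∩ T.Z i', T.w j := by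
    rw [mul_assoc, Om_eq hT]
    ring
  have hDb : 0 < T.Db := by
    have h4 := Db_lo hT
    have h5 := hT.c1
    norm_num at h5
    linarith
  have hA := sum_w_lb hT
  rw [OMG_J] at hA
  have h1 : 0 ≤ T.Db * T.ws := mul_nonneg hDb.le (ws_nonneg hT)
  have h2 := Z_ub hT hi
  have h3 := Z_ub hT hi'
  have h4 : 0 ≤ T.Db * ∑ j ∈ T.Z i ∩ T.Z i', T.w j := mul_nonneg hDb.le (ZZ_nonneg hT i i')
  have h5 := Dbx_hi hT
  have h6 := PP_k hT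
  have h7 := OMG_y hT
  have hx := OMG_x_pos hT
  have hK := OMG_K T
  have hsg := sg_pos hT
  have hsgk := sg_k hT
  have hh := h_pos hT
  have hj : 0 ≤ T.sg * T.jL := mul_nonneg hsg.le (Nat.cast_nonneg _)
  have hPhi := P_hi hT
  have hc1 := hT.c1
  have hc0 := hT.c0
  have hx1 := hT.x1
  have hhc : T.h = T.c / 8 := rfl
  have h12 : 0 < 1 - 2 * T.h := by
    rw [hhc]; norm_num at hc1; linarith
  -- (sg - h) k ≤ h (P+1)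
  have h8 : T.sg * T.k ≤ T.h * T.K := by
    rw [hsgk, div_le_iff₀ h12]
    have hth : T.th ≤ 1 - 2 * T.h := by
      unfold th
      rw [hhc]
      linarith
    have hK0 : 0 ≤ T.h * T.K := mul_nonneg hh.le (Nat.cast_nonneg _)
    nlinarith [mul_le_mul_of_nonneg_left hth hK0]
  have h9 : T.h * (T.P + 1) ≤ 0.2502 * (T.c ^ 2 * T.x) := by
    rw [hhc]
    have := mul_le_mul_of_nonneg_left hPhi (by positivity : 0 ≤ T.c / 8)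
    have h10 : 0 ≤ T.c ^ 2 * T.x := by positivity
    nlinarith
  have h10 : T.sg * T.k - T.h * T.k ≤ T.h * (T.P + 1) := by
    have : T.h * T.K = T.h * T.k + T.h * (T.P + 1) := by rw [hK]; ring
    linarith
  have h11 : (T.Db * T.x) * (1 - 10 * T.c ^ 2) ≤ (T.Db * T.x) * T.Om i i' := by
    rw [key]
    have e1 : ((T.K : ℝ) + T.P - T.P * (T.P + 1) / T.k - T.sg * (2 * (T.K + T.P) - 2 * T.jL))
        - 2 * ((T.P + 1) * (1 - 2 * T.sg)) =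
        (T.k - 1) - 2 * (T.sg * T.k) + 2 * T.sg - T.P * (T.P + 1) / T.k + 2 * (T.sg * T.jL) := by
      rw [hK]; ring
    have e2 : T.Db * T.x * (1 - 10 * T.c ^ 2) = T.Db * T.x - 10 * (T.c ^ 2 * (T.Db * T.x)) := by
      ring
    have e3 : 0.99 * (T.c ^ 2 * T.x) ≤ T.c ^ 2 * (T.Db * T.x) := by
      have := mul_le_mul_of_nonneg_left h7 (sq_nonneg T.c)
      linarith
    rw [e2]
    have e4 : (1 - 2 * T.h) * T.k = T.k - 2 * (T.h * T.k) := by ring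
    rw [e4] at h5
    norm_num at hx1 h6 h9 e3
    linarith
  exact le_of_mul_le_mul_left h11 (OMG_y_pos hT)

end Par

end Pool.Agent.H98.HVB
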