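import Pool.Agent.H98.HVB.Defs

/-!
# PAR: numerical consequences of `Par.Ok`

Let `c = T.c`, `x = T.x`.  `c ≤ 1e-5`, `1e8 ≤ c² x`, so `x ≥ 1e18` (`c² ≤ 1e-10`), `c x = c² x / c ≥ 1e13`.
`K = x + 1 - sS - zz ∈ [x - 3, x - 1]`.  `P + 1 ≤ 2 c x + 2 ≤ 2.001 c x`.
`k = K - P - 1 ≥ x - 3 - 2.. ≥ x - 5 - 2 c x ≥ x (1 - 2.1 c)`.  `128 R ≥ P - 129 ≥ 2 c x - 129` gives `R ≥ c x / 65`,
`128 R ≤ P - 2 ≤ 2 c x` gives `R ≤ c x / 64`.  `jL ≤ 1.1275 c x + 3 ≤ 1.1276 c x`.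
`Db = (1 - 2h) k / K`, `k / K = 1 - (P+1)/K ≥ 1 - 2.001 c x/(x-3) ≥ 1 - 2.01 c`, so `Db ≥ (1 - c/4)(1 - 2.01 c) ≥ 1 - 2.4 c`; `Db ≤ 1 - 2h` as `k ≤ K`.
`Db x = (1-2h) k x / K`, `K ≤ x ≤ K + 3`, `(1 - 2h) k ≤ K`: this gives `Dbx_lo`, `Dbx_hi`.
`sg = h th/Db ≤ h (1-c)/(1-2.4c) ≤ h (1 + 1.5 c)`; `sg k = h th K/(1-2h)` by the definition of `Db`.
-/

set_option autoImplicit false
set_option linter.unusedVariables false

namespace Pool.Agent.H98.HVB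

open Finset

namespace Par

variable {T : Par}

theorem x_ge (hT : T.Ok) : 10 ^ 18 ≤ T.x := by
  have h1 : T.c ^ 2 ≤ 1 / 10 ^ 10 := by
    have := hT.c1
    have h0 := hT.c0
    calc T.c ^ 2 ≤ (1 / 10 ^ 5) ^ 2 := pow_le_pow_left₀ h0.le this 2
      _ = 1 / 10 ^ 10 := by norm_num
  have h2 := hT.x1
  have hx : 0 ≤ T.x := by
    by_contra hneg
    push Not at hneg
    have : T.c ^ 2 * T.x ≤ 0 := mul_nonpos_of_nonneg_of_nonpos (by positivity) hneg.le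
    linarith
  have h3 : T.c ^ 2 * T.x ≤ 1 / 10 ^ 10 * T.x := mul_le_mul_of_nonneg_right h1 hx
  linarith

theorem cx_ge (hT : T.Ok) : 10 ^ 13 ≤ T.c * T.x := by
  have hx := x_ge hT
  have h0 := hT.c0
  have h1 := hT.c1
  have h2 := hT.x1
  have h4 : T.c * (T.c * T.x) = T.c ^ 2 * T.x := by ring
  have h5 : 0 ≤ T.c * T.x := by nlinarith
  have h6 : T.c * (T.c * T.x) ≤ 1 / 10 ^ 5 * (T.c * T.x) := mul_le_mul_of_nonneg_right h1 h5
  linarith

theorem K_lo (hT : T.Ok) : T.x - 3 ≤ T.K := by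
  have := hT.xK
  have := hT.s1
  have := hT.z1
  linarith

theorem K_hi (hT : T.Ok) : (T.K : ℝ) ≤ T.x - 1 := by
  have := hT.xK
  have := hT.sz
  linarith

theorem P_hi (hT : T.Ok) : (T.P : ℝ) + 1 ≤ 2.001 * (T.c * T.x) := by
  have := hT.P2
  have := cx_ge hT
  nlinarith

theorem PK (hT : T.Ok) : T.P + 2 ≤ T.K := by
  have h1 := P_hi hT
  have h2 := K_lo hT
  have h3 := x_ge hT
  have h4 := hT.c1
  have h5 : T.c * T.x ≤ 1 / 10 ^ 5 * T.x := mul_le_mul_of_nonneg_right h4 (by linarith)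
  have : (T.P : ℝ) + 2 ≤ T.K := by nlinarith
  exact_mod_cast this

theorem P_pos (hT : T.Ok) : 10 ≤ T.P := by
  have h1 := hT.P1
  have h2 := cx_ge hT
  have : (10 : ℝ) ≤ T.P := by nlinarith
  exact_mod_cast this

theorem k_lo (hT : T.Ok) : T.x * (1 - 2.1 * T.c) ≤ T.k := by
  have h1 := P_hi hT
  have h2 := K_lo hT
  have h3 := cx_ge hT
  have : T.k = T.K - T.P - 1 := rfl
  rw [this]
  nlinarith

theorem k_hi (hT : T.Ok) : T.k ≤ T.K := by
  have : T.k = T.K - T.P - 1 := rfl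
  have : (0 : ℝ) ≤ T.P := Nat.cast_nonneg _
  linarith

theorem k_pos (hT : T.Ok) : 10 ^ 17 ≤ T.k := by
  have h1 := k_lo hT
  have h2 := x_ge hT
  have h4 := hT.c1
  have h5 : T.c * T.x ≤ 1 / 10 ^ 5 * T.x := mul_le_mul_of_nonneg_right h4 (by linarith)
  nlinarith

theorem R_lo (hT : T.Ok) : T.c * T.x / 65 ≤ T.R := by
  have h1 : (T.P : ℝ) ≤ 128 * T.R + 129 := by exact_mod_cast hT.R2
  have h2 := hT.P1
  have h3 := cx_ge hT
  nlinarith

theorem R_hi (hT : T.Ok) : (T.R : ℝ) ≤ T.c * T.x / 64 := by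
  have h1 : 128 * (T.R : ℝ) + 2 ≤ T.P := by exact_mod_cast hT.R1
  have h2 := hT.P2
  nlinarith

theorem R_pos (hT : T.Ok) : 1000 ≤ T.R := by
  have h1 := R_lo hT
  have h3 := cx_ge hT
  have : (1000 : ℝ) ≤ T.R := by nlinarith
  exact_mod_cast this

theorem jL_hi (hT : T.Ok) : (T.jL : ℝ) ≤ 1.1276 * (T.c * T.x) := by
  have h1 := hT.j1
  have h3 := cx_ge hT
  nlinarith

theorem jL_P (hT : T.Ok) : (T.jL : ℝ) + 0.87 * (T.c * T.x) ≤ T.P := by
  have h1 := jL_hi hT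
  have h2 := hT.P1
  have h3 := cx_ge hT
  nlinarith

theorem jL_J (hT : T.Ok) : 2 * T.jL + 10 ≤ T.J := by
  have h1 := jL_hi hT
  have h2 := K_lo hT
  have h3 := cx_ge hT
  have h4 := hT.c1
  have h6 := x_ge hT
  have h5 : T.c * T.x ≤ 1 / 10 ^ 5 * T.x := mul_le_mul_of_nonneg_right h4 (by linarith)
  have h7 : (0 : ℝ) ≤ T.P := Nat.cast_nonneg _
  have h8 : (T.J : ℝ) = T.K + T.P := by unfold J; push_cast; ring
  have : (2 : ℝ) * T.jL + 10 ≤ T.J := by rw [h8]; nlinarith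
  exact_mod_cast this

theorem h_pos (hT : T.Ok) : 0 < T.h := by
  have h0 := hT.c0
  have : T.h = T.c / 8 := rfl
  rw [this]; linarith

theorem th_pos (hT : T.Ok) : 0 < T.th := by
  have h0 := hT.c1
  have : T.th = 1 - T.c := rfl
  rw [this]; norm_num at h0 ⊢; linarith

theorem mu_pos (hT : T.Ok) : 0 < T.mu := by
  have h0 := hT.c1
  have h1 : T.h = T.c / 8 := rfl
  have h2 := K_lo hT
  have h3 := x_ge hT
  have h4 : T.mu = (1 - 2 * T.h) / T.K := rfl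
  rw [h4, h1]
  apply div_pos
  · norm_num at h0 ⊢; linarith
  · linarith

theorem mu_K (hT : T.Ok) : T.mu * T.K = 1 - 2 * T.h := by
  have h2 := K_lo hT
  have h3 := x_ge hT
  have h4 : T.mu = (1 - 2 * T.h) / T.K := rfl
  have h5 : (T.K : ℝ) ≠ 0 := by
    have : (0 : ℝ) < T.K := by linarith
    exact this.ne'
  rw [h4]; field_simp

theorem Db_lo (hT : T.Ok) : 1 - 2.4 * T.c ≤ T.Db := by
  have h0 := hT.c0
  have h1 := hT.c1
  have h2 := K_lo hT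
  have h2' := K_hi hT
  have h3 := x_ge hT
  have h6 := P_hi hT
  have h7 := cx_ge hT
  have h4 : T.Db = (1 - 2 * T.h) / T.K * T.k := rfl
  have h5 : (0 : ℝ) < T.K := by linarith
  have hk : T.k = T.K - T.P - 1 := rfl
  have hh : T.h = T.c / 8 := rfl
  have h8 : 1 - 2.01 * T.c ≤ T.k / T.K := by
    rw [le_div_iff₀ h5, hk]
    have h9 : T.c * T.x ≤ T.c * (T.K + 3) := mul_le_mul_of_nonneg_left (by linarith) h0.le
    have h10 : T.c * 10 ^ 13 ≤ T.c * T.K := mul_le_mul_of_nonneg_left (by linarith) h0.le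
    nlinarith
  have h11 : T.Db = (1 - T.c / 4) * (T.k / T.K) := by
    rw [h4, hh]; ring
  rw [h11]
  have h12 : 0 ≤ 1 - T.c / 4 := by norm_num at h1 ⊢; linarith
  have h13 : (1 - T.c / 4) * (1 - 2.01 * T.c) ≤ (1 - T.c / 4) * (T.k / T.K) :=
    mul_le_mul_of_nonneg_left h8 h12
  nlinarith

theorem Db_hi (hT : T.Ok) : T.Db ≤ 1 - 2 * T.h := by
  have h1 := hT.c1
  have h2 := K_lo hT
  have h3 := x_ge hT
  have h4 : T.Db = (1 - 2 * T.h) / T.K * T.k := rfl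
  have h5 : (0 : ℝ) < T.K := by linarith
  have h6 := k_hi hT
  have hh : T.h = T.c / 8 := rfl
  have h12 : 0 ≤ 1 - 2 * T.h := by rw [hh]; norm_num at h1 ⊢; linarith
  have h11 : T.Db = (1 - 2 * T.h) * (T.k / T.K) := by
    rw [h4]; ring
  rw [h11]
  have h8 : T.k / T.K ≤ 1 := by rw [div_le_one h5]; exact h6
  nlinarith

theorem Dbx_lo (hT : T.Ok) : (1 - 2 * T.h) * T.k ≤ T.Db * T.x := by
  have h1 := hT.c1
  have h2 := K_lo hT
  have h2' := K_hi hT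
  have h3 := x_ge hT
  have h4 : T.Db = (1 - 2 * T.h) / T.K * T.k := rfl
  have h5 : (0 : ℝ) < T.K := by linarith
  have h6 := k_pos hT
  have hh : T.h = T.c / 8 := rfl
  have h12 : 0 ≤ 1 - 2 * T.h := by rw [hh]; norm_num at h1 ⊢; linarith
  have h11 : T.Db * T.x = (1 - 2 * T.h) * T.k * (T.x / T.K) := by
    rw [h4]; ring
  rw [h11]
  have h8 : 1 ≤ T.x / T.K := by rw [le_div_iff₀ h5]; linarith
  have h9 : 0 ≤ (1 - 2 * T.h) * T.k := mul_nonneg h12 (by linarith)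
  nlinarith

theorem Dbx_hi (hT : T.Ok) : T.Db * T.x ≤ (1 - 2 * T.h) * T.k + 3 := by
  have h1 := hT.c1
  have h2 := K_lo hT
  have h2' := K_hi hT
  have h3 := x_ge hT
  have h4 : T.Db = (1 - 2 * T.h) / T.K * T.k := rfl
  have h5 : (0 : ℝ) < T.K := by linarith
  have h6 := k_pos hT
  have h6' := k_hi hT
  have hh : T.h = T.c / 8 := rfl
  have hp := h_pos hT
  have h12 : 0 ≤ 1 - 2 * T.h := by rw [hh]; norm_num at h1 ⊢; linarith
  have h11 : T.Db * T.x = (1 - 2 * T.h) * T.k * (T.x / T.K) := by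
    rw [h4]; ring
  rw [h11]
  have h8 : T.x / T.K ≤ 1 + 3 / T.K := by
    rw [div_le_iff₀ h5]
    have : (1 + 3 / (T.K : ℝ)) * T.K = T.K + 3 := by field_simp
    rw [this]; linarith
  have h9 : 0 ≤ (1 - 2 * T.h) * T.k := mul_nonneg h12 (by linarith)
  have h10 : (1 - 2 * T.h) * T.k * (T.x / T.K) ≤ (1 - 2 * T.h) * T.k * (1 + 3 / T.K) :=
    mul_le_mul_of_nonneg_left h8 h9
  have h13 : (1 - 2 * T.h) * T.k ≤ T.K := by nlinarith
  have h14 : (1 - 2 * T.h) * T.k * (3 / T.K) ≤ T.K * (3 / T.K) :=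
    mul_le_mul_of_nonneg_right h13 (by positivity)
  have h15 : T.K * (3 / (T.K : ℝ)) = 3 := by field_simp
  nlinarith

theorem sg_pos (hT : T.Ok) : 0 < T.sg := by
  have h1 := h_pos hT
  have h2 := th_pos hT
  have h3 := Db_lo hT
  have h4 := hT.c1
  have : T.sg = T.h * T.th / T.Db := rfl
  rw [this]
  apply div_pos (mul_pos h1 h2)
  norm_num at h4 h3 ⊢; linarith

theorem sg_hi (hT : T.Ok) : T.sg ≤ T.h * (1 + 1.5 * T.c) := by
  have h1 := h_pos hT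
  have h2 := th_pos hT
  have h3 := Db_lo hT
  have h4 := hT.c1
  have h0 := hT.c0
  have hth : T.th = 1 - T.c := rfl
  have : T.sg = T.h * T.th / T.Db := rfl
  have hD : 0 < T.Db := by norm_num at h4 h3 ⊢; linarith
  rw [this, div_le_iff₀ hD, mul_assoc]
  apply mul_le_mul_of_nonneg_left _ h1.le
  rw [hth]
  have h5 : (1 + 1.5 * T.c) * (1 - 2.4 * T.c) ≤ (1 + 1.5 * T.c) * T.Db :=
    mul_le_mul_of_nonneg_left h3 (by linarith)
  nlinarith

theorem sg_k (hT : T.Ok) : T.sg * T.k = T.h * T.th * T.K / (1 - 2 * T.h) := by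
  have h1 := h_pos hT
  have h2 := th_pos hT
  have h3 := K_lo hT
  have h4 := hT.c1
  have h6 := k_pos hT
  have h7 := x_ge hT
  have hh : T.h = T.c / 8 := rfl
  have h5 : (T.K : ℝ) ≠ 0 := by
    have : (0 : ℝ) < T.K := by linarith
    exact this.ne'
  have h8 : T.k ≠ 0 := by
    have : (0 : ℝ) < T.k := by linarith
    exact this.ne'
  have h12 : (1 - 2 * T.h) ≠ 0 := by
    have : 0 < 1 - 2 * T.h := by rw [hh]; norm_num at h4 ⊢; linarith
    exact this.ne'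
  have h9 : T.sg = T.h * T.th / ((1 - 2 * T.h) / T.K * T.k) := rfl
  rw [h9]; field_simp

end Par

end Pool.Agent.H98.HVB
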