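import Pool.Agent.H98.HVB.COR

/-!
# QQF: the final distribution `q`

`q = q1 + cor`.
* `q_row`: `∑_{j ∈ E i} q + qs = rho + e = tau` (`cor_row`).  `q_col`: `q1_col`, `cor_col`.  `q_off`: `cor_av`.
* `q_lo`: `q0_lo`, `cor_lo_u`: `(1 - 90c - 0.27)/x ≥ 0.7/x`.  `q_hi`: `q0_hi`, `cor_hi`: `(1 + 50c + 0.567c)/x`.
* `q_load`: `mu ∑_{i ∈ act j} q i b j = mu ∑ q0 + mu ∑ cor ≤ load0 + mu #act (0.567 c/x)`, `mu #act ≤ mu K ≤ 1`.
* `tau_lo`, `tau_hi`: `zeta_le`, `zeta_pos`.
-/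

set_option autoImplicit false
set_option linter.unusedVariables false

namespace Pool.Agent.H98.HVB

open Finset

namespace Par

variable {T : Par}

theorem tau_lo (hT : T.Ok) (i : ℕ) (b : Bool × Fin T.R) : 3 / 4 ≤ T.tau i b := by
  have h1 := zeta_le hT
  unfold tau
  split_ifs
  · linarith
  · norm_num

theorem tau_hi (hT : T.Ok) (i : ℕ) (b : Bool × Fin T.R) : T.tau i b ≤ 1 := by
  have h1 := zeta_pos hT
  unfold tau
  split_ifs
  · linarith
  · norm_num

theorem q_row (hT : T.Ok) {i : ℕ} (hi : i < T.K) (b : Bool × Fin T.R) :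
    ∑ j ∈ T.E i, T.q i b j + T.qs i b = T.tau i b := by
  have h1 : ∑ j ∈ T.E i, T.q i b j = ∑ j ∈ T.E i, T.q1 i b j + ∑ j ∈ T.E i, T.cor i b j := by
    rw [← Finset.sum_add_distrib]
    rfl
  rw [h1, cor_row hT hi]
  unfold e rho
  ring

theorem q_col (hT : T.Ok) {i j : ℕ} (hi : i < T.K) (hj : j < T.J) :
    ∑ b, T.q i b j = T.nd i j * T.R / (T.h * T.x) := by
  have h1 : ∑ b, T.q i b j = ∑ b, T.q1 i b j + ∑ b, T.cor i b j := by
    rw [← Finset.sum_add_distrib]
    rfl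
  rw [h1, cor_col hT, add_zero, q1_col hT hi hj]

theorem QQF_q1 (i : ℕ) {b : Bool × Fin T.R} {j : ℕ} (h : T.av b j) : T.q1 i b j = T.q0 i j := by
  unfold q1
  rw [if_pos h]

theorem QQF_q (i : ℕ) (b : Bool × Fin T.R) (j : ℕ) : T.q i b j = T.q1 i b j + T.cor i b j := rfl

theorem q_off (i : ℕ) {b : Bool × Fin T.R} {j : ℕ} (h : ¬ T.av b j) : T.q i b j = 0 := by
  rw [QQF_q, cor_av i h, add_zero]
  unfold q1
  rw [if_neg h]

theorem QQF_x0 (hT : T.Ok) : 0 < T.x := lt_of_lt_of_le (by positivity) (x_ge hT)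

theorem q_lo (hT : T.Ok) {i j : ℕ} (hi : i < T.K) (hj : j < T.J) {b : Bool × Fin T.R}
    (h : T.av b j) : 0.7 / T.x ≤ T.q i b j := by
  have hx := QQF_x0 hT
  have h1 := q0_lo hT hi hj
  have h2 := cor_lo_u hT hi b j
  rw [QQF_q, QQF_q1 i h]
  have h3 : (0.7 : ℝ) / T.x ≤ (1 - 90 * T.c) / T.x - 0.27 / T.x := by
    rw [← sub_div]
    apply div_le_div_of_nonneg_right _ hx.le
    have := hT.c1
    linarith [show 90 * (1 / 10 ^ 5 : ℝ) ≤ 0.03 by norm_num]
  linarith

theorem q_hi (hT : T.Ok) {i j : ℕ} (hi : i < T.K) (hj : j < T.J) (b : Bool × Fin T.R) :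
    T.q i b j ≤ (1 + 60 * T.c) / T.x := by
  have hx := QQF_x0 hT
  have hc := hT.c0
  by_cases h : T.av b j
  · have h1 := q0_hi hT hi hj
    have h2 := cor_hi hT hi b j
    rw [QQF_q, QQF_q1 i h]
    have h3 : (1 + 50 * T.c) / T.x + 0.567 * T.c / T.x ≤ (1 + 60 * T.c) / T.x := by
      rw [← add_div]
      apply div_le_div_of_nonneg_right _ hx.le
      linarith
    linarith
  · rw [q_off i h]
    positivity

theorem q_load (hT : T.Ok) {j : ℕ} (hj : j < T.J) {b : Bool × Fin T.R} (h : T.av b j) :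
    T.mu * ∑ i ∈ T.act j, T.q i b j ≤ (T.th * (1 + T.c / 10 ^ 5) + 0.567 * T.c) / T.x := by
  have hx := QQF_x0 hT
  have hc := hT.c0
  have hmu := mu_pos hT
  have h1 : ∑ i ∈ T.act j, T.q i b j = ∑ i ∈ T.act j, T.q0 i j + ∑ i ∈ T.act j, T.cor i b j := by
    rw [← Finset.sum_add_distrib]
    exact Finset.sum_congr rfl fun i _ => by rw [QQF_q, QQF_q1 i h]
  have h2 := load0 hT hj
  have h3 : ∑ i ∈ T.act j, T.cor i b j ≤ (T.act j).card * (0.567 * T.c / T.x) := by
    rw [← nsmul_eq_mul]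
    refine Finset.sum_le_card_nsmul _ _ _ fun i hi => ?_
    have hiK : i < T.K := by
      unfold act at hi
      exact Finset.mem_range.1 (Finset.mem_filter.1 hi).1
    exact cor_hi hT hiK b j
  have h4 : T.mu * (T.act j).card ≤ 1 := by
    have h5 : ((T.act j).card : ℝ) ≤ T.K := by
      have h6 : (T.act j).card ≤ T.K := by
        unfold act
        refine (Finset.card_filter_le _ _).trans ?_
        rw [Finset.card_range]
      exact_mod_cast h6
    have h7 := mul_le_mul_of_nonneg_left h5 hmu.le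
    rw [mu_K hT] at h7
    have h8 := h_pos hT
    linarith
  have h9 : T.mu * ∑ i ∈ T.act j, T.cor i b j ≤ 0.567 * T.c / T.x := by
    have h10 := mul_le_mul_of_nonneg_left h3 hmu.le
    have h11 : T.mu * ((T.act j).card * (0.567 * T.c / T.x)) =
        T.mu * (T.act j).card * (0.567 * T.c / T.x) := by ring
    rw [h11] at h10
    exact h10.trans (mul_le_of_le_one_left (by positivity) h4)
  rw [h1, mul_add, add_div]
  exact add_le_add h2 h9

end Par

end Pool.Agent.H98.HVB
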