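import Pool.Agent.H98.HVB.NDA
import Pool.Agent.H98.HVB.CBB

/-!
# QZA: bounds for `q0`, `q0s`, `zeta`, column sums

`h = c/8`, `c ≤ 1e-5`, `1/R ≤ 65/(c x) ≤ 1e-6 c` (`R_lo`, `c² x ≥ 1e8`), `B = #BB j`, `s R - 3 ≤ B ≤ s R`, `s = s j ∈ {1,2}`.
* `q0_lo`: `nd ≥ s h (1 - c) - 11 c²` (`nd_lo`, `N_lo`), positive; `q0 = nd R/(h x B) ≥ nd/(h x s) ≥ (1 - c - 88 c/s)/x ≥ (1 - 89 c)/x`.
* `q0_hi`: `nd ≤ s h (1 + 2c) + 5 c²` (`nd_hi`, `N_hi`), `R/B ≤ R/(s R - 3) ≤ (1/s)(1 + 4/R)`; `q0 ≤ (1/x)(1 + 2c + 40 c/s)(1 + 4/R) ≤ (1 + 50 c)/x`.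
* `q0s_lo`: `nds ≥ sS (h (1-c) - 11 c²)` (`nds_lo`, `1 - 2h ≤ 1`); `q0s_hi`: `nds ≤ sS (h + 5 c²)` (`nds_hi`, `th ≤ 1 - 2h`).
* `zeta`: `R ≤ c x/64`, `h x = c x/8`, `zz ≤ 2`.
* `q1_col`: `∑_b q1 i b j = #BB j * q0 i j`, `#BB j ≠ 0`.  `qs_col`: `R` classes with `b.1 = true`.
* `sum_rho`: `∑_b ∑_{j ∈ E i} q1 + ∑_b qs = (R/(h x)) (∑_{j ∈ E i} nd + nds) = (R/(h x))(2 h x - zz) = 2 R - zeta` (`nd_tot`).
* `sum_tau`: `2 R` terms, exactly one unit.  `sum_e`: the difference.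
* `load0`: `mu ∑_{i ∈ act j} q0 i j = (R/(h x #BB j)) mu ∑ nd ≤ (R/(h x #BB)) s h th = (th/x)(s R/#BB) ≤ (th/x)(1 + c/1e5)` (`nd_sum`, `s R/(s R - 3) ≤ 1 + 4/R`).
* `load0s`: `mu ∑_{i < K} q0s i ≤ sS th/x` (`nds_sum`).
-/

set_option autoImplicit false
set_option linter.unusedVariables false

namespace Pool.Agent.H98.HVB

open Finset

namespace Par

variable {T : Par}

theorem QZA_cR (hT : T.Ok) : 10 ^ 6 ≤ T.c * T.R := by
  have h1 := R_lo hT
  have h2 := hT.x1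
  have h3 := hT.c0
  have h4 : T.c * (T.c * T.x / 65) ≤ T.c * T.R := mul_le_mul_of_nonneg_left h1 h3.le
  have h5 : T.c * (T.c * T.x / 65) = T.c ^ 2 * T.x / 65 := by ring
  rw [h5] at h4
  refine le_trans ?_ h4
  rw [le_div_iff₀ (by norm_num)]
  refine le_trans ?_ h2
  norm_num

theorem QZA_x (hT : T.Ok) : 0 < T.x := lt_of_lt_of_le (by norm_num) (x_ge hT)

theorem QZA_R (hT : T.Ok) : (0 : ℝ) < T.R := by
  have h := R_pos hT
  exact_mod_cast (lt_of_lt_of_le (by norm_num) h)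

theorem QZA_s (j : ℕ) : 1 ≤ T.s j := by
  rcases s_cases (T := T) j with h | h
  · rw [h]
  · rw [h]; norm_num

theorem QZA_B (hT : T.Ok) {j : ℕ} (hj : j < T.J) : (0 : ℝ) < ((T.BB j).card : ℝ) := by
  have h1 := BB_lo hT hj
  have h2 := QZA_s (T := T) j
  have h3 : (1000 : ℝ) ≤ T.R := by exact_mod_cast R_pos hT
  nlinarith

theorem q0_lo (hT : T.Ok) {i j : ℕ} (hi : i < T.K) (hj : j < T.J) :
    (1 - 90 * T.c) / T.x ≤ T.q0 i j := by
  have hx := QZA_x hT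
  have hR := QZA_R hT
  have hB := QZA_B hT hj
  have hB2 := BB_hi hT hj
  have hs := QZA_s (T := T) j
  have hh := h_pos hT
  have hc := hT.c0
  have hc1 := hT.c1
  have hhc : T.h = T.c / 8 := rfl
  have h1 := nd_lo hT hi hj
  have h2 := N_lo hT j
  have hnd : (1 - 90 * T.c) * T.h * T.s j ≤ T.nd i j := by
    have e1 : 11 * T.c ^ 2 ≤ T.s j * (88 * T.h * T.c) := by
      have : 88 * T.h * T.c = 11 * T.c ^ 2 := by rw [hhc]; ring
      rw [this]
      nlinarith [sq_nonneg T.c]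
    have e2 : 0 ≤ T.h * T.s j * T.c := by positivity
    nlinarith
  unfold q0
  rw [div_le_div_iff₀ hx (by positivity)]
  have h3 : (1 - 90 * T.c) * T.h * ((T.BB j).card : ℝ) ≤ T.nd i j * T.R := by
    have h90 : 0 ≤ (1 - 90 * T.c) * T.h := by
      apply mul_nonneg _ hh.le
      linarith
    calc (1 - 90 * T.c) * T.h * ((T.BB j).card : ℝ)
        ≤ (1 - 90 * T.c) * T.h * (T.s j * T.R) := mul_le_mul_of_nonneg_left hB2 h90
      _ = (1 - 90 * T.c) * T.h * T.s j * T.R := by ring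
      _ ≤ T.nd i j * T.R := mul_le_mul_of_nonneg_right hnd hR.le
  calc (1 - 90 * T.c) * (T.h * T.x * ((T.BB j).card : ℝ))
      = (1 - 90 * T.c) * T.h * ((T.BB j).card : ℝ) * T.x := by ring
    _ ≤ T.nd i j * T.R * T.x := mul_le_mul_of_nonneg_right h3 hx.le

theorem q0_hi (hT : T.Ok) {i j : ℕ} (hi : i < T.K) (hj : j < T.J) :
    T.q0 i j ≤ (1 + 50 * T.c) / T.x := by
  have hx := QZA_x hT
  have hR := QZA_R hT
  have hB := QZA_B hT hj
  have hB2 := BB_lo hT hj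
  have hs := QZA_s (T := T) j
  have hh := h_pos hT
  have hc := hT.c0
  have hc1 := hT.c1
  have hcR := QZA_cR hT
  have hhc : T.h = T.c / 8 := rfl
  have h1 := nd_hi hT hi hj
  have h2 := N_hi hT j
  have hnd : T.nd i j ≤ T.h * (T.s j * (1 + 42 * T.c)) := by
    have e1 : 5 * T.c ^ 2 ≤ T.s j * (40 * T.h * T.c) := by
      have : 40 * T.h * T.c = 5 * T.c ^ 2 := by rw [hhc]; ring
      rw [this]
      nlinarith [sq_nonneg T.c]
    nlinarith
  unfold q0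
  rw [div_le_div_iff₀ (by positivity) hx]
  have h3 : T.s j * (1 + 42 * T.c) * T.R ≤ (1 + 50 * T.c) * ((T.BB j).card : ℝ) := by
    have e1 : (1 + 50 * T.c) * (T.s j * T.R - 3) ≤ (1 + 50 * T.c) * ((T.BB j).card : ℝ) :=
      mul_le_mul_of_nonneg_left hB2 (by linarith)
    refine le_trans ?_ e1
    have e2 : T.c * T.R ≤ T.s j * (T.c * T.R) := by nlinarith
    nlinarith
  calc T.nd i j * T.R * T.x ≤ T.h * (T.s j * (1 + 42 * T.c)) * T.R * T.x := by
        apply mul_le_mul_of_nonneg_right _ hx.le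
        exact mul_le_mul_of_nonneg_right hnd hR.le
    _ = T.h * T.x * (T.s j * (1 + 42 * T.c) * T.R) := by ring
    _ ≤ T.h * T.x * ((1 + 50 * T.c) * ((T.BB j).card : ℝ)) :=
        mul_le_mul_of_nonneg_left h3 (by positivity)
    _ = (1 + 50 * T.c) * (T.h * T.x * ((T.BB j).card : ℝ)) := by ring

theorem q0s_lo (hT : T.Ok) {i : ℕ} (hi : i < T.K) :
    T.sS * (1 - 90 * T.c) / T.x ≤ T.q0s i := by
  have hx := QZA_x hT
  have hh := h_pos hT
  have hc := hT.c0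
  have hc1 := hT.c1
  have hs0 := hT.s0
  have hhc : T.h = T.c / 8 := rfl
  have hth : T.th = 1 - T.c := rfl
  have h1 := nds_lo hT hi
  have hden : 0 < 1 - 2 * T.h := by rw [hhc]; linarith
  have h2 : T.h * T.th ≤ T.h * T.th / (1 - 2 * T.h) := by
    rw [le_div_iff₀ hden]
    have : 0 ≤ T.h * T.th := mul_nonneg hh.le (th_pos hT).le
    nlinarith
  have h3 : T.h * (1 - 90 * T.c) ≤ T.h * T.th / (1 - 2 * T.h) - 11 * T.c ^ 2 := by
    refine le_trans ?_ (sub_le_sub_right h2 _)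
    rw [hth, hhc]
    nlinarith [sq_nonneg T.c]
  unfold q0s
  rw [div_le_div_iff₀ hx (by positivity)]
  calc T.sS * (1 - 90 * T.c) * (T.h * T.x) = T.sS * (T.h * (1 - 90 * T.c)) * T.x := by ring
    _ ≤ T.sS * (T.h * T.th / (1 - 2 * T.h) - 11 * T.c ^ 2) * T.x := by
        apply mul_le_mul_of_nonneg_right _ hx.le
        exact mul_le_mul_of_nonneg_left h3 (by linarith)
    _ ≤ T.nds i * T.x := mul_le_mul_of_nonneg_right h1 hx.le

theorem q0s_hi (hT : T.Ok) {i : ℕ} (hi : i < T.K) :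
    T.q0s i ≤ T.sS * (1 + 50 * T.c) / T.x := by
  have hx := QZA_x hT
  have hh := h_pos hT
  have hc := hT.c0
  have hc1 := hT.c1
  have hs0 := hT.s0
  have hhc : T.h = T.c / 8 := rfl
  have hth : T.th = 1 - T.c := rfl
  have h1 := nds_hi hT hi
  have hden : 0 < 1 - 2 * T.h := by rw [hhc]; linarith
  have h2 : T.h * T.th / (1 - 2 * T.h) ≤ T.h := by
    rw [div_le_iff₀ hden]
    apply mul_le_mul_of_nonneg_left _ hh.le
    rw [hth, hhc]
    linarith
  have h3 : T.h * T.th / (1 - 2 * T.h) + 5 * T.c ^ 2 ≤ T.h * (1 + 50 * T.c) := by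
    refine le_trans (add_le_add_left h2 _) ?_
    rw [hhc]
    nlinarith [sq_nonneg T.c]
  unfold q0s
  rw [div_le_div_iff₀ (by positivity) hx]
  calc T.nds i * T.x ≤ T.sS * (T.h * T.th / (1 - 2 * T.h) + 5 * T.c ^ 2) * T.x :=
        mul_le_mul_of_nonneg_right h1 hx.le
    _ ≤ T.sS * (T.h * (1 + 50 * T.c)) * T.x := by
        apply mul_le_mul_of_nonneg_right _ hx.le
        exact mul_le_mul_of_nonneg_left h3 (by linarith)
    _ = T.sS * (1 + 50 * T.c) * (T.h * T.x) := by ring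

theorem zeta_pos (hT : T.Ok) : 0 < T.zeta := by
  have hx := QZA_x hT
  have hR := QZA_R hT
  have hh := h_pos hT
  have hz : 0 < T.zz := lt_of_lt_of_le one_pos hT.z0
  unfold zeta
  positivity

theorem zeta_le (hT : T.Ok) : T.zeta ≤ 1 / 4 := by
  have hx := QZA_x hT
  have hR := QZA_R hT
  have hh := h_pos hT
  have hc := hT.c0
  have hhc : T.h = T.c / 8 := rfl
  have h1 := R_hi hT
  have h2 := hT.z1
  unfold zeta
  rw [div_le_iff₀ (by positivity)]
  calc T.zz * T.R ≤ 2 * T.R := mul_le_mul_of_nonneg_right h2 hR.le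
    _ ≤ 2 * (T.c * T.x / 64) := by linarith
    _ = 1 / 4 * (T.h * T.x) := by rw [hhc]; ring

theorem q1_col (hT : T.Ok) {i j : ℕ} (hi : i < T.K) (hj : j < T.J) :
    ∑ b, T.q1 i b j = T.nd i j * T.R / (T.h * T.x) := by
  have hx := QZA_x hT
  have hh := h_pos hT
  have hB := QZA_B hT hj
  have h1 : ∑ b, T.q1 i b j = ((T.BB j).card : ℝ) * T.q0 i j := by
    unfold q1 BB
    rw [← Finset.sum_filter, Finset.sum_const, nsmul_eq_mul]
  rw [h1]
  unfold q0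
  field_simp

theorem qs_col (hT : T.Ok) (i : ℕ) : ∑ b, T.qs i b = T.nds i * T.R / (T.h * T.x) := by
  have h1 : ∑ b, T.qs i b = (T.R : ℝ) * T.q0s i := by
    unfold qs
    rw [Fintype.sum_prod_type, Fintype.sum_bool]
    simp
  rw [h1]
  unfold q0s
  ring

theorem sum_rho (hT : T.Ok) {i : ℕ} (hi : i < T.K) : ∑ b, T.rho i b = 2 * T.R - T.zeta := by
  have hx := QZA_x hT
  have hh := h_pos hT
  have h1 : ∑ b, T.rho i b = ∑ j ∈ T.E i, (T.nd i j * T.R / (T.h * T.x)) +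
      T.nds i * T.R / (T.h * T.x) := by
    unfold rho
    rw [Finset.sum_add_distrib, qs_col hT i, Finset.sum_comm]
    congr 1
    refine Finset.sum_congr rfl fun j hj => ?_
    apply q1_col hT hi
    unfold E at hj
    exact Finset.mem_range.1 (Finset.mem_filter.1 hj).1
  have h2 := nd_tot hT hi
  have h3 : ∑ j ∈ T.E i, (T.nd i j * T.R / (T.h * T.x)) =
      (∑ j ∈ T.E i, T.nd i j) * T.R / (T.h * T.x) := by
    rw [Finset.sum_mul, Finset.sum_div]
  rw [h1, h3]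
  have h4 : (∑ j ∈ T.E i, T.nd i j) * T.R / (T.h * T.x) + T.nds i * T.R / (T.h * T.x) =
      (∑ j ∈ T.E i, T.nd i j + T.nds i) * T.R / (T.h * T.x) := by ring
  rw [h4, h2]
  unfold zeta
  field_simp

theorem sum_tau (hT : T.Ok) (i : ℕ) : ∑ b, T.tau i b = 2 * T.R - T.zeta := by
  classical
  obtain ⟨b0, hb0⟩ := exists_isU hT i
  have h1 : ∀ b, T.tau i b = 1 - (if b = b0 then T.zeta else 0) := by
    intro b
    unfold tau
    by_cases hb : T.isU i b
    · rw [if_pos hb, if_pos (isU_unique hb hb0)]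
    · rw [if_neg hb, if_neg (fun h => hb (by rw [h]; exact hb0)), sub_zero]
  simp only [h1]
  rw [Finset.sum_sub_distrib, Finset.sum_ite_eq' Finset.univ b0, if_pos (Finset.mem_univ b0)]
  congr 1
  simp

theorem sum_e (hT : T.Ok) {i : ℕ} (hi : i < T.K) : ∑ b, T.e i b = 0 := by
  unfold e
  rw [Finset.sum_sub_distrib, sum_tau hT i, sum_rho hT hi, sub_self]

theorem load0 (hT : T.Ok) {j : ℕ} (hj : j < T.J) :
    T.mu * ∑ i ∈ T.act j, T.q0 i j ≤ T.th * (1 + T.c / 10 ^ 5) / T.x := by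
  have hx := QZA_x hT
  have hR := QZA_R hT
  have hB := QZA_B hT hj
  have hB2 := BB_lo hT hj
  have hs := QZA_s (T := T) j
  have hh := h_pos hT
  have hth := th_pos hT
  have hc := hT.c0
  have hc1 := hT.c1
  have hcR := QZA_cR hT
  have h1 := nd_sum hT hj
  have h2 : T.mu * ∑ i ∈ T.act j, T.q0 i j =
      (T.mu * ∑ i ∈ T.act j, T.nd i j) * T.R / (T.h * T.x * (T.BB j).card) := by
    unfold q0
    rw [← Finset.sum_div, ← Finset.sum_mul]
    ring
  rw [h2, div_le_div_iff₀ (by positivity) hx]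
  have h3 : T.s j * T.R ≤ (1 + T.c / 10 ^ 5) * ((T.BB j).card : ℝ) := by
    have e1 : (1 + T.c / 10 ^ 5) * (T.s j * T.R - 3) ≤ (1 + T.c / 10 ^ 5) * ((T.BB j).card : ℝ) :=
      mul_le_mul_of_nonneg_left hB2 (by positivity)
    refine le_trans ?_ e1
    have e2 : T.c * T.R ≤ T.s j * (T.c * T.R) := by nlinarith
    nlinarith
  calc (T.mu * ∑ i ∈ T.act j, T.nd i j) * T.R * T.x
      ≤ T.s j * T.h * T.th * T.R * T.x := by
        apply mul_le_mul_of_nonneg_right _ hx.le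
        exact mul_le_mul_of_nonneg_right h1 hR.le
    _ = T.h * T.th * T.x * (T.s j * T.R) := by ring
    _ ≤ T.h * T.th * T.x * ((1 + T.c / 10 ^ 5) * ((T.BB j).card : ℝ)) :=
        mul_le_mul_of_nonneg_left h3 (by positivity)
    _ = T.th * (1 + T.c / 10 ^ 5) * (T.h * T.x * ((T.BB j).card : ℝ)) := by ring

theorem load0s (hT : T.Ok) : T.mu * ∑ i ∈ range T.K, T.q0s i ≤ T.sS * T.th / T.x := by
  have hx := QZA_x hT
  have hh := h_pos hT
  have h1 := nds_sum hT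
  have h2 : T.mu * ∑ i ∈ range T.K, T.q0s i =
      (T.mu * ∑ i ∈ range T.K, T.nds i) / (T.h * T.x) := by
    unfold q0s
    rw [← Finset.sum_div]
    ring
  rw [h2, div_le_div_iff₀ (by positivity) hx]
  calc (T.mu * ∑ i ∈ range T.K, T.nds i) * T.x ≤ T.sS * (T.h * T.th) * T.x :=
        mul_le_mul_of_nonneg_right h1 hx.le
    _ = T.sS * T.th * (T.h * T.x) := by ring

end Par

end Pool.Agent.H98.HVB
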