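import Pool.Agent.H98.HVB.QZA

/-!
# RHO: the row sums `rho i b` are close to each other

`rho i b - rho i b' = ∑_{j ∈ E i} q0 i j (1[av b j] - 1[av b' j]) + (qs i b - qs i b')`, `0 ≤ q0 ≤ (1+50c)/x ≤ 1.001/x`.
* `rho_same` (`b.1 = b'.1`): `qs` cancels, and `av b j`, `av b' j` differ only for `j ∈ exc b ∪ exc b'`: at most `400/c` blocks (`exc_card`); `(400/c) · 1.001/x ≤ 401/(c x) ≤ 4.01e-6 c`.
* `rho_diff`: let `b.1 = true`, `b'.1 = false` (the other case by symmetry, equal sides by `rho_same`).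
  Upper bound: `1[av b j] - 1[av b' j] ≤ 1[j < jL] + 1[j ∈ exc b']`, so `rho i b - rho i b' ≤ jL · (1+50c)/x + (200/c)(1.001/x) + sS (1+50c)/x ≤ (1.1275 c x + 3 + 2)(1 + 50 c)/x + 2.1e-6 c ≤ 1.1275 c (1 + 5e-4) + 1e-5 c ≤ 1.129 c`.
  Lower bound: `1[av b' j] - 1[av b j] ≤ 1[J ≤ j + jL] + 1[j ∈ exc b]`, the number of `j < J` with `J ≤ j + jL` is at most `jL`, and `qs i b ≥ 0`.
-/

set_option autoImplicit false
set_option linter.unusedVariables false

namespace Pool.Agent.H98.HVB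

open Finset

namespace Par

variable {T : Par}

theorem RHO_q0_nonneg (hT : T.Ok) {i j : ℕ} (hi : i < T.K) (hj : j < T.J) : 0 ≤ T.q0 i j := by
  have h1 := q0_lo hT hi hj
  have h2 := x_ge hT
  have h3 := hT.c1
  refine le_trans (div_nonneg ?_ ?_) h1
  · linarith
  · linarith

theorem RHO_key (hT : T.Ok) {i : ℕ} (hi : i < T.K) (b b' : Bool × Fin T.R) (S : Finset ℕ)
    (hS : ∀ j ∈ T.E i, T.av b j → ¬ T.av b' j → j ∈ S) :
    ∑ j ∈ T.E i, T.q1 i b j - ∑ j ∈ T.E i, T.q1 i b' j ≤ (S.card : ℝ) * ((1 + 50 * T.c) / T.x) := by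
  classical
  have hx : 0 < T.x := by linarith [x_ge hT]
  have hc : 0 < T.c := hT.c0
  have hpos : 0 ≤ (1 + 50 * T.c) / T.x := by positivity
  rw [← Finset.sum_sub_distrib]
  have h1 : ∀ j ∈ T.E i, T.q1 i b j - T.q1 i b' j ≤
      if j ∈ S then (1 + 50 * T.c) / T.x else 0 := by
    intro j hj
    have hjJ : j < T.J := Finset.mem_range.1 (Finset.mem_filter.1 hj).1
    have h0 := RHO_q0_nonneg hT hi hjJ
    have h2 := q0_hi hT hi hjJ
    unfold q1
    by_cases hb : T.av b j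
    · by_cases hb' : T.av b' j
      · rw [if_pos hb, if_pos hb', sub_self]
        split_ifs
        · exact hpos
        · exact le_rfl
      · rw [if_pos hb, if_neg hb', if_pos (hS j hj hb hb'), sub_zero]
        exact h2
    · rw [if_neg hb]
      have h3 : (0 : ℝ) - (if T.av b' j then T.q0 i j else 0) ≤ 0 := by
        split_ifs <;> linarith
      refine h3.trans ?_
      split_ifs
      · exact hpos
      · exact le_rfl
  refine (Finset.sum_le_sum h1).trans ?_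
  rw [← Finset.sum_filter, Finset.sum_const, nsmul_eq_mul]
  refine mul_le_mul_of_nonneg_right ?_ hpos
  have h4 : ((T.E i).filter (fun j => j ∈ S)).card ≤ S.card :=
    Finset.card_le_card fun j hj => (Finset.mem_filter.1 hj).2
  exact_mod_cast h4

/-- `1/x ≤ c²/10^8` -/
theorem RHO_inv (hT : T.Ok) : 1 / T.x ≤ T.c ^ 2 / 10 ^ 8 := by
  have hx : 0 < T.x := by linarith [x_ge hT]
  rw [div_le_div_iff₀ hx (by norm_num)]
  linarith [hT.x1]

theorem RHO_small (hT : T.Ok) : 200 / T.c * ((1 + 50 * T.c) / T.x) ≤ T.c / 10 ^ 5 := by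
  have hx : 0 < T.x := by linarith [x_ge hT]
  have hc : 0 < T.c := hT.c0
  have hc1 := hT.c1
  have h1 := RHO_inv hT
  have h2 : 200 / T.c * ((1 + 50 * T.c) / T.x) = 200 * (1 + 50 * T.c) / T.c * (1 / T.x) := by
    field_simp
  rw [h2]
  have h3 : 200 * (1 + 50 * T.c) / T.c * (1 / T.x) ≤
      200 * (1 + 50 * T.c) / T.c * (T.c ^ 2 / 10 ^ 8) :=
    mul_le_mul_of_nonneg_left h1 (by positivity)
  refine h3.trans ?_
  have h4 : 200 * (1 + 50 * T.c) / T.c * (T.c ^ 2 / 10 ^ 8) =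
      T.c * (200 * (1 + 50 * T.c) / 10 ^ 8) := by
    field_simp
  rw [h4]
  have h5 : 200 * (1 + 50 * T.c) / 10 ^ 8 ≤ (1 : ℝ) / 10 ^ 5 := by
    rw [div_le_div_iff₀ (by norm_num) (by norm_num)]
    linarith
  calc T.c * (200 * (1 + 50 * T.c) / 10 ^ 8) ≤ T.c * (1 / 10 ^ 5) :=
        mul_le_mul_of_nonneg_left h5 hc.le
    _ = T.c / 10 ^ 5 := by ring

theorem RHO_same1 (hT : T.Ok) {i : ℕ} (hi : i < T.K) {b b' : Bool × Fin T.R} (h : b.1 = b'.1) :
    T.rho i b - T.rho i b' ≤ T.c / 10 ^ 5 := by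
  have hx : 0 < T.x := by linarith [x_ge hT]
  have hc : 0 < T.c := hT.c0
  have h1 := RHO_key hT hi b b' (T.exc b') (fun j _ hb hb' => by
    by_contra hj
    exact hb' ⟨h ▸ hb.1, hj⟩)
  have h2 : T.qs i b = T.qs i b' := by unfold qs; rw [h]
  have h3 := exc_card hT b'
  have h4 : ((T.exc b').card : ℝ) * ((1 + 50 * T.c) / T.x) ≤
      200 / T.c * ((1 + 50 * T.c) / T.x) := mul_le_mul_of_nonneg_right h3 (by positivity)
  have h5 := RHO_small hT
  unfold rho
  linarith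

theorem rho_same (hT : T.Ok) {i : ℕ} (hi : i < T.K) {b b' : Bool × Fin T.R} (h : b.1 = b'.1) :
    |T.rho i b - T.rho i b'| ≤ T.c / 1000 := by
  have hc : 0 < T.c := hT.c0
  have h1 := RHO_same1 hT hi h
  have h2 := RHO_same1 hT hi h.symm
  have h3 : T.c / 10 ^ 5 ≤ T.c / 1000 := by
    apply div_le_div_of_nonneg_left hc.le <;> norm_num
  rw [abs_le]
  constructor <;> linarith

theorem RHO_num (hT : T.Ok) :
    ((T.jL : ℝ) + 200 / T.c) * ((1 + 50 * T.c) / T.x) + T.sS * (1 + 50 * T.c) / T.x ≤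
      1.129 * T.c := by
  have hx : 0 < T.x := by linarith [x_ge hT]
  have hc : 0 < T.c := hT.c0
  have hc1 := hT.c1
  have h1 := RHO_inv hT
  have h2 := RHO_small hT
  have h3 := hT.j1
  have h4 := hT.s1
  have hq : 0 ≤ (1 + 50 * T.c) / T.x := by positivity
  have h5 : (T.jL : ℝ) * ((1 + 50 * T.c) / T.x) ≤
      (1.1275 * T.c * T.x + 3) * ((1 + 50 * T.c) / T.x) := mul_le_mul_of_nonneg_right h3 hq
  have h6 : (1.1275 * T.c * T.x + 3) * ((1 + 50 * T.c) / T.x) =
      1.1275 * T.c * (1 + 50 * T.c) + 3 * (1 + 50 * T.c) * (1 / T.x) := by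
    field_simp
  have h7 : T.sS * (1 + 50 * T.c) / T.x ≤ 2 * (1 + 50 * T.c) * (1 / T.x) := by
    rw [mul_one_div]
    apply div_le_div_of_nonneg_right _ hx.le
    exact mul_le_mul_of_nonneg_right h4 (by positivity)
  have h8 : 5 * (1 + 50 * T.c) * (1 / T.x) ≤ 5 * (1 + 50 * T.c) * (T.c ^ 2 / 10 ^ 8) :=
    mul_le_mul_of_nonneg_left h1 (by positivity)
  have h9 : 50 * T.c ≤ 5 / 10 ^ 4 := by linarith
  have h10 : T.c * (50 * T.c) ≤ T.c * (5 / 10 ^ 4) := mul_le_mul_of_nonneg_left h9 hc.le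
  have h11 : T.c ^ 2 ≤ T.c * (1 / 10 ^ 5) := by
    rw [sq]
    exact mul_le_mul_of_nonneg_left hc1 hc.le
  have h12 : 5 * (1 + 50 * T.c) * (T.c ^ 2 / 10 ^ 8) ≤ 10 * (T.c ^ 2 / 10 ^ 8) :=
    mul_le_mul_of_nonneg_right (by linarith) (by positivity)
  have h13 : ((T.jL : ℝ) + 200 / T.c) * ((1 + 50 * T.c) / T.x) =
      (T.jL : ℝ) * ((1 + 50 * T.c) / T.x) + 200 / T.c * ((1 + 50 * T.c) / T.x) := by ring
  rw [h13]
  have h14 : 3 * (1 + 50 * T.c) * (1 / T.x) + 2 * (1 + 50 * T.c) * (1 / T.x) =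
      5 * (1 + 50 * T.c) * (1 / T.x) := by ring
  have h15 : 1.1275 * T.c * (1 + 50 * T.c) = 1.1275 * T.c + 1.1275 * (T.c * (50 * T.c)) := by ring
  linarith

theorem RHO_up (hT : T.Ok) {i : ℕ} (hi : i < T.K) {b b' : Bool × Fin T.R} (hb : b.1 = true)
    (hb' : b'.1 = false) : T.rho i b - T.rho i b' ≤ 1.129 * T.c := by
  classical
  have hx : 0 < T.x := by linarith [x_ge hT]
  have hc : 0 < T.c := hT.c0
  have h1 := RHO_key hT hi b b' (range T.jL ∪ T.exc b') (fun j _ hj hj' => by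
    by_contra hjS
    rw [Finset.mem_union, not_or, Finset.mem_range, not_lt] at hjS
    refine hj' ⟨?_, hjS.2⟩
    rw [hb']
    unfold sd
    rw [if_neg (by simp)]
    exact hjS.1)
  have h2 : ((range T.jL ∪ T.exc b').card : ℝ) ≤ (T.jL : ℝ) + 200 / T.c := by
    have h3 : (range T.jL ∪ T.exc b').card ≤ T.jL + (T.exc b').card := by
      have h4 := Finset.card_union_le (range T.jL) (T.exc b')
      rwa [Finset.card_range] at h4
    have h5 : ((range T.jL ∪ T.exc b').card : ℝ) ≤ (T.jL : ℝ) + ((T.exc b').card : ℝ) := by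
      exact_mod_cast h3
    linarith [exc_card hT b']
  have h3 : ((range T.jL ∪ T.exc b').card : ℝ) * ((1 + 50 * T.c) / T.x) ≤
      ((T.jL : ℝ) + 200 / T.c) * ((1 + 50 * T.c) / T.x) :=
    mul_le_mul_of_nonneg_right h2 (by positivity)
  have h4 : T.qs i b ≤ T.sS * (1 + 50 * T.c) / T.x := by
    unfold qs
    rw [if_pos hb]
    exact q0s_hi hT hi
  have h5 : T.qs i b' = 0 := by
    unfold qs
    rw [if_neg (by rw [hb']; simp)]
  have h6 := RHO_num hT
  unfold rho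
  linarith

theorem RHO_lo (hT : T.Ok) {i : ℕ} (hi : i < T.K) {b b' : Bool × Fin T.R} (hb : b.1 = true)
    (hb' : b'.1 = false) : T.rho i b' - T.rho i b ≤ 1.129 * T.c := by
  classical
  have hx : 0 < T.x := by linarith [x_ge hT]
  have hc : 0 < T.c := hT.c0
  have h1 := RHO_key hT hi b' b (Finset.Ico (T.J - T.jL) T.J ∪ T.exc b) (fun j hjE hj' hj => by
    have hjJ : j < T.J := Finset.mem_range.1 (Finset.mem_filter.1 hjE).1
    by_contra hjS
    rw [Finset.mem_union, not_or, Finset.mem_Ico] at hjS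
    refine hj ⟨?_, hjS.2⟩
    rw [hb]
    unfold sd
    rw [if_pos rfl]
    have := hjS.1
    omega)
  have h2 : ((Finset.Ico (T.J - T.jL) T.J ∪ T.exc b).card : ℝ) ≤ (T.jL : ℝ) + 200 / T.c := by
    have h3 : (Finset.Ico (T.J - T.jL) T.J ∪ T.exc b).card ≤ T.jL + (T.exc b).card := by
      have h4 := Finset.card_union_le (Finset.Ico (T.J - T.jL) T.J) (T.exc b)
      rw [Nat.card_Ico] at h4
      omega
    have h5 : ((Finset.Ico (T.J - T.jL) T.J ∪ T.exc b).card : ℝ) ≤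
        (T.jL : ℝ) + ((T.exc b).card : ℝ) := by
      exact_mod_cast h3
    linarith [exc_card hT b]
  have h3 : ((Finset.Ico (T.J - T.jL) T.J ∪ T.exc b).card : ℝ) * ((1 + 50 * T.c) / T.x) ≤
      ((T.jL : ℝ) + 200 / T.c) * ((1 + 50 * T.c) / T.x) :=
    mul_le_mul_of_nonneg_right h2 (by positivity)
  have h4 : 0 ≤ T.qs i b := by
    unfold qs
    rw [if_pos hb]
    refine le_trans ?_ (q0s_lo hT hi)
    have h5 := hT.s0
    have h6 := hT.c1
    exact div_nonneg (mul_nonneg (by linarith) (by linarith)) hx.le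
  have h5 : T.qs i b' = 0 := by
    unfold qs
    rw [if_neg (by rw [hb']; simp)]
  have h6 := RHO_num hT
  have h7 : 0 ≤ T.sS * (1 + 50 * T.c) / T.x := by
    have h5 := hT.s0
    exact div_nonneg (mul_nonneg (by linarith) (by linarith)) hx.le
  unfold rho
  linarith

theorem rho_diff (hT : T.Ok) {i : ℕ} (hi : i < T.K) (b b' : Bool × Fin T.R) :
    |T.rho i b - T.rho i b'| ≤ 1.129 * T.c := by
  have hc : 0 < T.c := hT.c0
  by_cases h : b.1 = b'.1
  · refine (rho_same hT hi h).trans ?_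
    linarith
  · rcases hb : b.1 with _ | _ <;> rcases hb' : b'.1 with _ | _
    · exact absurd (hb.trans hb'.symm) h
    · rw [abs_le]
      have h1 := RHO_up hT hi hb' hb
      have h2 := RHO_lo hT hi hb' hb
      constructor <;> linarith
    · rw [abs_le]
      have h1 := RHO_up hT hi hb hb'
      have h2 := RHO_lo hT hi hb hb'
      constructor <;> linarith
    · exact absurd (hb.trans hb'.symm) h

end Par

end Pool.Agent.H98.HVB
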