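import Pool.Agent.H98.HVB.WBD

/-!
# SWA: sums of the weights

* `sum_s`: `s j = 1 + 1[jL ≤ j < J - jL]`, the number of these `j` is `J - 2 jL` (`jL_J`).
* `sum_w_ub`: sum `w_ub` over `j < J`: `∑ d = P (P+1)/k` (`sum_d`), `∑ d² ≤ (P/k) ∑ d` (`d_le`, `d_nonneg`), `∑ 4 sg d = 4 sg P(P+1)/k`.
* `sum_w_lb`: sum `w_lb`.
* `sumZ_lb`: for `i ∈ Q`, `j ∈ Z i`: `Db w j ≥ 1 - d j - 2 sg` (`s ≤ 2`); `card_Z`; `sum_d_zone`.
* `Z_lb`: `Db w j ≥ 1 - d j - 2 sg` and `d j ≤ P/k`; `Z_ub`: `w_le_b`.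
* `sumZZ_ub`: `Db w j ≤ 1` (`w_le_b`, `sg_pos`) and `sum_sq`; `oneZZ_ub`: the same with `sum_one`.
* `Om_eq`: `E i` is the complement of `Z i` in `range J`; inclusion-exclusion for the complement of `Z i ∪ Z i'`.
-/

set_option autoImplicit false
set_option linter.unusedVariables false

namespace Pool.Agent.H98.HVB

open Finset

namespace Par

variable {T : Par}

theorem SWA_lt {i j : ℕ} (h : j ∈ T.Z i) : j < T.J := by
  unfold Z at h
  exact mem_range.1 (mem_filter.1 h).1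

theorem SWA_Z1 (hT : T.Ok) {i : ℕ} (hi : i < T.K) :
    (T.P + 1) * (1 - 2 * T.sg) - ∑ j ∈ T.Z i, T.d j ≤ T.Db * ∑ j ∈ T.Z i, T.w j := by
  have h1 : ∀ j ∈ T.Z i, 1 - 2 * T.sg - T.d j ≤ T.Db * T.w j := by
    intro j hj
    have h2 := w_lb hT j
    have h3 := sg_pos hT
    rcases s_cases (T := T) j with h4 | h4 <;> rw [h4] at h2 <;> linarith
  rw [mul_sum]
  calc (T.P + 1) * (1 - 2 * T.sg) - ∑ j ∈ T.Z i, T.d j
      = ∑ j ∈ T.Z i, (1 - 2 * T.sg - T.d j) := by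
        rw [sum_sub_distrib, sum_const, card_Z hi, nsmul_eq_mul]
        push_cast
        ring
    _ ≤ _ := sum_le_sum h1

theorem sum_s (hT : T.Ok) : ∑ j ∈ range T.J, T.s j = 2 * T.J - 2 * T.jL := by
  have h0 := jL_J hT
  have h1 : ∀ j, T.s j = 1 + if T.jL ≤ j ∧ j + T.jL < T.J then 1 else 0 := by
    intro j
    unfold s
    split_ifs <;> norm_num
  rw [sum_congr rfl fun j _ => h1 j, sum_add_distrib, sum_const, card_range, nsmul_eq_mul, mul_one,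
    ← sum_filter, sum_const, nsmul_eq_mul, mul_one]
  have h2 : (range T.J).filter (fun j => T.jL ≤ j ∧ j + T.jL < T.J) = Ico T.jL (T.J - T.jL) := by
    ext j
    rw [mem_filter, mem_range, mem_Ico]
    omega
  rw [h2, Nat.card_Ico]
  have h3 : T.J - T.jL - T.jL = T.J - 2 * T.jL := by omega
  rw [h3, Nat.cast_sub (by omega)]
  push_cast
  ring

theorem sum_w_ub (hT : T.Ok) :
    T.Db * ∑ j ∈ range T.J, T.w j ≤ T.J - T.P * (T.P + 1) / T.k - T.sg * (2 * T.J - 2 * T.jL) +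
      (T.P / T.k + 4 * T.sg) * (T.P * (T.P + 1) / T.k) := by
  have h1 : ∀ j ∈ range T.J, T.Db * T.w j ≤
      1 - T.d j - T.s j * T.sg + (T.P / T.k + 4 * T.sg) * T.d j := by
    intro j hj
    have h2 := w_ub hT j
    have h3 := d_le hT (mem_range.1 hj)
    have h4 := d_nonneg hT j
    nlinarith
  rw [mul_sum]
  calc ∑ j ∈ range T.J, T.Db * T.w j ≤ ∑ j ∈ range T.J,
        (1 - T.d j - T.s j * T.sg + (T.P / T.k + 4 * T.sg) * T.d j) := sum_le_sum h1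
    _ = _ := by
        rw [sum_add_distrib, sum_sub_distrib, sum_sub_distrib, ← sum_mul, ← mul_sum, sum_s hT, sum_d hT,
          sum_const, card_range, nsmul_eq_mul]
        ring

theorem sum_w_lb (hT : T.Ok) :
    T.J - T.P * (T.P + 1) / T.k - T.sg * (2 * T.J - 2 * T.jL) ≤
      T.Db * ∑ j ∈ range T.J, T.w j := by
  rw [mul_sum]
  calc _ = ∑ j ∈ range T.J, (1 - T.d j - T.s j * T.sg) := by
        rw [sum_sub_distrib, sum_sub_distrib, ← sum_mul, sum_s hT, sum_d hT,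
          sum_const, card_range, nsmul_eq_mul]
        ring
    _ ≤ _ := sum_le_sum fun j _ => w_lb hT j

theorem sumZ_lb (hT : T.Ok) {Q : Finset ℕ} (hQ : Q ⊆ range T.K) :
    (Q.card : ℝ) * ((T.P + 1) * (1 - 2 * T.sg)) - (T.P + 1) * (T.P * (T.P + 1) / T.k) ≤
      T.Db * ∑ i ∈ Q, ∑ j ∈ T.Z i, T.w j := by
  rw [mul_sum]
  have h1 : ∀ i ∈ Q, (T.P + 1) * (1 - 2 * T.sg) - ∑ j ∈ T.Z i, T.d j ≤
      T.Db * ∑ j ∈ T.Z i, T.w j := fun i hi => SWA_Z1 hT (mem_range.1 (hQ hi))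
  have h2 := sum_d_zone hT hQ
  calc _ ≤ (Q.card : ℝ) * ((T.P + 1) * (1 - 2 * T.sg)) - ∑ i ∈ Q, ∑ j ∈ T.Z i, T.d j := by linarith
    _ = ∑ i ∈ Q, ((T.P + 1) * (1 - 2 * T.sg) - ∑ j ∈ T.Z i, T.d j) := by
        rw [sum_sub_distrib, sum_const, nsmul_eq_mul]
    _ ≤ _ := sum_le_sum h1

theorem Z_lb (hT : T.Ok) {i : ℕ} (hi : i < T.K) :
    (T.P + 1) * (1 - 2 * T.sg) - T.P * (T.P + 1) / T.k ≤ T.Db * ∑ j ∈ T.Z i, T.w j := by
  have h1 := SWA_Z1 hT hi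
  have h2 : ∑ j ∈ T.Z i, T.d j ≤ (T.P + 1) * (T.P / T.k) := by
    calc ∑ j ∈ T.Z i, T.d j ≤ ∑ j ∈ T.Z i, (T.P / T.k : ℝ) :=
          sum_le_sum fun j hj => d_le hT (SWA_lt hj)
      _ = _ := by
          rw [sum_const, card_Z hi, nsmul_eq_mul]
          push_cast
          ring
  have h3 : (T.P + 1) * (T.P / T.k) = T.P * (T.P + 1) / T.k := by ring
  rw [h3] at h2
  linarith

theorem Z_ub (hT : T.Ok) {i : ℕ} (hi : i < T.K) :
    T.Db * ∑ j ∈ T.Z i, T.w j ≤ (T.P + 1) * (1 - 2 * T.sg) := by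
  rw [mul_sum]
  calc ∑ j ∈ T.Z i, T.Db * T.w j ≤ ∑ j ∈ T.Z i, (1 - 2 * T.sg) :=
        sum_le_sum fun j hj => w_le_b hT (SWA_lt hj)
    _ = _ := by
        rw [sum_const, card_Z hi, nsmul_eq_mul]
        push_cast
        ring

theorem sumZZ_ub (hT : T.Ok) {Q : Finset ℕ} (hQ : Q ⊆ range T.K) :
    T.Db * ∑ i ∈ Q, ∑ i' ∈ Q, ∑ j ∈ T.Z i ∩ T.Z i', T.w j ≤ T.K * (T.P + 1) ^ 2 := by
  have h0 := sg_pos hT
  refine le_trans ?_ (sum_sq (T := T) hQ)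
  rw [mul_sum]
  refine sum_le_sum fun i _ => ?_
  rw [mul_sum]
  refine sum_le_sum fun i' _ => ?_
  rw [mul_sum]
  calc ∑ j ∈ T.Z i ∩ T.Z i', T.Db * T.w j ≤ ∑ j ∈ T.Z i ∩ T.Z i', (1 : ℝ) := by
        refine sum_le_sum fun j hj => ?_
        have h1 := w_le_b hT (SWA_lt (mem_of_mem_inter_left hj))
        linarith
    _ = _ := by
        rw [sum_const, nsmul_eq_mul, mul_one]

theorem oneZZ_ub (hT : T.Ok) {Q : Finset ℕ} (hQ : Q ⊆ range T.K) {i : ℕ} (hi : i < T.K) :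
    T.Db * ∑ i' ∈ Q, ∑ j ∈ T.Z i ∩ T.Z i', T.w j ≤ (T.P + 1) ^ 2 := by
  have h0 := sg_pos hT
  refine le_trans ?_ (sum_one (T := T) hQ hi)
  rw [mul_sum]
  refine sum_le_sum fun i' _ => ?_
  rw [mul_sum]
  calc ∑ j ∈ T.Z i ∩ T.Z i', T.Db * T.w j ≤ ∑ j ∈ T.Z i ∩ T.Z i', (1 : ℝ) := by
        refine sum_le_sum fun j hj => ?_
        have h1 := w_le_b hT (SWA_lt (mem_of_mem_inter_left hj))
        linarith
    _ = _ := by
        rw [sum_const, nsmul_eq_mul, mul_one]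

theorem ZZ_nonneg (hT : T.Ok) (i i' : ℕ) : 0 ≤ ∑ j ∈ T.Z i ∩ T.Z i', T.w j := by
  exact sum_nonneg fun j hj => w_nonneg hT (SWA_lt (mem_of_mem_inter_left hj))

theorem Om_eq (hT : T.Ok) (i i' : ℕ) :
    T.x * T.Om i i' = ∑ j ∈ range T.J, T.w j + T.ws - ∑ j ∈ T.Z i, T.w j - ∑ j ∈ T.Z i', T.w j +
      ∑ j ∈ T.Z i ∩ T.Z i', T.w j := by
  have hx : T.x ≠ 0 := by
    have := x_ge hT
    intro h
    rw [h] at this
    norm_num at this
  unfold Om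
  rw [mul_div_cancel₀ _ hx]
  unfold E Z
  rw [← filter_and, ← filter_and, sum_filter, sum_filter, sum_filter, sum_filter]
  have h1 : ∑ j ∈ range T.J, (if ¬T.zone i j ∧ ¬T.zone i' j then T.w j else 0) =
      ∑ j ∈ range T.J, (T.w j - (if T.zone i j then T.w j else 0) -
        (if T.zone i' j then T.w j else 0) + (if T.zone i j ∧ T.zone i' j then T.w j else 0)) := by
    refine sum_congr rfl fun j _ => ?_
    by_cases h2 : T.zone i j <;> by_cases h3 : T.zone i' j <;> simp [h2, h3]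
  rw [h1, sum_add_distrib, sum_sub_distrib, sum_sub_distrib]
  ring

theorem Om_symm (i i' : ℕ) : T.Om i i' = T.Om i' i := by
  unfold Om
  rw [inter_comm]

end Par

end Pool.Agent.H98.HVB
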