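import Pool.Agent.H98.HVB.CNT
import Pool.Agent.H98.HVB.NUA

/-!
# WBD: bounds for the weights `w j`

Let `j < J`, `d = T.d j ∈ [0, P/k]`, `P/k ≤ 2.01 c` (`P_k`), `s = T.s j ∈ {1, 2}`, `sg ≤ h(1+1.5c)`, `h = c/8`.
* `D_eq`: `D j = mu (K - cnt j) = mu (k + (P + 1 - cnt j)) = mu k (1 + d)` (`card_act_add`).
* `w_eq`: `N j = s h th/D j = s sg/(1+d)`, so `Db w j = (1 - s sg/(1+d))/(1+d) = 1/(1+d) - s sg/(1+d)^2`.
* `w_ub`: `1/(1+d) ≤ 1 - d + d²`, `1/(1+d)² ≥ 1 - 2d`, `s ≤ 2`.  `w_lb`: `1/(1+d) ≥ 1 - d`, `1/(1+d)² ≤ 1`.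
* `w_le_b`: if `s = 2`: `w_ub` and `-d + d² + 4 sg d = - d (1 - d - 4 sg) ≤ 0`.  If `s = 1`: `jL ≤ j` fails or `j + jL < J` fails, so `j < jL` or `J ≤ j + jL`, so `cnt j ≤ jL` (`card_zn_lo`, `card_zn_hi`), so
  `d ≥ (P + 1 - jL)/k ≥ 0.87 c x/x = 0.87 c` (`jL_P`, `k ≤ K ≤ x`), and by `w_ub` (with `s = 1`) it is enough that `sg ≤ d (1 - d - 4 sg)`: `d (1 - d - 4 sg) ≥ 0.87 c · 0.99 ≥ 0.8 c ≥ sg`.
* `w_nonneg`: `w_lb` and `1 - d - 2 sg ≥ 0`, `Db > 0`.  `w_le_one`: from `w_le_b`.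
* `wD`: `w j * D j = 1 - N j` (`D j ≠ 0`), `N_nonneg`, `N_le`: `N j = s sg/(1+d) ≤ 2 sg ≤ c`.
-/

set_option autoImplicit false
set_option linter.unusedVariables false

namespace Pool.Agent.H98.HVB

open Finset

namespace Par

variable {T : Par}

theorem WBD_Db0 (hT : T.Ok) : 0 < T.Db := by
  have h1 := Db_lo hT
  have h2 := hT.c1
  linarith

theorem WBD_d (hT : T.Ok) {j : ℕ} (hj : j < T.J) : T.d j ≤ 2.01 * T.c :=
  (d_le hT hj).trans (P_k hT)

theorem WBD_sg (hT : T.Ok) : T.sg ≤ 0.126 * T.c := by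
  have h1 := sg_hi hT
  have h2 := hT.c0
  have h3 := hT.c1
  unfold h at h1
  nlinarith

theorem WBD_ws (hT : T.Ok) : 0 < 1 - 2 * T.h ∧ 0 ≤ T.h * T.th / (1 - 2 * T.h) ∧
    T.h * T.th / (1 - 2 * T.h) ≤ 1 ∧ 1 - 2 * T.h ≤ 1 := by
  have h1 := h_pos hT
  have h2 := th_pos hT
  have h3 := hT.c0
  have h4 := hT.c1
  have h5 : T.h = T.c / 8 := rfl
  have h6 : T.th = 1 - T.c := rfl
  have h7 : 0 < 1 - 2 * T.h := by linarith
  refine ⟨h7, by positivity, ?_, by linarith⟩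
  rw [div_le_one h7, h6]
  nlinarith

theorem s_cases (j : ℕ) : T.s j = 1 ∨ T.s j = 2 := by
  unfold s
  split_ifs
  · exact Or.inr rfl
  · exact Or.inl rfl

theorem D_eq (hT : T.Ok) (j : ℕ) : T.D j = T.Db * (1 + T.d j) := by
  have hk := CNT_k0 hT
  have h1 : ((T.act j).card : ℝ) + ((T.zn j).card : ℝ) = T.K := by
    exact_mod_cast card_act_add j
  have h2 : T.k * (1 + T.d j) = (T.act j).card := by
    unfold d
    rw [mul_add, mul_div_cancel₀ _ hk.ne']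
    unfold k
    linarith
  unfold D Db
  rw [mul_assoc, h2]

theorem D_pos (hT : T.Ok) (j : ℕ) : 0 < T.D j := by
  rw [D_eq hT]
  have h1 := d_nonneg hT j
  have h2 := WBD_Db0 hT
  positivity

theorem D_ge (hT : T.Ok) (j : ℕ) : T.Db ≤ T.D j := by
  rw [D_eq hT]
  have h1 := d_nonneg hT j
  have h2 := WBD_Db0 hT
  nlinarith

theorem D_le (hT : T.Ok) (j : ℕ) : T.D j ≤ 1 - 2 * T.h := by
  rw [← mu_K hT]
  unfold D
  refine mul_le_mul_of_nonneg_left ?_ (mu_pos hT).le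
  have h1 := card_act_add (T := T) j
  exact_mod_cast (by omega : (T.act j).card ≤ T.K)

theorem w_eq (hT : T.Ok) (j : ℕ) :
    T.Db * T.w j = 1 / (1 + T.d j) - T.s j * T.sg / (1 + T.d j) ^ 2 := by
  have h1 := d_nonneg hT j
  have h2 := WBD_Db0 hT
  have h3 : 1 + T.d j ≠ 0 := by positivity
  unfold w N sg
  rw [D_eq hT]
  field_simp

theorem w_ub (hT : T.Ok) (j : ℕ) :
    T.Db * T.w j ≤ 1 - T.d j - T.s j * T.sg + T.d j ^ 2 + 4 * T.sg * T.d j := by
  rw [w_eq hT]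
  have h1 := d_nonneg hT j
  have h2 := sg_pos hT
  have h3 : 1 / (1 + T.d j) ≤ 1 - T.d j + T.d j ^ 2 := by
    rw [div_le_iff₀ (by positivity)]
    nlinarith [pow_nonneg h1 3]
  have h4 : 1 - 2 * T.d j ≤ 1 / (1 + T.d j) ^ 2 := by
    rw [le_div_iff₀ (by positivity)]
    nlinarith [pow_nonneg h1 3, pow_nonneg h1 2]
  have h5 : T.s j * T.sg * (1 - 2 * T.d j) ≤ T.s j * T.sg / (1 + T.d j) ^ 2 := by
    rw [div_eq_mul_one_div (T.s j * T.sg)]
    refine mul_le_mul_of_nonneg_left h4 ?_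
    rcases s_cases (T := T) j with h | h <;> rw [h] <;> positivity
  rcases s_cases (T := T) j with h | h <;> rw [h] at h5 ⊢ <;> nlinarith [mul_nonneg h2.le h1]

theorem w_lb (hT : T.Ok) (j : ℕ) : 1 - T.d j - T.s j * T.sg ≤ T.Db * T.w j := by
  rw [w_eq hT]
  have h1 := d_nonneg hT j
  have h2 := sg_pos hT
  have h3 : 1 - T.d j ≤ 1 / (1 + T.d j) := by
    rw [le_div_iff₀ (by positivity)]
    nlinarith [pow_nonneg h1 2]
  have h4 : 1 / (1 + T.d j) ^ 2 ≤ 1 := by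
    rw [div_le_one (by positivity)]
    nlinarith [pow_nonneg h1 2]
  have h5 : T.s j * T.sg / (1 + T.d j) ^ 2 ≤ T.s j * T.sg * 1 := by
    rw [div_eq_mul_one_div (T.s j * T.sg)]
    refine mul_le_mul_of_nonneg_left h4 ?_
    rcases s_cases (T := T) j with h | h <;> rw [h] <;> positivity
  linarith

theorem w_le_b (hT : T.Ok) {j : ℕ} (hj : j < T.J) : T.Db * T.w j ≤ 1 - 2 * T.sg := by
  have h1 := d_nonneg hT j
  have h2 := sg_pos hT
  have hu := w_ub hT j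
  have hd := WBD_d hT hj
  have hs := WBD_sg hT
  have hc0 := hT.c0
  have hc1 := hT.c1
  have h3 : 99 / 100 ≤ 1 - T.d j - 4 * T.sg := by nlinarith
  rcases s_cases (T := T) j with h | h
  · rw [h] at hu
    have h4 : 0.87 * T.c ≤ T.d j := by
      have h5 : (T.zn j).card ≤ T.jL := by
        by_contra hne
        have h6 : T.jL ≤ j ∧ j + T.jL < T.J := by
          have h7 := card_zn_lo (T := T) j
          have h8 := card_zn_hi (T := T) hj
          omega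
        unfold s at h
        rw [if_pos h6] at h
        norm_num at h
      have h6 : ((T.zn j).card : ℝ) ≤ T.jL := by exact_mod_cast h5
      have hk := CNT_k0 hT
      have h7 := jL_P hT
      have h8 := k_hi hT
      have h9 := K_hi hT
      unfold d
      rw [le_div_iff₀ hk]
      have h10 : 0.87 * T.c * T.k ≤ 0.87 * T.c * T.x :=
        mul_le_mul_of_nonneg_left (by linarith) (by positivity)
      linarith
    have h5 : T.d j * (99 / 100) ≤ T.d j * (1 - T.d j - 4 * T.sg) :=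
      mul_le_mul_of_nonneg_left h3 h1
    have h6 : T.sg ≤ T.d j * (1 - T.d j - 4 * T.sg) := by nlinarith
    nlinarith
  · rw [h] at hu
    have h5 : 0 ≤ T.d j * (1 - T.d j - 4 * T.sg) := mul_nonneg h1 (by linarith)
    nlinarith

theorem w_nonneg (hT : T.Ok) {j : ℕ} (hj : j < T.J) : 0 ≤ T.w j := by
  have h2 := WBD_Db0 hT
  have hl := w_lb hT j
  have hd := WBD_d hT hj
  have hs := WBD_sg hT
  have hs0 := sg_pos hT
  have hc1 := hT.c1
  have h3 : 0 ≤ T.Db * T.w j := by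
    rcases s_cases (T := T) j with h | h <;> rw [h] at hl <;> linarith
  exact nonneg_of_mul_nonneg_right h3 h2

theorem wD (hT : T.Ok) (j : ℕ) : T.w j * T.D j = 1 - T.N j := by
  unfold w
  rw [div_mul_cancel₀ _ (D_pos hT j).ne']

theorem N_nonneg (hT : T.Ok) (j : ℕ) : 0 ≤ T.N j := by
  have h1 := h_pos hT
  have h2 := th_pos hT
  have h3 := D_pos hT j
  unfold N
  rcases s_cases (T := T) j with h | h <;> rw [h] <;> positivity

theorem WBD_N (hT : T.Ok) (j : ℕ) : T.N j ≤ T.s j * T.sg := by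
  have h0 := WBD_Db0 hT
  have h1 := D_ge hT j
  have h2 := h_pos hT
  have h3 := th_pos hT
  unfold N sg
  rw [← mul_div_assoc, ← mul_assoc]
  refine div_le_div_of_nonneg_left ?_ h0 h1
  rcases s_cases (T := T) j with h | h <;> rw [h] <;> positivity

theorem N_le (hT : T.Ok) (j : ℕ) : T.N j ≤ T.c := by
  have hs := WBD_sg hT
  have hs0 := sg_pos hT
  have hc0 := hT.c0
  have h1 := WBD_N hT j
  rcases s_cases (T := T) j with h | h <;> rw [h] at h1 <;> linarith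

/-- `N` is close to `s h` -/
theorem N_lo (hT : T.Ok) (j : ℕ) : T.s j * T.h * (1 - T.c) ≤ T.N j := by
  have h1 := h_pos hT
  have h2 := th_pos hT
  have h3 := D_pos hT j
  have h4 := D_le hT j
  have h5 : (1 - T.c) = T.th := rfl
  rw [h5]
  unfold N
  rw [le_div_iff₀ h3]
  have h6 : 0 ≤ T.s j * T.h * T.th := by
    rcases s_cases (T := T) j with h | h <;> rw [h] <;> positivity
  calc T.s j * T.h * T.th * T.D j ≤ T.s j * T.h * T.th * 1 :=
        mul_le_mul_of_nonneg_left (by linarith) h6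
    _ = T.s j * T.h * T.th := mul_one _

theorem N_hi (hT : T.Ok) (j : ℕ) : T.N j ≤ T.s j * T.h * (1 + 2 * T.c) := by
  have h1 := WBD_N hT j
  have h2 := sg_hi hT
  have h3 := h_pos hT
  have hc0 := hT.c0
  have h4 : T.h * (1 + 1.5 * T.c) ≤ T.h * (1 + 2 * T.c) :=
    mul_le_mul_of_nonneg_left (by linarith) h3.le
  rcases s_cases (T := T) j with h | h <;> rw [h] at h1 ⊢ <;> linarith

theorem ws_nonneg (hT : T.Ok) : 0 ≤ T.ws := by
  obtain ⟨h1, h2, h3, h4⟩ := WBD_ws hT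
  have h5 := hT.s0
  unfold ws
  have h6 : 0 ≤ 1 - T.h * T.th / (1 - 2 * T.h) := by linarith
  have h7 : 0 ≤ T.sS := by linarith
  positivity

theorem Db_ws (hT : T.Ok) : T.Db * T.ws ≤ 2 := by
  obtain ⟨h1, h2, h3, h4⟩ := WBD_ws hT
  have h5 := ws_nonneg hT
  have h6 := Db_hi hT
  have h7 := hT.s0
  have h8 := hT.s1
  calc T.Db * T.ws ≤ (1 - 2 * T.h) * T.ws := mul_le_mul_of_nonneg_right h6 h5
    _ = T.sS * (1 - T.h * T.th / (1 - 2 * T.h)) := by
      unfold ws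
      field_simp
    _ ≤ T.sS * 1 := mul_le_mul_of_nonneg_left (by linarith) (by linarith)
    _ ≤ 2 := by linarith

end Par

end Pool.Agent.H98.HVB
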